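import Pool.Agent.H99.SC.Basic

/-!
Atoms of a symmetric set in a finite abelian group.
-/

open Finset
open scoped Pointwise

namespace H99.SC

set_option linter.unusedSectionVars false

variable {G : Type*} [AddCommGroup G] [DecidableEq G] [Fintype G]

/-- `k`-separable sets -/
structure Sep (S : Finset G) (k : ℕ) (X : Finset G) : Prop where
  big : k ≤ X.card
  small : (X + S).card + k ≤ Fintype.card G

structure Atom (S : Finset G) (k : ℕ) (C : Finset G) : Prop where
  sep : Sep S k C
  min : ∀ X, Sep S k X → (C + S).card + X.card ≤ (X + S).card + C.card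
  card_min : ∀ X, Sep S k X → (X + S).card + C.card ≤ (C + S).card + X.card → C.card ≤ X.card

theorem exists_atom {S : Finset G} (h0 : (0 : G) ∈ S) {k : ℕ} {X0 : Finset G}
    (h : Sep S k X0) : ∃ C, Atom S k C := by
  classical
  obtain ⟨C, hC, hmin⟩ := Finset.exists_min_image
    ((univ : Finset (Finset G)).filter (fun X => Sep S k X))
    (fun X => ((X + S).card - X.card) * (Fintype.card G + 1) + X.card) ⟨X0, by simp [h]⟩
  simp only [mem_filter, mem_univ, true_and] at hC hmin
  have key : ∀ X, Sep S k X → ((C + S).card - C.card < (X + S).card - X.card) ∨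
      ((C + S).card - C.card = (X + S).card - X.card ∧ C.card ≤ X.card) := by
    intro X hX
    have h1 := hmin X hX
    have hcX : X.card ≤ Fintype.card G := Finset.card_le_univ X
    by_contra hcon
    push Not at hcon
    obtain ⟨h2, h3⟩ := hcon
    rcases Nat.lt_or_ge ((X + S).card - X.card) ((C + S).card - C.card) with h4 | h4
    · have h5 : ((X + S).card - X.card) + 1 ≤ (C + S).card - C.card := h4
      have h6 := Nat.mul_le_mul_right (Fintype.card G + 1) h5
      rw [add_mul, one_mul] at h6
      omega
    · have h5 : (C + S).card - C.card = (X + S).card - X.card := le_antisymm h4 h2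
      have h6 := h3 h5
      rw [h5] at h1
      omega
  refine ⟨C, hC, ?_, ?_⟩
  · intro X hX
    have h1 := card_le_add (X := X) h0
    have h2 := card_le_add (X := C) h0
    rcases key X hX with h | h <;> omega
  · intro X hX hle
    have h1 := card_le_add (X := X) h0
    have h2 := card_le_add (X := C) h0
    rcases key X hX with h | h <;> omega

theorem dual_disj {S X : Finset G} (hS : Sym S) : Disjoint ((univ \ (X + S)) + S) X := by
  rw [Finset.disjoint_left]
  intro y hy hyX
  rw [Finset.mem_add] at hy
  obtain ⟨w, hw, s, hs, rfl⟩ := hy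
  rw [Finset.mem_sdiff] at hw
  apply hw.2
  rw [Finset.mem_add]
  exact ⟨w + s, hyX, -s, hS.neg s hs, by abel⟩

theorem dual_card {S X : Finset G} (hS : Sym S) :
    ((univ \ (X + S)) + S).card + X.card ≤ Fintype.card G := by
  rw [← Finset.card_union_of_disjoint (dual_disj hS)]
  exact Finset.card_le_univ _

theorem card_compl' (X : Finset G) : (univ \ X).card + X.card = Fintype.card G := by
  rw [Finset.card_sdiff_add_card_eq_card (Finset.subset_univ X)]
  exact Finset.card_univ

theorem Sep.dual {S X : Finset G} {k : ℕ} (hS : Sym S) (h : Sep S k X) :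
    Sep S k (univ \ (X + S)) := by
  have h1 := dual_card (X := X) hS
  have h2 := card_compl' (X + S)
  have h3 := h.big
  have h4 := h.small
  exact ⟨by omega, by omega⟩

theorem Atom.card_le {S C : Finset G} {k : ℕ} (hS : Sym S) (h : Atom S k C) :
    C.card + (C + S).card ≤ Fintype.card G := by
  have h1 := dual_card (X := C) hS
  have h2 := card_compl' (C + S)
  have h3 := h.card_min _ (h.sep.dual hS) (by omega)
  omega

theorem submod (S C D : Finset G) :
    ((C ∩ D) + S).card + ((C ∪ D) + S).card ≤ (C + S).card + (D + S).card := by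
  have h1 := Finset.card_union_add_card_inter (C + S) (D + S)
  have h2 : ((C ∩ D) + S).card ≤ ((C + S) ∩ (D + S)).card :=
    Finset.card_le_card Finset.inter_add_subset
  rw [Finset.union_add]
  omega

theorem atom_inter {S C D : Finset G} {k : ℕ} (hS : Sym S) (hC : Atom S k C) (hD : Atom S k D)
    (hne : C ≠ D) : (C ∩ D).card < k := by
  by_contra hk
  push Not at hk
  have e1 := hC.min D hD.sep
  have e2 := hD.min C hC.sep
  have e3 := hC.card_min D hD.sep (by omega)
  have e4 := hD.card_min C hC.sep (by omega)
  have hlt : (C ∩ D).card < C.card := by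
    apply Finset.card_lt_card
    rw [Finset.ssubset_iff_subset_ne]
    refine ⟨Finset.inter_subset_left, ?_⟩
    intro h
    apply hne
    apply Finset.eq_of_subset_of_card_le
    · rw [← h]; exact Finset.inter_subset_right
    · omega
  have hle : ((C ∩ D) + S).card ≤ (C + S).card :=
    Finset.card_le_card (Finset.add_subset_add_right Finset.inter_subset_left)
  have hs1 : Sep S k (C ∩ D) := ⟨hk, by have := hC.sep.small; omega⟩
  have hstrict : (C + S).card + (C ∩ D).card < ((C ∩ D) + S).card + C.card := by
    by_contra hcon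
    push Not at hcon
    have := hC.card_min _ hs1 (by omega)
    omega
  have hsub := submod S C D
  have hcu := Finset.card_union_add_card_inter C D
  have hcl := hC.card_le hS
  have hs2 : Sep S k (C ∪ D) := by
    refine ⟨?_, by omega⟩
    have := hC.sep.big
    omega
  have := hC.min _ hs2
  omega

theorem Atom.of_card {S C C' : Finset G} {k : ℕ} (hC : Atom S k C) (h1 : C'.card = C.card)
    (h2 : (C' + S).card = (C + S).card) : Atom S k C' := by
  refine ⟨⟨?_, ?_⟩, ?_, ?_⟩
  · rw [h1]; exact hC.sep.big
  · rw [h2]; exact hC.sep.small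
  · intro X hX; rw [h1, h2]; exact hC.min X hX
  · intro X hX; rw [h1, h2]; exact hC.card_min X hX

/-- translate -/
def tr (g : G) (C : Finset G) : Finset G := C.image (fun x => x + g)

theorem mem_tr {g x : G} {C : Finset G} : x ∈ tr g C ↔ x - g ∈ C := by
  unfold tr
  rw [Finset.mem_image]
  constructor
  · rintro ⟨a, ha, rfl⟩; simpa using ha
  · intro h; exact ⟨x - g, h, by simp⟩

theorem card_tr (g : G) (C : Finset G) : (tr g C).card = C.card :=
  Finset.card_image_of_injective _ (fun a b h => by simpa using h)

theorem tr_add (g : G) (C S : Finset G) : tr g C + S = tr g (C + S) := by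
  ext x
  rw [mem_tr, Finset.mem_add, Finset.mem_add]
  constructor
  · rintro ⟨a, ha, b, hb, rfl⟩
    rw [mem_tr] at ha
    exact ⟨a - g, ha, b, hb, by abel⟩
  · rintro ⟨a, ha, b, hb, hab⟩
    refine ⟨a + g, by rw [mem_tr]; simpa using ha, b, hb, ?_⟩
    have : x = (x - g) + g := by simp
    rw [this, ← hab]; abel

/-- reflection -/
def rf (g : G) (C : Finset G) : Finset G := C.image (fun x => g - x)

theorem mem_rf {g x : G} {C : Finset G} : x ∈ rf g C ↔ g - x ∈ C := by
  unfold rf
  rw [Finset.mem_image]
  constructor
  · rintro ⟨a, ha, rfl⟩; simpa using ha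
  · intro h; exact ⟨g - x, h, by simp⟩

theorem card_rf (g : G) (C : Finset G) : (rf g C).card = C.card :=
  Finset.card_image_of_injective _ (fun a b h => by simpa using h)

theorem rf_add (g : G) (C : Finset G) {S : Finset G} (hS : Sym S) :
    rf g C + S = rf g (C + S) := by
  ext x
  rw [mem_rf, Finset.mem_add, Finset.mem_add]
  constructor
  · rintro ⟨a, ha, b, hb, rfl⟩
    rw [mem_rf] at ha
    exact ⟨g - a, ha, -b, hS.neg b hb, by abel⟩
  · rintro ⟨a, ha, b, hb, hab⟩
    refine ⟨g - a, by rw [mem_rf]; simpa using ha, -b, hS.neg b hb, ?_⟩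
    have : x = g - (g - x) := by simp
    rw [this, ← hab]; abel

theorem Atom.tr {S C : Finset G} {k : ℕ} (hC : Atom S k C) (g : G) : Atom S k (tr g C) :=
  hC.of_card (card_tr g C) (by rw [tr_add, card_tr])

theorem Atom.rf {S C : Finset G} {k : ℕ} (hS : Sym S) (hC : Atom S k C) (g : G) :
    Atom S k (rf g C) :=
  hC.of_card (card_rf g C) (by rw [rf_add g C hS, card_rf])

/-- the stabilizer of a finite set -/
def stab (C : Finset G) : AddSubgroup G where
  carrier := {g | Per C g}
  zero_mem' := by intro x hx; simpa using hx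
  add_mem' := by
    intro a b ha hb x hx
    rw [← add_assoc]
    exact hb _ (ha x hx)
  neg_mem' := by
    intro g hg x hx
    have h1 : H99.SC.tr g C ⊆ C := by
      intro y hy
      rw [mem_tr] at hy
      simpa using hg _ hy
    have h2 : H99.SC.tr g C = C := Finset.eq_of_subset_of_card_le h1 (by rw [card_tr])
    have h3 : x ∈ H99.SC.tr g C := by rw [h2]; exact hx
    rw [mem_tr] at h3
    rwa [← sub_eq_add_neg]

theorem mem_stab {C : Finset G} {g : G} : g ∈ stab C ↔ Per C g := Iff.rfl

/-- if all differences of elements of `C` are periods then `C` is a coset -/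
theorem coset_of_per {C : Finset G} (h : ∀ x ∈ C, ∀ y ∈ C, Per C (x - y)) {c : G} (hc : c ∈ C) (x : G) :
    x ∈ C ↔ x - c ∈ stab C := by
  constructor
  · intro hx; exact h x hx c hc
  · intro hx
    have := hx c hc
    simpa using this

theorem per_of_tr_eq {C : Finset G} {g : G} (h : tr g C = C) : Per C g := by
  intro x hx
  rw [← h, mem_tr]; simpa using hx

theorem atom_one {S C : Finset G} (hS : Sym S) (hC : Atom S 1 C) :
    ∀ x ∈ C, ∀ y ∈ C, Per C (x - y) := by
  intro x hx y hy
  apply per_of_tr_eq
  by_contra hne
  have h1 := atom_inter hS (hC.tr (x - y)) hC hne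
  have h2 : 0 < (tr (x - y) C ∩ C).card := by
    apply Finset.card_pos.2
    refine ⟨x, ?_⟩
    rw [Finset.mem_inter, mem_tr]
    exact ⟨by simpa using hy, hx⟩
  omega

theorem atom_two {S C : Finset G} (hS : Sym S) (hC : Atom S 2 C) :
    (∃ x d, d ≠ 0 ∧ C = {x, x + d}) ∨ (∀ x ∈ C, ∀ y ∈ C, Per C (x - y)) := by
  have hrf : ∀ x ∈ C, ∀ y ∈ C, x ≠ y → rf (x + y) C = C := by
    intro x hx y hy hxy
    by_contra hne
    have h1 := atom_inter hS (hC.rf hS (x + y)) hC hne
    have h2 : ({x, y} : Finset G) ⊆ rf (x + y) C ∩ C := by
      intro z hz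
      simp only [mem_insert, mem_singleton] at hz
      rw [Finset.mem_inter, mem_rf]
      rcases hz with rfl | rfl
      · exact ⟨by simpa using hy, hx⟩
      · exact ⟨by simpa using hx, hy⟩
    have h3 := Finset.card_le_card h2
    rw [Finset.card_pair hxy] at h3
    omega
  by_cases h2 : C.card = 2
  · left
    obtain ⟨x, y, hxy, rfl⟩ := Finset.card_eq_two.1 h2
    refine ⟨x, y - x, by rwa [sub_ne_zero, ne_comm], by simp⟩
  · right
    have h3 : 3 ≤ C.card := by have := hC.sep.big; omega
    intro x hx y hy
    by_cases hxy : x = y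
    · subst hxy
      intro z hz; simpa using hz
    · -- choose a third element
      have : ∃ w ∈ C, w ≠ x ∧ w ≠ y := by
        by_contra hcon
        push Not at hcon
        have hsub : C ⊆ {x, y} := by
          intro w hw
          simp only [mem_insert, mem_singleton]
          by_cases hwx : w = x
          · left; exact hwx
          · right; exact hcon w hw hwx
        have := Finset.card_le_card hsub
        rw [Finset.card_pair hxy] at this
        omega
      obtain ⟨w, hw, hwx, hwy⟩ := this
      have e1 := hrf w hw x hx hwx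
      have e2 := hrf w hw y hy hwy
      intro z hz
      have h4 : (w + y) - z ∈ C := by
        rw [← e2] at hz
        rwa [mem_rf] at hz
      have h5 : (w + x) - ((w + y) - z) ∈ C := by
        rw [← e1] at h4
        rwa [mem_rf] at h4
      have h6 : (w + x) - ((w + y) - z) = z + (x - y) := by abel
      rwa [h6] at h5

end H99.SC
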