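import Mathlib

/-!
Iterated sumsets of symmetric sets in a finite abelian group.
-/

open Finset
open scoped Pointwise

namespace H99.SC

set_option linter.unusedSectionVars false

variable {G : Type*} [AddCommGroup G] [DecidableEq G]

/-- the `j`-fold sumset -/
def It (B : Finset G) : ℕ → Finset G
  | 0 => {0}
  | j + 1 => It B j + B

/-- symmetric sets containing `0` -/
structure Sym (B : Finset G) : Prop where
  zero : (0 : G) ∈ B
  neg : ∀ x ∈ B, -x ∈ B

theorem Sym.neg_iff {B : Finset G} (h : Sym B) (x : G) : -x ∈ B ↔ x ∈ B := by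
  constructor
  · intro hx
    have := h.neg _ hx
    simpa using this
  · exact h.neg x

@[simp] theorem It_zero (B : Finset G) : It B 0 = {0} := rfl

theorem It_succ (B : Finset G) (j : ℕ) : It B (j + 1) = It B j + B := rfl

theorem add_zero_set (X : Finset G) : X + {0} = X := by
  ext x; rw [Finset.mem_add]; simp

theorem zero_set_add (X : Finset G) : ({0} : Finset G) + X = X := by
  ext x; rw [Finset.mem_add]; simp

@[simp] theorem It_one (B : Finset G) : It B 1 = B := by
  rw [It_succ, It_zero, zero_set_add]

theorem It_two (B : Finset G) : It B 2 = B + B := by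
  rw [It_succ, It_one]

theorem It_add (B : Finset G) (i j : ℕ) : It B (i + j) = It B i + It B j := by
  induction j with
  | zero => rw [It_zero, add_zero_set]; rfl
  | succ j ih => rw [← add_assoc, It_succ, ih, It_succ, add_assoc]

theorem It_mono_set {B C : Finset G} (h : B ⊆ C) (j : ℕ) : It B j ⊆ It C j := by
  induction j with
  | zero => simp
  | succ j ih => rw [It_succ, It_succ]; exact Finset.add_subset_add ih h

theorem zero_mem_It {B : Finset G} (h : (0 : G) ∈ B) (j : ℕ) : (0 : G) ∈ It B j := by
  induction j with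
  | zero => simp
  | succ j ih =>
    rw [It_succ, Finset.mem_add]
    exact ⟨0, ih, 0, h, by simp⟩

theorem subset_add_right' {X B : Finset G} (h : (0 : G) ∈ B) : X ⊆ X + B := by
  intro x hx
  rw [Finset.mem_add]
  exact ⟨x, hx, 0, h, by simp⟩

theorem It_subset_succ {B : Finset G} (h : (0 : G) ∈ B) (j : ℕ) : It B j ⊆ It B (j + 1) :=
  subset_add_right' h

theorem It_mono {B : Finset G} (h : (0 : G) ∈ B) {i j : ℕ} (hij : i ≤ j) : It B i ⊆ It B j := by
  induction j, hij using Nat.le_induction with
  | base => exact Finset.Subset.refl _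
  | succ j _ ih => exact ih.trans (It_subset_succ h j)

theorem Sym.add {X Y : Finset G} (hX : Sym X) (hY : Sym Y) : Sym (X + Y) := by
  refine ⟨?_, ?_⟩
  · rw [Finset.mem_add]; exact ⟨0, hX.zero, 0, hY.zero, by simp⟩
  · intro x hx
    rw [Finset.mem_add] at hx ⊢
    obtain ⟨a, ha, b, hb, rfl⟩ := hx
    exact ⟨-a, hX.neg a ha, -b, hY.neg b hb, by abel⟩

theorem Sym.It {B : Finset G} (h : Sym B) (j : ℕ) : Sym (It B j) := by
  induction j with
  | zero => exact ⟨by simp, by simp⟩
  | succ j ih => rw [It_succ]; exact ih.add h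

theorem Sym.image {G' : Type*} [AddCommGroup G'] [DecidableEq G'] {B : Finset G} (h : Sym B)
    (f : G →+ G') : Sym (B.image f) := by
  refine ⟨?_, ?_⟩
  · rw [Finset.mem_image]; exact ⟨0, h.zero, by simp⟩
  · intro x hx
    rw [Finset.mem_image] at hx ⊢
    obtain ⟨a, ha, rfl⟩ := hx
    exact ⟨-a, h.neg a ha, by simp⟩

theorem image_It {G' : Type*} [AddCommGroup G'] [DecidableEq G'] (B : Finset G)
    (f : G →+ G') (j : ℕ) : (It B j).image f = It (B.image f) j := by
  induction j with
  | zero => simp
  | succ j ih => rw [It_succ, Finset.image_add, ih, It_succ]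

/-- every element of the generated subgroup is in some `It B j` (finite groups) -/
theorem mem_It_of_closure {B : Finset G} (h : Sym B) (x : G)
    (hx : x ∈ AddSubgroup.closure (B : Set G)) : ∃ j, x ∈ It B j := by
  induction hx using AddSubgroup.closure_induction with
  | mem x hx => exact ⟨1, by simpa using hx⟩
  | zero => exact ⟨0, by simp⟩
  | add x y _ _ hx hy =>
    obtain ⟨i, hi⟩ := hx
    obtain ⟨j, hj⟩ := hy
    exact ⟨i + j, by rw [It_add]; exact Finset.add_mem_add hi hj⟩
  | neg x _ hx =>
    obtain ⟨i, hi⟩ := hx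
    exact ⟨i, (h.It i).neg x hi⟩

/-- if `X + B = X` with `X` nonempty and `B` generating, then `X` is everything -/
theorem eq_univ_of_add [Fintype G] {B X : Finset G} (h : Sym B)
    (hgen : AddSubgroup.closure (B : Set G) = ⊤)
    (hX : X.Nonempty) (hXB : X + B ⊆ X) : X = univ := by
  obtain ⟨x0, hx0⟩ := hX
  have key : ∀ j, X + It B j ⊆ X := by
    intro j
    induction j with
    | zero => rw [It_zero, add_zero_set]
    | succ j ih =>
      rw [It_succ, ← add_assoc]
      exact (Finset.add_subset_add_right ih).trans hXB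
  ext y
  simp only [mem_univ, iff_true]
  obtain ⟨j, hj⟩ := mem_It_of_closure h (y - x0) (by rw [hgen]; trivial)
  have := key j (Finset.add_mem_add hx0 hj)
  simpa using this

/-- `g` is a period of `X` -/
def Per (X : Finset G) (g : G) : Prop := ∀ x ∈ X, x + g ∈ X

theorem Per.add_set {X : Finset G} {g : G} (h : Per X g) (Y : Finset G) : Per (X + Y) g := by
  intro x hx
  rw [Finset.mem_add] at hx ⊢
  obtain ⟨a, ha, b, hb, rfl⟩ := hx
  exact ⟨a + g, h a ha, b, hb, by abel⟩

theorem Per.nsmul {X : Finset G} {g : G} (h : Per X g) (m : ℕ) : Per X (m • g) := by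
  induction m with
  | zero => intro x hx; simpa using hx
  | succ m ih =>
    intro x hx
    rw [succ_nsmul, ← add_assoc]
    exact h _ (ih x hx)

theorem It_per {B : Finset G} {g : G} {i j : ℕ} (hij : i ≤ j) (h : Per (It B i) g) :
    Per (It B j) g := by
  obtain ⟨m, rfl⟩ := Nat.exists_eq_add_of_le hij
  rw [It_add]
  exact h.add_set _

theorem card_le_add {X B : Finset G} (h : (0 : G) ∈ B) : X.card ≤ (X + B).card :=
  Finset.card_le_card (subset_add_right' h)

/-- `x ∉ X + Y` makes `X` and `x - Y` disjoint -/
theorem card_add_card_le [Fintype G] {X Y : Finset G} {x : G} (hx : x ∉ X + Y) :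
    X.card + Y.card ≤ Fintype.card G := by
  classical
  have hinj : Function.Injective (fun y : G => x - y) := fun a b h => by simpa using h
  have h1 : (Y.image (fun y => x - y)).card = Y.card := Finset.card_image_of_injective _ hinj
  have hd : Disjoint X (Y.image (fun y => x - y)) := by
    rw [Finset.disjoint_left]
    intro a ha hb
    rw [Finset.mem_image] at hb
    obtain ⟨y, hy, rfl⟩ := hb
    apply hx
    rw [Finset.mem_add]
    exact ⟨x - y, ha, y, hy, by simp⟩
  rw [← h1, ← Finset.card_union_of_disjoint hd]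
  exact Finset.card_le_univ _

theorem exists_not_mem_of_ne_univ [Fintype G] {X : Finset G} (h : X ≠ univ) : ∃ x, x ∉ X := by
  by_contra hc
  push Not at hc
  exact h (Finset.eq_univ_of_forall hc)

end H99.SC
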