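import Pool.Agent.H99.SC.Upper

/-!
Upper bounds for `Z_2 × Z_M` and `Z_3 × Z_M`.
-/

open Finset
open scoped Pointwise

namespace H99.SC

set_option linter.unusedSectionVars false

universe u

theorem num_two {s b M : ℕ} (hs : 3 ≤ s) (hM : Even M) (h1 : s * b ≤ 2 * M) (h4 : 4 ≤ b)
    (hodd : Odd b → s * b + s ≤ 2 * M + 3) (hdvd : ¬ 2 * s ∣ M) :
    2 * s + 2 ≤ M ∧ b ≤ 2 * (2 * ((M - 2) / (2 * s)) + 1) := by
  have h5 := Nat.mul_le_mul_left s h4
  have hM2 : 2 * s ≤ M := by omega
  have hMne : M ≠ 2 * s := by
    rintro rfl; exact hdvd (dvd_refl _)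
  have hM3 : 2 * s + 2 ≤ M := by
    obtain ⟨r, hr⟩ := hM
    omega
  refine ⟨hM3, ?_⟩
  set q := (M - 2) / (2 * s) with hq
  have h6 : M - 2 < 2 * s * (q + 1) := Nat.lt_mul_div_succ (M - 2) (show 0 < 2 * s by omega)
  have h7 : 2 * s * (q + 1) = 2 * (s * q) + 2 * s := by ring
  have hne2 : M ≠ 2 * (s * q) + 2 * s := by
    intro h
    apply hdvd
    exact ⟨q + 1, by rw [h]; ring⟩
  have h8 : M + 2 ≤ 2 * (s * q) + 2 * s := by
    obtain ⟨r, hr⟩ := hM
    omega
  by_contra hcon
  push Not at hcon
  have h9 : 4 * q + 3 ≤ b := by omega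
  rcases Nat.lt_or_ge b (4 * q + 4) with h10 | h10
  · have hb : b = 4 * q + 3 := by omega
    have hob : Odd b := ⟨2 * q + 1, by omega⟩
    have h11 := hodd hob
    have h12 : s * b = 4 * (s * q) + 3 * s := by rw [hb]; ring
    omega
  · have h11 := Nat.mul_le_mul_left s h10
    have h12 : s * (4 * q + 4) = 4 * (s * q) + 4 * s := by ring
    omega

theorem num_three {s b M : ℕ} (hs : 3 ≤ s) (h1 : s * b ≤ 3 * M) (h5 : 5 ≤ b)
    (hodd : Odd b → s * b + s ≤ 3 * M + 3)
    (hnodd : Odd (3 * M) → s * b + s ≤ 3 * M + 1 ∧ Odd b)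
    (hev : Even b → s * b + 2 * (s - 2) ≤ 3 * M) :
    (2 * s ≤ M ∧ (M % (2 * s) = 0 ∨ M % (2 * s) = 1) ∧ b ≤ 6 * (M / (2 * s)) - 1) ∨
    (2 * s + 2 ≤ M ∧ b ≤ 3 * (2 * ((M - 2) / (2 * s)) + 1)) := by
  set q := M / (2 * s) with hq
  set r := M % (2 * s) with hr
  have hM : M = 2 * (s * q) + r := by
    have := Nat.div_add_mod M (2 * s)
    rw [← hq, ← hr] at this
    have h2 : 2 * s * q = 2 * (s * q) := by ring
    omega
  have hr2 : r < 2 * s := Nat.mod_lt _ (by omega)
  -- parity translation
  have hMpar : Odd M → Odd (3 * M) := fun h => (by decide : Odd 3).mul h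
  have hrM : r % 2 = M % 2 := by omega
  have hMo : r % 2 = 1 → Odd M := fun h => Nat.odd_iff.2 (by omega)
  rcases Nat.lt_or_ge b (6 * q) with hlt | hge
  · -- b < 6 q
    have hq1 : 1 ≤ q := by omega
    by_cases hr01 : r = 0 ∨ r = 1
    · left
      have : s ≤ s * q := Nat.le_mul_of_pos_right s hq1
      exact ⟨by omega, hr01, by omega⟩
    · right
      push Not at hr01
      have h3 : s ≤ s * q := Nat.le_mul_of_pos_right s hq1
      refine ⟨by omega, ?_⟩
      have h4 : q ≤ (M - 2) / (2 * s) := by
        rw [Nat.le_div_iff_mul_le (by omega)]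
        have : q * (2 * s) = 2 * (s * q) := by ring
        omega
      omega
  · -- b ≥ 6 q
    have h6 := Nat.mul_le_mul_left s hge
    have h6' : s * (6 * q) = 6 * (s * q) := by ring
    obtain ⟨c, hc⟩ := Nat.exists_eq_add_of_le hge
    have hsb : s * b = 6 * (s * q) + s * c := by rw [hc]; ring
    -- s c ≤ 3 r
    have hsc : s * c ≤ 3 * r := by omega
    have hr01 : ¬ (r = 0 ∨ r = 1) := by
      rintro (h | h)
      · -- c = 0, b even
        have hc0 : c = 0 := by
          rcases Nat.eq_zero_or_pos c with h0 | h0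
          · exact h0
          · have : s ≤ s * c := Nat.le_mul_of_pos_right s h0
            omega
        have hbe : Even b := ⟨3 * q, by omega⟩
        have := hev hbe
        omega
      · have hMo' : Odd M := hMo (by omega)
        obtain ⟨h7, h8⟩ := hnodd (hMpar hMo')
        have hc1 : c ≤ 1 := by
          by_contra hcon
          push Not at hcon
          have : s * 2 ≤ s * c := Nat.mul_le_mul_left s hcon
          omega
        have : c = 1 := by
          rcases h8 with ⟨w, hw⟩
          omega
        rw [this] at hsb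
        omega
    push Not at hr01
    right
    -- c ≤ 3
    have hc5 : c ≤ 5 := by
      by_contra hcon
      push Not at hcon
      have : s * 6 ≤ s * c := Nat.mul_le_mul_left s hcon
      omega
    have hc3 : c ≤ 3 := by
      by_contra hcon
      push Not at hcon
      have h9 : c = 4 ∨ c = 5 := by omega
      rcases h9 with h9 | h9
      · have hbe : Even b := ⟨3 * q + 2, by omega⟩
        have h10 := hev hbe
        rw [hsb, h9] at h10
        have h11 : r % 2 = 1 := by omega
        obtain ⟨_, h8⟩ := hnodd (hMpar (hMo h11))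
        exact (Nat.not_even_iff_odd.2 h8) hbe
      · have hbo : Odd b := ⟨3 * q + 2, by omega⟩
        have h10 := hodd hbo
        rw [hsb, h9] at h10
        have h11 : r % 2 = 1 := by omega
        obtain ⟨h12, _⟩ := hnodd (hMpar (hMo h11))
        rw [hsb, h9] at h12
        omega
    have hq1 : 1 ≤ q := by omega
    have h3 : s ≤ s * q := Nat.le_mul_of_pos_right s hq1
    refine ⟨by omega, ?_⟩
    have h4 : q ≤ (M - 2) / (2 * s) := by
      rw [Nat.le_div_iff_mul_le (by omega)]
      have : q * (2 * s) = 2 * (s * q) := by ring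
      omega
    omega

/-- upper bound for groups like `Z_2 × Z_M` -/
theorem upper_two {G : Type u} [AddCommGroup G] [DecidableEq G] [Fintype G] {B : Finset G}
    {s : ℕ} (hs : 3 ≤ s) (hB : Sym B) (hgen : AddSubgroup.closure (B : Set G) = ⊤)
    (hne : It B s ≠ univ) {u g : G} (hug : ∀ x : G, ∃ i j : ℤ, x = i • u + j • g)
    (huu : 2 • u = 0) :
    B.card ≤ vv (Fintype.card G) (AddMonoid.exponent G) s ∨
    (2 * s ∣ AddMonoid.exponent G ∧ s * B.card ≤ Fintype.card G) := by
  obtain ⟨Q, _, _, _, f, hf, hP⟩ := exists_prim hne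
  by_cases hc : IsAddCyclic Q
  · left
    exact card_le_vv_of_cyc hs hB hgen f hf hP hc
  · have hgenQ := closure_image f hf hgen
    obtain ⟨h1, h2, h3, h4⟩ := noncyc_bound hs (hB.image f) hgenQ hP hc
    have h5 := card_le_fib f B
    have h6 := card_eq_mul f hf
    have hod := od_pos f.ker
    have hugQ : ∀ x : Q, ∃ i j : ℤ, x = i • f u + j • f g := by
      intro x
      obtain ⟨y, rfl⟩ := hf x
      obtain ⟨i, j, rfl⟩ := hug y
      exact ⟨i, j, by rw [map_add, map_zsmul, map_zsmul]⟩
    have huuQ : 2 • f u = 0 := by rw [← map_nsmul, huu, map_zero]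
    obtain ⟨hcard, hevM⟩ := card_two_gen hugQ huuQ hc
    have hb4 := four_le hs (hB.image f) hgenQ hP hc
    have hdvdE : addOrderOf (f g) ∣ AddMonoid.exponent G :=
      (AddMonoid.addOrder_dvd_exponent (f g)).trans (exponent_dvd_of_surj f hf)
    rw [hcard] at h1 h2
    by_cases hdvd : 2 * s ∣ addOrderOf (f g)
    · right
      refine ⟨hdvd.trans hdvdE, ?_⟩
      rw [h6, hcard]
      have h7 : s * B.card ≤ s * (B.image f).card * od f.ker := by
        rw [mul_assoc]; exact Nat.mul_le_mul_left s h5
      exact h7.trans (Nat.mul_le_mul_right _ h1)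
    · left
      obtain ⟨h7, h8⟩ := num_two hs hevM h1 hb4 h2 hdvd
      have he : AddMonoid.exponent G ≠ 0 := AddMonoid.exponent_ne_zero_of_finite
      have h9 := le_vv (n := Fintype.card G) (s := s) he hdvdE h7
      have h10 : Fintype.card G / addOrderOf (f g) = 2 * od f.ker := by
        rw [h6, hcard]
        have : 2 * addOrderOf (f g) * od f.ker = addOrderOf (f g) * (2 * od f.ker) := by ring
        rw [this, Nat.mul_div_cancel_left _ (by omega)]
      rw [h10] at h9
      refine h5.trans ((Nat.mul_le_mul_right _ h8).trans (le_trans (le_of_eq ?_) h9))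
      ring

theorem five_le {Q : Type*} [AddCommGroup Q] [DecidableEq Q] [Fintype Q] {B : Finset Q}
    (hB : Sym B) (hgen : AddSubgroup.closure (B : Set Q) = ⊤)
    (hrank : ∀ x : Q, ∃ t : Q, 2 • t ∉ AddSubgroup.zmultiples x) : 5 ≤ B.card := by
  by_contra hcon
  push Not at hcon
  -- find x
  have key : ∃ x : Q, ∀ t ∈ B, 2 • t ∈ AddSubgroup.zmultiples x := by
    by_cases hall : ∀ t ∈ B, 2 • t = 0
    · exact ⟨0, fun t ht => by rw [hall t ht]; exact AddSubgroup.zero_mem _⟩
    · push Not at hall
      obtain ⟨x, hx, hx2⟩ := hall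
      refine ⟨x, ?_⟩
      intro t ht
      by_cases ht2 : 2 • t = 0
      · rw [ht2]; exact AddSubgroup.zero_mem _
      by_cases htx : t = x
      · rw [htx]; exact AddSubgroup.nsmul_mem_zmultiples x 2
      by_cases htx' : t = -x
      · rw [htx']
        exact AddSubgroup.nsmul_mem _ ((AddSubgroup.neg_mem_iff _).2 (AddSubgroup.mem_zmultiples x)) 2
      exfalso
      have hne : ∀ w : Q, 2 • w ≠ 0 → w ≠ -w := by
        intro w hw h
        apply hw
        rw [two_nsmul]
        nth_rewrite 2 [h]
        simp
      have h0 : ∀ w : Q, 2 • w ≠ 0 → (0 : Q) ≠ w := by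
        intro w hw h
        apply hw
        rw [← h, smul_zero]
      have hsub : ({0, x, -x, t, -t} : Finset Q) ⊆ B := by
        intro w hw
        simp only [mem_insert, mem_singleton] at hw
        rcases hw with rfl | rfl | rfl | rfl | rfl
        · exact hB.zero
        · exact hx
        · exact hB.neg x hx
        · exact ht
        · exact hB.neg t ht
      have hnx2 : 2 • (-x) ≠ 0 := by rwa [smul_neg, neg_ne_zero]
      have hnt2 : 2 • (-t) ≠ 0 := by rwa [smul_neg, neg_ne_zero]
      have hc5 : ({0, x, -x, t, -t} : Finset Q).card = 5 := by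
        rw [Finset.card_insert_of_notMem, Finset.card_insert_of_notMem,
          Finset.card_insert_of_notMem, Finset.card_pair (hne t ht2)]
        · simp only [mem_insert, mem_singleton]
          rintro (h | h)
          · exact htx' h.symm
          · exact htx (neg_injective h.symm)
        · simp only [mem_insert, mem_singleton]
          rintro (h | h | h)
          · exact hne x hx2 h
          · exact htx h.symm
          · exact htx' (by rw [h, neg_neg])
        · simp only [mem_insert, mem_singleton]
          rintro (h | h | h | h)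
          · exact h0 x hx2 h
          · exact h0 (-x) hnx2 h
          · exact h0 t ht2 h
          · exact h0 (-t) hnt2 h
      have := Finset.card_le_card hsub
      omega
  obtain ⟨x, hx⟩ := key
  obtain ⟨t, ht⟩ := hrank x
  apply ht
  have hle : AddSubgroup.closure (B : Set Q) ≤
      (AddSubgroup.zmultiples x).comap (nsmulAddMonoidHom 2) := by
    rw [AddSubgroup.closure_le]
    intro b hb
    exact hx b hb
  rw [hgen] at hle
  exact hle (AddSubgroup.mem_top t)

/-- upper bound for groups like `Z_3 × Z_M` -/
theorem upper_three {G : Type u} [AddCommGroup G] [DecidableEq G] [Fintype G] {B : Finset G}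
    {s : ℕ} (hs : 3 ≤ s) (hB : Sym B) (hgen : AddSubgroup.closure (B : Set G) = ⊤)
    (hne : It B s ≠ univ) {u g : G} (hug : ∀ x : G, ∃ i j : ℤ, x = i • u + j • g)
    (huu : 3 • u = 0) :
    B.card ≤ vv (Fintype.card G) (AddMonoid.exponent G) s ∨
    (∃ M : ℕ, M ∣ AddMonoid.exponent G ∧ 2 * s ≤ M ∧ (M % (2 * s) = 0 ∨ M % (2 * s) = 1) ∧
      B.card ≤ (6 * (M / (2 * s)) - 1) * (Fintype.card G / (3 * M))) := by
  obtain ⟨Q, _, _, _, f, hf, hP⟩ := exists_prim hne
  by_cases hc : IsAddCyclic Q
  · left
    exact card_le_vv_of_cyc hs hB hgen f hf hP hc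
  · have hgenQ := closure_image f hf hgen
    obtain ⟨h1, h2, h3, h4⟩ := noncyc_bound hs (hB.image f) hgenQ hP hc
    have h5 := card_le_fib f B
    have h6 := card_eq_mul f hf
    have hod := od_pos f.ker
    have hugQ : ∀ x : Q, ∃ i j : ℤ, x = i • f u + j • f g := by
      intro x
      obtain ⟨y, rfl⟩ := hf x
      obtain ⟨i, j, rfl⟩ := hug y
      exact ⟨i, j, by rw [map_add, map_zsmul, map_zsmul]⟩
    have huuQ : 3 • f u = 0 := by rw [← map_nsmul, huu, map_zero]
    obtain ⟨hcard, hM3, hu⟩ := card_three_gen hugQ huuQ hc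
    have hrank := rank_three huuQ hu hM3
    have hb5 := five_le (hB.image f) hgenQ hrank
    have hdvdE : addOrderOf (f g) ∣ AddMonoid.exponent G :=
      (AddMonoid.addOrder_dvd_exponent (f g)).trans (exponent_dvd_of_surj f hf)
    have hev : Even (B.image f).card → s * (B.image f).card + 2 * (s - 2) ≤ Fintype.card Q := by
      intro hev
      rcases h4 hev with h | h
      · exact h
      · exfalso
        obtain ⟨z, g', k, hz0, hzz, hk, hord, hzg, hcard'⟩ := h
        obtain ⟨t, ht⟩ := hrank g'
        apply ht
        -- the subgroup generated by g' has index two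
        let H := AddSubgroup.zmultiples g'
        have hzH : z ∉ H := by
          intro hz
          obtain ⟨m, hm⟩ := AddSubgroup.mem_zmultiples_iff.1 hz
          exact hzg m hm
        by_contra hcon
        have htH : t ∉ H := fun h => hcon (H.nsmul_mem h 2)
        have htt : t + t ∉ H := by rw [← two_nsmul]; exact hcon
        -- three disjoint cosets
        have hd1 : Disjoint (cos H 0) (cos H t) := by
          rw [Finset.disjoint_left]
          intro x hx hx'
          rw [mem_cos] at hx hx'
          apply htH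
          have : t = (x - 0) - (x - t) := by abel
          rw [this]
          exact H.sub_mem hx hx'
        have hd2 : Disjoint (cos H 0 ∪ cos H t) (cos H (t + t)) := by
          rw [Finset.disjoint_left]
          intro x hx hx'
          rw [Finset.mem_union, mem_cos, mem_cos] at hx
          rw [mem_cos] at hx'
          rcases hx with hx | hx
          · apply htt
            have : t + t = (x - 0) - (x - (t + t)) := by abel
            rw [this]
            exact H.sub_mem hx hx'
          · apply htH
            have : t = (x - t) - (x - (t + t)) := by abel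
            rw [this]
            exact H.sub_mem hx hx'
        have h7 := Finset.card_le_univ ((cos H 0 ∪ cos H t) ∪ cos H (t + t))
        rw [Finset.card_union_of_disjoint hd2, Finset.card_union_of_disjoint hd1, card_cos,
          card_cos, card_cos, od_zmultiples, hord, hcard'] at h7
        have : 0 < s * k := Nat.mul_pos (by omega) hk
        omega
    rw [hcard] at h1 h2 h3 hev
    have h10 : Fintype.card G / (3 * addOrderOf (f g)) = od f.ker := by
      rw [h6, hcard, Nat.mul_div_cancel_left _ (by
        have := addOrderOf_pos (f g)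
        omega)]
    rcases num_three hs h1 hb5 h2 h3 hev with ⟨h7, h8, h9⟩ | ⟨h7, h8⟩
    · right
      refine ⟨addOrderOf (f g), hdvdE, h7, h8, ?_⟩
      rw [h10]
      exact h5.trans (Nat.mul_le_mul_right _ h9)
    · left
      have he : AddMonoid.exponent G ≠ 0 := AddMonoid.exponent_ne_zero_of_finite
      have h9 := le_vv (n := Fintype.card G) (s := s) he hdvdE h7
      have h11 : Fintype.card G / addOrderOf (f g) = 3 * od f.ker := by
        rw [h6, hcard]
        have : 3 * addOrderOf (f g) * od f.ker = addOrderOf (f g) * (3 * od f.ker) := by ring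
        rw [this, Nat.mul_div_cancel_left _ (by omega)]
      rw [h11] at h9
      refine h5.trans ((Nat.mul_le_mul_right _ h8).trans (le_trans (le_of_eq ?_) h9))
      ring

end H99.SC
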