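import Pool.Agent.H99.SC.Lower
import Pool.Agent.H99.SC.UpperB

/-!
Signed sumsets and the critical number.
-/

open Finset
open scoped Pointwise

namespace H99.SC

set_option linter.unusedSectionVars false

variable {G : Type*} [AddCommGroup G] [DecidableEq G] [Fintype G]

/-- symmetrization -/
def sy (A : Finset G) : Finset G := A ∪ A.image (fun x => -x) ∪ {0}

theorem mem_sy {A : Finset G} {x : G} : x ∈ sy A ↔ x ∈ A ∨ -x ∈ A ∨ x = 0 := by
  unfold sy
  rw [Finset.mem_union, Finset.mem_union, Finset.mem_image, Finset.mem_singleton]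
  constructor
  · rintro ((h | ⟨a, ha, rfl⟩) | h)
    · left; exact h
    · right; left; simpa using ha
    · right; right; exact h
  · rintro (h | h | h)
    · left; left; exact h
    · left; right; exact ⟨-x, h, by simp⟩
    · right; exact h

theorem sym_sy (A : Finset G) : Sym (sy A) := by
  refine ⟨?_, ?_⟩
  · rw [mem_sy]; right; right; rfl
  · intro x hx
    rw [mem_sy] at hx ⊢
    rcases hx with h | h | h
    · right; left; simpa using h
    · left; exact h
    · right; right; rw [h]; simp

theorem zsmul_mem_It {B : Finset G} (hB : Sym B) {a : G} (ha : a ∈ B) (c : ℤ) :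
    c • a ∈ It B c.natAbs := by
  rcases Int.natAbs_eq c with h | h
  · have : c • a = c.natAbs • a := by
      conv_lhs => rw [h]
      rw [natCast_zsmul]
    rw [this]
    exact nsmul_mem_It ha _
  · have : c • a = -(c.natAbs • a) := by
      conv_lhs => rw [h]
      rw [neg_smul, natCast_zsmul]
    rw [this]
    exact (hB.It _).neg _ (nsmul_mem_It ha _)

theorem signedSpan_eq (A : Finset G) (s : ℕ) : signedSpan A s = (It (sy A) s : Set G) := by
  ext x
  constructor
  · rintro ⟨h, hs, c, hc, rfl⟩
    rw [Finset.mem_coe]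
    apply It_mono (sym_sy A).zero hs
    rw [← hc]
    have key : ∀ A' : Finset G, A' ⊆ A →
        ∑ a ∈ A', c a • a ∈ It (sy A) (∑ a ∈ A', (c a).natAbs) := by
      intro A'
      induction A' using Finset.induction_on with
      | empty => intro _; simp
      | insert a A' ha ih =>
        intro hsub
        rw [Finset.sum_insert ha, Finset.sum_insert ha, It_add]
        apply Finset.add_mem_add
        · apply zsmul_mem_It (sym_sy A)
          rw [mem_sy]; left; exact hsub (Finset.mem_insert_self a A')
        · exact ih (fun y hy => hsub (Finset.mem_insert_of_mem hy))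
    exact key A (Finset.Subset.refl A)
  · intro hx
    rw [Finset.mem_coe] at hx
    have key : ∀ j : ℕ, ∀ x ∈ It (sy A) j, ∃ c : G → ℤ, ∑ a ∈ A, (c a).natAbs ≤ j ∧
        x = ∑ a ∈ A, c a • a := by
      intro j
      induction j with
      | zero =>
        intro x hx
        rw [It_zero, Finset.mem_singleton] at hx
        exact ⟨fun _ => 0, by simp, by simp [hx]⟩
      | succ j ih =>
        intro x hx
        rw [It_succ, Finset.mem_add] at hx
        obtain ⟨y, hy, b, hb, rfl⟩ := hx
        obtain ⟨c, hc, rfl⟩ := ih y hy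
        have step : ∀ (a : G) (e : ℤ), a ∈ A → e.natAbs ≤ 1 →
            ∃ c' : G → ℤ, ∑ a ∈ A, (c' a).natAbs ≤ j + 1 ∧
              (∑ a ∈ A, c a • a) + e • a = ∑ a ∈ A, c' a • a := by
          intro a e ha he
          refine ⟨fun y => c y + (if y = a then e else 0), ?_, ?_⟩
          · have h1 : ∑ y ∈ A, (c y + (if y = a then e else 0)).natAbs ≤
                ∑ y ∈ A, ((c y).natAbs + (if y = a then e.natAbs else 0)) := by
              apply Finset.sum_le_sum
              intro y _
              split_ifs
              · exact Int.natAbs_add_le _ _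
              · simp
            rw [Finset.sum_add_distrib, Finset.sum_ite_eq' A a, if_pos ha] at h1
            refine h1.trans ?_
            omega
          · simp only [add_smul, ite_smul, zero_smul]
            rw [Finset.sum_add_distrib, Finset.sum_ite_eq' A a, if_pos ha]
        rw [mem_sy] at hb
        rcases hb with h | h | h
        · obtain ⟨c', h1, h2⟩ := step b 1 h (by simp)
          exact ⟨c', h1, by rw [← h2, one_smul]⟩
        · obtain ⟨c', h1, h2⟩ := step (-b) (-1) h (by simp)
          exact ⟨c', h1, by rw [← h2, neg_smul, one_smul, neg_neg]⟩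
        · exact ⟨c, by omega, by rw [h, add_zero]⟩
    obtain ⟨c, hc, rfl⟩ := key s x hx
    exact ⟨_, hc, c, rfl, rfl⟩

theorem adm_sy {A : Finset G} {s : ℕ} (hA : AddSubgroup.closure (A : Set G) = ⊤)
    (hne : signedSpan A s ≠ Set.univ) : Adm s (sy A) := by
  refine ⟨sym_sy A, ?_, ?_⟩
  · rw [eq_top_iff, ← hA]
    apply AddSubgroup.closure_mono
    intro x hx
    rw [Finset.mem_coe, mem_sy]
    left; exact hx
  · intro h
    apply hne
    rw [signedSpan_eq, h, Finset.coe_univ]

theorem card_le_sy (A : Finset G) : A.card ≤ (sy A).card := by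
  apply Finset.card_le_card
  intro x hx
  rw [mem_sy]; left; exact hx

theorem sy_eq {B : Finset G} (hB : Sym B) : sy B = B := by
  ext x
  rw [mem_sy]
  constructor
  · rintro (h | h | h)
    · exact h
    · exact (hB.neg_iff x).1 h
    · rw [h]; exact hB.zero
  · intro h; left; exact h

theorem chi_le {s T : ℕ} (hU : ∀ B : Finset G, Adm s B → B.card ≤ T) : chi G s ≤ T + 1 := by
  apply Nat.sInf_le
  refine ⟨by omega, ?_⟩
  intro A hA hcard
  by_contra hne
  have h1 := hU _ (adm_sy hA hne)
  have h2 := card_le_sy A
  omega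

theorem chi_set_nonempty (s : ℕ) : {m : ℕ | 1 ≤ m ∧ ∀ A : Finset G,
    AddSubgroup.closure (A : Set G) = ⊤ → m ≤ A.card → signedSpan A s = Set.univ}.Nonempty := by
  refine ⟨Fintype.card G + 1, by omega, ?_⟩
  intro A _ hcard
  have := Finset.card_le_univ A
  omega

theorem one_le_chi (s : ℕ) : 1 ≤ chi G s :=
  (Nat.sInf_mem (chi_set_nonempty (G := G) s)).1

theorem lt_chi {s : ℕ} {B : Finset G} (hB : Adm s B) : B.card + 1 ≤ chi G s := by
  have h := Nat.sInf_mem (chi_set_nonempty (G := G) s)
  by_contra hcon
  have h2 : chi G s ≤ B.card := by omega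
  have h3 := h.2 B hB.gen h2
  rw [signedSpan_eq, sy_eq hB.sym] at h3
  apply hB.ne
  apply Finset.coe_injective
  rw [h3, Finset.coe_univ]

theorem vv_lt_chi {s : ℕ} (hs : 1 ≤ s) :
    vv (Fintype.card G) (AddMonoid.exponent G) s + 1 ≤ chi G s := by
  have h1 := one_le_chi (G := G) s
  have h2 : vv (Fintype.card G) (AddMonoid.exponent G) s ≤ chi G s - 1 := by
    unfold vv
    apply Finset.sup_le
    intro d hd
    rw [Finset.mem_filter, Nat.mem_divisors] at hd
    obtain ⟨B, hB, hcard⟩ := lower_cyc (G := G) hs hd.1.1 hd.2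
    have := lt_chi hB
    omega
  omega

end H99.SC
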