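import Mathlib

/-!
Signed sumsets in an abelian group, the generating signed critical number, and the maximum over
cyclic quotients of Klopsch and Lev.
-/

namespace H99.SC

/-- the `h`-fold signed sumset of `A`: the sums `∑ c(a) a` with `∑ |c(a)| = h` -/
def signedSum {G : Type*} [AddCommGroup G] (A : Finset G) (h : ℕ) : Set G :=
  {x | ∃ c : G → ℤ, ∑ a ∈ A, (c a).natAbs = h ∧ x = ∑ a ∈ A, c a • a}

/-- `[0,s]_± A`: the union of the `h`-fold signed sumsets of `A`, `0 ≤ h ≤ s` -/
def signedSpan {G : Type*} [AddCommGroup G] (A : Finset G) (s : ℕ) : Set G :=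
  {x | ∃ h ≤ s, x ∈ signedSum A h}

/-- the generating signed critical number: the least `m ≥ 1` such that `[0,s]_± A = G` for every
generating set `A` with at least `m` elements -/
noncomputable def chi (G : Type*) [AddCommGroup G] (s : ℕ) : ℕ :=
  sInf {m : ℕ | 1 ≤ m ∧ ∀ A : Finset G, AddSubgroup.closure (A : Set G) = ⊤ → m ≤ A.card →
    signedSpan A s = Set.univ}

/-- the maximum of `(2 ⌊(d-2)/(2s)⌋ + 1) n / d` over the divisors `d ≥ 2 s + 2` of `e`
(zero if there are none) -/
def vv (n e s : ℕ) : ℕ :=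
  (e.divisors.filter (fun d => 2 * s + 2 ≤ d)).sup
    (fun d => (2 * ((d - 2) / (2 * s)) + 1) * (n / d))

end H99.SC
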