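import Pool.Agent.H99.SC.Prog

/-!
Sets of even cardinality: preparations.
-/

open Finset
open scoped Pointwise

namespace H99.SC

set_option linter.unusedSectionVars false

variable {G : Type*} [AddCommGroup G] [DecidableEq G] [Fintype G]
variable {Q : Type*} [AddCommGroup Q] [DecidableEq Q] [Fintype Q]

/-- the part of `B` stable under the involution `z` -/
def Dz (B : Finset G) (z : G) : Finset G := B.filter (fun x => x + z ∈ B)

theorem mem_Dz {B : Finset G} {z x : G} : x ∈ Dz B z ↔ x ∈ B ∧ x + z ∈ B := by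
  unfold Dz
  rw [Finset.mem_filter]

theorem Dz_per {B : Finset G} {z : G} (hzz : z + z = 0) : Per (Dz B z) z := by
  intro x hx
  rw [mem_Dz] at hx ⊢
  exact ⟨hx.2, by rw [add_assoc, hzz, add_zero]; exact hx.1⟩

theorem neg_eq_of_add {z : G} (hzz : z + z = 0) : -z = z := by
  rw [neg_eq_iff_add_eq_zero]; exact hzz

theorem Dz_sym {B : Finset G} {z : G} (hB : Sym B) (hzB : z ∈ B) (hzz : z + z = 0) :
    Sym (Dz B z) := by
  refine ⟨?_, ?_⟩
  · rw [mem_Dz]; exact ⟨hB.zero, by rw [zero_add]; exact hzB⟩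
  · intro x hx
    rw [mem_Dz] at hx ⊢
    refine ⟨hB.neg x hx.1, ?_⟩
    have : -x + z = -(x + z) := by rw [neg_add, neg_eq_of_add hzz]
    rw [this]
    exact hB.neg _ hx.2

theorem Dz_subset {B : Finset G} {z : G} : Dz B z ⊆ B := Finset.filter_subset _ _

theorem half_fib {B : Finset G} {z : G} (hzz : z + z = 0) (f : G →+ Q) (hfz : f z = 0) {q : Q}
    (hq : q ∉ (Dz B z).image f) : 2 * (fib f B q).card ≤ od f.ker := by
  rcases Finset.eq_empty_or_nonempty (fib f B q) with h | ⟨x, hx⟩
  · rw [h]; simp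
  · have hd : Disjoint (fib f B q) (tr z (fib f B q)) := by
      rw [Finset.disjoint_left]
      intro y hy hy'
      rw [mem_tr, mem_fib] at hy'
      rw [mem_fib] at hy
      apply hq
      rw [Finset.mem_image]
      refine ⟨y, ?_, hy.2⟩
      rw [mem_Dz]
      refine ⟨hy.1, ?_⟩
      have : y + z = y - z := by rw [sub_eq_add_neg, neg_eq_of_add hzz]
      rw [this]; exact hy'.1
    have hfx := (mem_fib.1 hx).2
    have hsub : fib f B q ∪ tr z (fib f B q) ⊆ cos f.ker x := by
      apply Finset.union_subset (fib_subset_cos hfx)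
      intro y hy
      rw [mem_tr, mem_fib] at hy
      rw [mem_cos, AddMonoidHom.mem_ker, map_sub, hfx]
      have := hy.2
      rw [map_sub, hfz, sub_zero] at this
      rw [this, sub_self]
    have h1 := Finset.card_le_card hsub
    rw [Finset.card_union_of_disjoint hd, card_tr, card_cos] at h1
    omega

theorem sum_bnd (B' D' : Finset Q) (hDB : D' ⊆ B') (h : ℕ) :
    ∑ q ∈ B', (if q ∈ D' then 2 * h else h) = (B'.card + D'.card) * h := by
  rw [← Finset.sum_sdiff hDB]
  have h1 : ∀ q ∈ B' \ D', (if q ∈ D' then 2 * h else h) = h := by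
    intro q hq
    rw [Finset.mem_sdiff] at hq
    rw [if_neg hq.2]
  have h2 : ∀ q ∈ D', (if q ∈ D' then 2 * h else h) = 2 * h := by
    intro q hq
    rw [if_pos hq]
  rw [Finset.sum_congr rfl h1, Finset.sum_congr rfl h2, Finset.sum_const, Finset.sum_const,
    smul_eq_mul, smul_eq_mul]
  have h3 := Finset.card_sdiff_add_card_eq_card hDB
  rw [← h3]; ring

theorem fib_le_bnd {B : Finset G} {z : G} (hzz : z + z = 0) (f : G →+ Q) (hfz : f z = 0) (q : Q) :
    2 * (fib f B q).card ≤ (if q ∈ (Dz B z).image f then 2 * od f.ker else od f.ker) := by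
  split_ifs with hq
  · have := card_fib_le f B q
    omega
  · exact half_fib hzz f hfz hq

theorem two_card_le {B : Finset G} {z : G} (hzz : z + z = 0) (f : G →+ Q) (hfz : f z = 0) :
    2 * B.card ≤ ((B.image f).card + ((Dz B z).image f).card) * od f.ker := by
  rw [← sum_bnd _ _ (Finset.image_subset_image Dz_subset), card_eq_sum_fib f B, Finset.mul_sum]
  exact Finset.sum_le_sum (fun q _ => fib_le_bnd hzz f hfz q)

theorem tight {B : Finset G} {z : G} (hzz : z + z = 0) (f : G →+ Q) (hfz : f z = 0)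
    (heq : 2 * B.card = ((B.image f).card + ((Dz B z).image f).card) * od f.ker) :
    ∀ q ∈ B.image f,
      2 * (fib f B q).card = (if q ∈ (Dz B z).image f then 2 * od f.ker else od f.ker) := by
  rw [← sum_bnd _ _ (Finset.image_subset_image Dz_subset), card_eq_sum_fib f B,
    Finset.mul_sum] at heq
  exact (Finset.sum_eq_sum_iff_of_le (fun q _ => fib_le_bnd hzz f hfz q)).1 heq

theorem beta_delta {B' D' : Finset Q} {s : ℕ} (hs : 2 ≤ s) (hB : Sym B') (hD : Sym D')
    (hDB : D' ⊆ B') (hfull : It B' s = univ) (hne : It B' (s - 1) + D' ≠ univ) :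
    D'.card + 2 ≤ B'.card := by
  by_contra hcon
  apply hne
  have hcard := Finset.card_sdiff_add_card_eq_card hDB
  have h1 : (B' \ D').card ≤ 1 := by omega
  rw [Finset.card_le_one] at h1
  have hinv : ∀ b ∈ B' \ D', b + b = 0 := by
    intro b hb
    have hnb : -b ∈ B' \ D' := by
      rw [Finset.mem_sdiff] at hb ⊢
      exact ⟨hB.neg b hb.1, fun h => hb.2 ((hD.neg_iff b).1 h)⟩
    have := h1 b hb (-b) hnb
    nth_rewrite 2 [this]
    simp
  apply Finset.eq_univ_of_forall
  intro y
  have hy : y ∈ It B' s := by rw [hfull]; exact mem_univ y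
  obtain ⟨r, rfl⟩ : ∃ r, s = r + 2 := ⟨s - 2, by omega⟩
  have hr : r + 2 - 1 = r + 1 := rfl
  rw [hr]
  rw [show r + 2 = (r + 1) + 1 by rfl, It_succ, Finset.mem_add] at hy
  obtain ⟨u, hu, b, hb, rfl⟩ := hy
  by_cases hbD : b ∈ D'
  · exact Finset.add_mem_add hu hbD
  · rw [It_succ, Finset.mem_add] at hu
    obtain ⟨u', hu', b', hb', rfl⟩ := hu
    by_cases hbD' : b' ∈ D'
    · rw [Finset.mem_add]
      refine ⟨u' + b, ?_, b', hbD', by abel⟩
      rw [It_succ]
      exact Finset.add_mem_add hu' hb
    · have hbm : b ∈ B' \ D' := Finset.mem_sdiff.2 ⟨hb, hbD⟩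
      have hbm' : b' ∈ B' \ D' := Finset.mem_sdiff.2 ⟨hb', hbD'⟩
      have hbb : b' = b := h1 b' hbm' b hbm
      rw [hbb, add_assoc, hinv b hbm]
      exact Finset.add_mem_add (It_subset_succ hB.zero r hu') hD.zero

theorem four_le_of_not_AP {B' : Finset Q} (hB : Sym B')
    (hgen : AddSubgroup.closure (B' : Set Q) = ⊤) (hne : It B' 2 ≠ univ) (hnAP : ¬ AP B')
    (h3 : 3 ≤ B'.card) : 4 ≤ B'.card := by
  by_contra hcon
  have hc : B'.card = 3 := by omega
  have hc2 : (B'.erase 0).card = 2 := by
    rw [Finset.card_erase_of_mem hB.zero, hc]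
  obtain ⟨x, y, hxy, hxy'⟩ := Finset.card_eq_two.1 hc2
  have hBeq : ∀ w, w ∈ B' ↔ w = 0 ∨ w = x ∨ w = y := by
    intro w
    by_cases hw : w = 0
    · rw [hw]; simp [hB.zero]
    · have : w ∈ B'.erase 0 ↔ w ∈ B' := by rw [Finset.mem_erase]; simp [hw]
      rw [← this, hxy']; simp [hw]
  have hx0 : x ≠ 0 := by
    have : x ∈ B'.erase 0 := by rw [hxy']; simp
    exact (Finset.mem_erase.1 this).1
  have hy0 : y ≠ 0 := by
    have : y ∈ B'.erase 0 := by rw [hxy']; simp
    exact (Finset.mem_erase.1 this).1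
  have hnx := (hBeq (-x)).1 (hB.neg x ((hBeq x).2 (by simp)))
  rcases hnx with h | h | h
  · exact hx0 (by simpa using h)
  · have hny := (hBeq (-y)).1 (hB.neg y ((hBeq y).2 (by simp)))
    rcases hny with h' | h' | h'
    · exact hy0 (by simpa using h')
    · exact hxy (by rw [← h, ← h']; simp)
    · -- both involutions
      have hxx : x + x = 0 := by nth_rewrite 2 [← h]; simp
      have hyy : y + y = 0 := by nth_rewrite 2 [← h']; simp
      apply hne
      apply eq_univ_of_add hB hgen ⟨0, zero_mem_It hB.zero 2⟩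
      intro w hw
      rw [It_two] at hw ⊢
      rw [Finset.mem_add] at hw
      obtain ⟨u, hu, c, hc, rfl⟩ := hw
      rw [Finset.mem_add] at hu
      obtain ⟨a, ha, b, hb, rfl⟩ := hu
      rw [Finset.mem_add]
      have e0 := hB.zero
      have hinv : ∀ u ∈ B', u + u = 0 := by
        intro u hu
        rcases (hBeq u).1 hu with rfl | rfl | rfl
        · simp
        · exact hxx
        · exact hyy
      by_cases hab : a = b
      · exact ⟨0, e0, c, hc, by rw [hab, hinv b hb]⟩
      by_cases hac : a = c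
      · refine ⟨0, e0, b, hb, ?_⟩
        rw [← hac]
        have : a + b + a = (a + a) + b := by abel
        rw [this, hinv a ha]
      by_cases hbc : b = c
      · refine ⟨0, e0, a, ha, ?_⟩
        rw [← hbc, add_assoc, hinv b hb]; abel
      by_cases ha0 : a = 0
      · exact ⟨b, hb, c, hc, by rw [ha0]; abel⟩
      by_cases hb0 : b = 0
      · exact ⟨a, ha, c, hc, by rw [hb0]; abel⟩
      by_cases hc0 : c = 0
      · exact ⟨a, ha, b, hb, by rw [hc0]; abel⟩
      exfalso
      have pa := (hBeq a).1 ha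
      have pb := (hBeq b).1 hb
      have pc := (hBeq c).1 hc
      simp only [ha0, hb0, hc0, false_or] at pa pb pc
      rcases pa with pa | pa <;> rcases pb with pb | pb <;> rcases pc with pc | pc
      · exact hab (pa.trans pb.symm)
      · exact hab (pa.trans pb.symm)
      · exact hac (pa.trans pc.symm)
      · exact hbc (pb.trans pc.symm)
      · exact hbc (pb.trans pc.symm)
      · exact hac (pa.trans pc.symm)
      · exact hab (pa.trans pb.symm)
      · exact hab (pa.trans pb.symm)
  · apply hnAP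
    refine ⟨x, 1, ?_, by omega⟩
    ext w
    rw [hBeq, Finset.mem_image]
    constructor
    · rintro (rfl | rfl | rfl)
      · exact ⟨0, by simp, by simp⟩
      · exact ⟨1, by simp, by simp⟩
      · exact ⟨-1, by simp, by simpa using h⟩
    · rintro ⟨j, hj, rfl⟩
      rw [Finset.mem_Icc] at hj
      have : j = -1 ∨ j = 0 ∨ j = 1 := by push_cast at hj; omega
      rcases this with rfl | rfl | rfl
      · right; right; simpa using h
      · left; simp
      · right; left; simp

theorem nsmul_mem_It {B : Finset G} {a : G} (ha : a ∈ B) (m : ℕ) : m • a ∈ It B m := by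
  induction m with
  | zero => simp
  | succ m ih =>
    rw [succ_nsmul, It_succ]
    exact Finset.add_mem_add ih ha

end H99.SC
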