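import Pool.Agent.H99.SC.EvenA

/-!
Sets of even cardinality: the main case distinction.
-/

open Finset
open scoped Pointwise

namespace H99.SC

set_option linter.unusedSectionVars false

/-- numerical part, first case -/
theorem num_a {s β δ h n' b : ℕ} (hs : 3 ≤ s) (hβ : δ + 2 ≤ β) (hh : 2 ≤ h)
    (h1 : (s - 1) * β + δ ≤ n') (h2 : 2 * b ≤ (β + δ) * h) :
    s * b + 2 * (s - 2) ≤ n' * h := by
  obtain ⟨t, rfl⟩ : ∃ t, s = t + 2 := ⟨s - 2, by omega⟩
  obtain ⟨c, rfl⟩ := Nat.exists_eq_add_of_le hβ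
  have e1 : t + 2 - 1 = t + 1 := rfl
  have e2 : t + 2 - 2 = t := rfl
  rw [e1] at h1
  rw [e2]
  have h3 := Nat.mul_le_mul_right (2 * h) h1
  have h4 := Nat.mul_le_mul_left (t + 2) h2
  have h5 : t * 4 ≤ t * ((2 + c) * h) := Nat.mul_le_mul_left t (by nlinarith)
  have h6 : ((t + 1) * (δ + 2 + c) + δ) * (2 * h)
      = (t + 2) * ((δ + 2 + c + δ) * h) + t * ((2 + c) * h) := by ring
  have h7 : (t + 2) * (2 * b) = 2 * ((t + 2) * b) := by ring
  have h8 : n' * (2 * h) = 2 * (n' * h) := by ring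
  rw [h6, h8] at h3
  rw [h7] at h4
  omega

/-- numerical part, second case -/
theorem num_b {s β h n' b : ℕ} (hs : 3 ≤ s) (hβ : 4 ≤ β) (hh : 2 ≤ h)
    (h1 : (s - 1) * β ≤ n') (h2 : 2 * b ≤ (β + 1) * h) (hb : Even b) (hn : Even (n' * h)) :
    s * b + 2 * (s - 2) ≤ n' * h := by
  obtain ⟨t, rfl⟩ : ∃ t, s = t + 3 := ⟨s - 3, by omega⟩
  obtain ⟨c, rfl⟩ := Nat.exists_eq_add_of_le hβ
  have e1 : t + 3 - 1 = t + 2 := rfl
  have e2 : t + 3 - 2 = t + 1 := rfl
  rw [e1] at h1
  rw [e2]
  have h3 := Nat.mul_le_mul_right (2 * h) h1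
  have h4 := Nat.mul_le_mul_left (t + 3) h2
  have h6 : ((t + 2) * (4 + c)) * (2 * h)
      = (t + 3) * ((4 + c + 1) * h) + (3 * t + 1 + (t + 1) * c) * h := by ring
  have h7 : (t + 3) * (2 * b) = 2 * ((t + 3) * b) := by ring
  have h8 : n' * (2 * h) = 2 * (n' * h) := by ring
  rw [h6, h8] at h3
  rw [h7] at h4
  have h9 : (3 * t + 1) * 2 ≤ (3 * t + 1 + (t + 1) * c) * h := by
    apply Nat.mul_le_mul _ hh
    omega
  -- 2 n ≥ 2 s b + 2 (3 t + 1)
  have h10 : (t + 3) * b + (3 * t + 1) ≤ n' * h := by omega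
  rcases Nat.eq_zero_or_pos t with h0 | h0
  · subst h0
    obtain ⟨r, hr⟩ := hb
    obtain ⟨q, hq⟩ := hn
    have : (0 + 3) * b = 3 * b := by ring
    rw [this] at h10 ⊢
    omega
  · omega

variable {G : Type*} [AddCommGroup G] [DecidableEq G] [Fintype G]
variable {Q : Type*} [AddCommGroup Q] [DecidableEq Q] [Fintype Q]

/-- the case where the image is not a progression -/
theorem even_nonAP {B : Finset G} {s : ℕ} (hs : 3 ≤ s) {z : G}
    (hzz : z + z = 0) (f : G →+ Q) (hf : Function.Surjective f) (hfz : f z = 0)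
    (hh : 2 ≤ od f.ker) (hev : Even B.card) (hevG : Even (Fintype.card G))
    (hBs : Sym (B.image f)) (hgen : AddSubgroup.closure ((B.image f : Finset Q) : Set Q) = ⊤)
    (hA : Aper (B.image f)) (hnAP : ¬ AP (B.image f))
    (hDs : Sym ((Dz B z).image f))
    (hbd : ((Dz B z).image f).card + 2 ≤ (B.image f).card)
    (hD : It (B.image f) (s - 1) + (Dz B z).image f ≠ univ) :
    s * B.card + 2 * (s - 2) ≤ Fintype.card G := by
  set B' := B.image f with hB'
  set D' := (Dz B z).image f with hD'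
  have h2 := two_card_le (B := B) hzz f hfz
  rw [← hB', ← hD'] at h2
  have hδ : 0 < D'.card := Finset.card_pos.2 ⟨0, hDs.zero⟩
  obtain ⟨x, hx⟩ := exists_not_mem_of_ne_univ hD
  have hcard := card_add_card_le hx
  have hne1 : It B' (s - 1) ≠ univ := by
    intro h
    apply hx
    rw [h]
    have := subset_add_right' (X := (univ : Finset Q)) hDs.zero (mem_univ x)
    exact this
  have hg := growth (s := s - 1) hBs hgen hA hne1 hnAP (j := s - 2) (by omega) (by omega)
  have hc2 := card_It_add_card_It hne1 (i := s - 2) (j := 1) (by omega) hBs.zero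
  rw [It_one] at hc2
  have hsplit : (s - 1) * B'.card = (s - 2) * B'.card + B'.card := by
    conv_lhs => rw [show s - 1 = (s - 2) + 1 by omega]
    rw [add_mul, one_mul]
  rw [card_eq_mul f hf] at hevG ⊢
  by_cases hbig : (It B' (s - 1)).card + 2 ≤ Fintype.card Q
  · -- last growth step
    have hB2 := two_le_card_of_not_AP hBs hnAP
    have h3 := card_le_It hBs.zero (j := s - 2) (by omega)
    have hstep : (It B' (s - 2)).card + B'.card ≤ (It B' (s - 1)).card := by
      have e : s - 1 = (s - 2) + 1 := by omega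
      rw [e, It_succ] at hbig ⊢
      exact vosper hBs hgen hA hnAP (by omega) hbig
    exact num_a hs hbd hh (by omega) h2
  · have hδ1 : D'.card = 1 := by omega
    have h4 : 4 ≤ B'.card := by
      apply four_le_of_not_AP hBs hgen _ hnAP (by omega)
      intro h
      apply hne1
      apply Finset.eq_univ_of_forall
      intro w
      have : w ∈ It B' 2 := by rw [h]; exact mem_univ w
      exact It_mono hBs.zero (by omega) this
    rw [hδ1] at h2
    exact num_b hs h4 hh (by omega) h2 hev hevG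

end H99.SC
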