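import Pool.Agent.H99.SC.EvenB

/-!
Sets of even cardinality whose image is a progression.
-/

open Finset
open scoped Pointwise

namespace H99.SC

set_option linter.unusedSectionVars false

theorem num_c {s k l δ h n' b : ℕ} (hs : 3 ≤ s) (hh : 2 ≤ h)
    (hn : 2 * (s * k) + 2 * l + 2 ≤ n' + 2 * k) (hδ : δ ≤ 2 * l + 1) (hl : l + 2 ≤ k)
    (h2 : 2 * b ≤ (2 * k + 1 + δ) * h) : s * b + 2 * (s - 2) ≤ n' * h := by
  obtain ⟨t, rfl⟩ : ∃ t, s = t + 2 := ⟨s - 2, by omega⟩
  obtain ⟨c, rfl⟩ := Nat.exists_eq_add_of_le hl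
  have e2 : t + 2 - 2 = t := rfl
  rw [e2]
  have hn' : 2 * ((t + 2) * (l + 2 + c)) + 2 * l + 2 ≤ n' + 2 * (l + 2 + c) := hn
  have hn2 : 2 * (t * (l + 2 + c)) + 4 * (l + 2 + c) + 2 * l + 2 ≤ n' + 2 * (l + 2 + c) := by
    have : 2 * ((t + 2) * (l + 2 + c)) = 2 * (t * (l + 2 + c)) + 4 * (l + 2 + c) := by ring
    omega
  have hn3 : 2 * (t * (l + 2 + c)) + 4 * l + 2 * c + 6 ≤ n' := by omega
  have h3 := Nat.mul_le_mul_right (2 * h) hn3
  have h2' : 2 * b ≤ (2 * (l + 2 + c) + 1 + (2 * l + 1)) * h :=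
    h2.trans (Nat.mul_le_mul_right h (by omega))
  have h4 := Nat.mul_le_mul_left (t + 2) h2'
  have h5 : t * 4 ≤ t * ((2 + 2 * c) * h) := Nat.mul_le_mul_left t (by nlinarith)
  have h6 : (2 * (t * (l + 2 + c)) + 4 * l + 2 * c + 6) * (2 * h)
      = (t + 2) * ((2 * (l + 2 + c) + 1 + (2 * l + 1)) * h) + t * ((2 + 2 * c) * h) := by
    ring
  have h7 : (t + 2) * (2 * b) = 2 * ((t + 2) * b) := by ring
  have h8 : n' * (2 * h) = 2 * (n' * h) := by ring
  rw [h6, h8] at h3
  rw [h7] at h4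
  omega

theorem num_d {s k h n' b : ℕ} (hs : 3 ≤ s) (hh : 2 ≤ h)
    (hn : 2 * (s * k) ≤ n') (h2 : 2 * b + 2 * h ≤ 4 * (k * h)) :
    s * b + 2 * (s - 2) ≤ n' * h := by
  have h3 := Nat.mul_le_mul_right h hn
  have h4 := Nat.mul_le_mul_left s h2
  have h5 : s * (2 * b + 2 * h) = 2 * (s * b) + 2 * (s * h) := by ring
  have h6 : s * (4 * (k * h)) = 2 * (2 * (s * k) * h) := by ring
  have h7 : s * 2 ≤ s * h := Nat.mul_le_mul_left s hh
  omega

theorem num_e {s k h n' b : ℕ} (hs : 3 ≤ s)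
    (hn : 2 * (s * k) ≤ n') (h2 : b + 2 ≤ 2 * (k * h)) :
    s * b + 2 * (s - 2) ≤ n' * h := by
  have h3 := Nat.mul_le_mul_right h hn
  have h4 := Nat.mul_le_mul_left s h2
  have h5 : s * (b + 2) = s * b + 2 * s := by ring
  have h6 : s * (2 * (k * h)) = 2 * (s * k) * h := by ring
  omega

variable {G : Type*} [AddCommGroup G] [DecidableEq G] [Fintype G]
variable {Q : Type*} [AddCommGroup Q] [DecidableEq Q] [Fintype Q]

/-- injectivity of `j ↦ j • d` on `[-k, k]` -/
theorem inj_of_card {d : Q} {k : ℕ} (h : (apS d k).card = 2 * k + 1) {i j : ℤ}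
    (hi : -(k : ℤ) ≤ i ∧ i ≤ k) (hj : -(k : ℤ) ≤ j ∧ j ≤ k) (hij : i • d = j • d) : i = j := by
  have h1 : ((Finset.Icc (-(k : ℤ)) k).image (fun j => j • d)).card
      = (Finset.Icc (-(k : ℤ)) k).card := by
    rw [Int.card_Icc]
    unfold apS at h
    omega
  have h2 := Finset.card_image_iff.1 h1
  exact h2 (Finset.mem_coe.2 (Finset.mem_Icc.2 hi)) (Finset.mem_coe.2 (Finset.mem_Icc.2 hj)) hij

/-- structure of `D'` -/
theorem exists_l {D' : Finset Q} {d : Q} {k : ℕ} (hD : Sym D') (hsub : D' ⊆ apS d k) :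
    ∃ l ≤ k, (l : ℤ) • d ∈ D' ∧ D' ⊆ apS d l := by
  classical
  have h0 : ((0 : ℕ) : ℤ) • d ∈ D' := by simpa using hD.zero
  refine ⟨Nat.findGreatest (fun j : ℕ => (j : ℤ) • d ∈ D') k, Nat.findGreatest_le k, ?_, ?_⟩
  · exact Nat.findGreatest_spec (P := fun j : ℕ => (j : ℤ) • d ∈ D') (Nat.zero_le k) h0
  · intro x hx
    have hx' := hsub hx
    rw [mem_apS] at hx' ⊢
    obtain ⟨j, h1, h2, rfl⟩ := hx'
    have h3 : ((j.natAbs : ℕ) : ℤ) • d ∈ D' := by
      rcases Int.natAbs_eq j with h | h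
      · rw [← h]; exact hx
      · have : ((j.natAbs : ℕ) : ℤ) = -j := by omega
        rw [this, neg_smul]
        exact hD.neg _ hx
    have h4 : j.natAbs ≤ Nat.findGreatest (fun j : ℕ => (j : ℤ) • d ∈ D') k :=
      Nat.le_findGreatest (P := fun j : ℕ => (j : ℤ) • d ∈ D') (by omega) h3
    exact ⟨j, by omega, by omega, rfl⟩

theorem add_superset {D' : Finset Q} {d : Q} {m l : ℕ} (hD : Sym D') (hlm : l ≤ m)
    (hl : (l : ℤ) • d ∈ D') : apS d (m + l) ⊆ apS d m + D' := by
  intro x hx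
  rw [mem_apS] at hx
  obtain ⟨j, h1, h2, rfl⟩ := hx
  push_cast at h1 h2
  rw [Finset.mem_add]
  by_cases h3 : j ≤ m
  · by_cases h4 : -(m : ℤ) ≤ j
    · exact ⟨j • d, mem_apS.2 ⟨j, h4, h3, rfl⟩, 0, hD.zero, by simp⟩
    · refine ⟨(j + l) • d, mem_apS.2 ⟨j + l, by omega, by omega, rfl⟩, -((l : ℤ) • d),
        hD.neg _ hl, ?_⟩
      rw [add_smul]; abel
  · refine ⟨(j - l) • d, mem_apS.2 ⟨j - l, by omega, by omega, rfl⟩, (l : ℤ) • d, hl, ?_⟩
    rw [sub_smul]; abel

/-- the tight case: all fibres are as large as possible -/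
theorem tight_case {B : Finset G} {s : ℕ} (hs : 3 ≤ s) {z : G} (hz0 : z ≠ 0)
    (hzz : z + z = 0) (f : G →+ Q) (hf : Function.Surjective f) (hfz : f z = 0)
    (hB : Sym B) (hP : Prim B s) {d : Q} {k : ℕ} (hk : 1 ≤ k)
    (hap : B.image f = apS d k)
    (hgenQ : ∀ x : Q, ∃ j : ℤ, j • d = x)
    (hDeq : (Dz B z).image f = apS d (k - 1))
    (hn1 : 2 * (s * k) ≤ Fintype.card Q) (hn2 : Fintype.card Q ≤ 2 * (s * k) + 1)
    (hfib1 : ∀ j : ℤ, -((k : ℤ) - 1) ≤ j → j ≤ k - 1 → (fib f B (j • d)).card = od f.ker)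
    (hfib2 : 2 * (fib f B ((k : ℤ) • d)).card = od f.ker) (hBc : B.card = 2 * (k * od f.ker)) :
    (∃ (g : G) (k : ℕ), 1 ≤ k ∧ addOrderOf g = 2 * (s * k) ∧ (∀ m : ℤ, m • g ≠ z) ∧
      Fintype.card G = 4 * (s * k) ∧ B.card = 4 * k) ∨
    (∃ (g : G) (k : ℕ), Fintype.card G = 2 * (2 * (s * k) + 1) ∧ B.card = 4 * k ∧
      ∀ x : G, ∃ m : ℤ, m • g = x) := by
  classical
  set F := fib f B ((k : ℤ) • d) with hFdef
  have hodpos := od_pos f.ker
  obtain ⟨a0, ha0⟩ : F.Nonempty := Finset.card_pos.1 (by omega)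
  have ha0' := mem_fib.1 ha0
  -- full fibres
  have hfull : ∀ x : G, (∃ j : ℤ, -((k : ℤ) - 1) ≤ j ∧ j ≤ k - 1 ∧ j • d = f x) → x ∈ B := by
    rintro x ⟨j, hj1, hj2, hj3⟩
    have h1 := hfib1 j hj1 hj2
    rw [hj3] at h1
    have h2 : fib f B (f x) = cos f.ker x := by
      apply Finset.eq_of_subset_of_card_le (fib_subset_cos rfl)
      rw [card_cos, h1]
    have h3 : x ∈ fib f B (f x) := by rw [h2]; exact self_mem_cos _ _
    exact (mem_fib.1 h3).1
  have hskpos : 1 ≤ s * k := Nat.mul_pos (by omega) hk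
  -- claim 1
  have claim1 : ∀ x : G, (∃ j : ℤ, -((s * k : ℕ) : ℤ) < j ∧ j < ((s * k : ℕ) : ℤ) ∧
      j • d = f x) → x ∈ It B s := by
    rintro x ⟨j, hj1, hj2, hj3⟩
    have h1 : f x ∈ apS d ((s - 1) * k + (k - 1)) := by
      rw [mem_apS]
      have e : (s - 1) * k + (k - 1) = s * k - 1 := by
        have : s * k = (s - 1) * k + k := by
          conv_lhs => rw [show s = (s - 1) + 1 by omega]
          rw [add_mul, one_mul]
        omega
      rw [e]
      exact ⟨j, by omega, by omega, hj3⟩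
    rw [← apS_add, Finset.mem_add] at h1
    obtain ⟨u, hu, v, hv, huv⟩ := h1
    rw [← It_apS, ← hap, ← image_It, Finset.mem_image] at hu
    obtain ⟨y, hy, rfl⟩ := hu
    rw [mem_apS] at hv
    obtain ⟨i, hi1, hi2, hi3⟩ := hv
    have h2 : x - y ∈ B := by
      apply hfull
      refine ⟨i, by omega, by omega, ?_⟩
      rw [hi3, map_sub, ← huv]; abel
    have h3 : x = y + (x - y) := by abel
    rw [h3]
    have e : s = (s - 1) + 1 := by omega
    rw [e, It_succ]
    exact Finset.add_mem_add hy h2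
  -- covering lemma
  have hcover : (∀ x : G, f x = ((s * k : ℕ) : ℤ) • d → x ∈ It B s) → False := by
    intro hx
    apply hP.ne
    apply Finset.eq_univ_of_forall
    intro x
    obtain ⟨j, hj1, hj2, hj3⟩ := exists_balanced hgenQ (M := s * k) hn2 (f x)
    by_cases h1 : j = ((s * k : ℕ) : ℤ)
    · exact hx x (by rw [← hj3, h1])
    · by_cases h2 : j = -((s * k : ℕ) : ℤ)
      · have h3 := hx (-x) (by rw [map_neg, ← hj3, h2, neg_smul, neg_neg])
        exact ((hB.It s).neg_iff x).1 h3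
      · exact claim1 x ⟨j, by omega, by omega, hj3⟩
  -- the set `A' = F - a0`
  set A := tr (-a0) F with hAdef
  have hmemA : ∀ x, x ∈ A ↔ x + a0 ∈ F := by
    intro x; rw [hAdef, mem_tr, sub_neg_eq_add]
  have hA0 : (0 : G) ∈ A := by rw [hmemA, zero_add]; exact ha0
  have hAcard : A.card = F.card := card_tr _ _
  have hAker : A ⊆ cos f.ker 0 := by
    intro x hx
    rw [hmemA, mem_fib] at hx
    rw [mem_cos, sub_zero, AddMonoidHom.mem_ker]
    have := hx.2
    rw [map_add, ha0'.2] at this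
    exact left_eq_add.1 (by rw [add_comm] at this; exact this.symm)
  have hAAker : A + A ⊆ cos f.ker 0 := by
    intro x hx
    rw [Finset.mem_add] at hx
    obtain ⟨a, ha, b, hb, rfl⟩ := hx
    have h1 := hAker ha
    have h2 := hAker hb
    rw [mem_cos, sub_zero] at h1 h2 ⊢
    exact f.ker.add_mem h1 h2
  have hAA : A + A = A := by
    by_contra hne
    have hsub : A ⊆ A + A := subset_add_right' hA0
    have hlt : A.card < (A + A).card :=
      Finset.card_lt_card (Finset.ssubset_iff_subset_ne.2 ⟨hsub, fun h => hne h.symm⟩)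
    apply hcover
    intro x hx
    have ht : x - s • a0 ∈ (A + A) + A := by
      apply pigeon hAAker hAker (by omega)
      rw [sub_zero, sub_zero, AddMonoidHom.mem_ker, map_sub, map_nsmul, ha0'.2, hx]
      rw [← natCast_zsmul, smul_smul]; push_cast; simp
    rw [Finset.mem_add] at ht
    obtain ⟨w, hw, a3, h3, hw3⟩ := ht
    rw [Finset.mem_add] at hw
    obtain ⟨a1, h1, a2, h2, rfl⟩ := hw
    rw [hmemA] at h1 h2 h3
    have e : x = (s - 3) • a0 + (a1 + a0) + (a2 + a0) + (a3 + a0) := by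
      have e1 : s • a0 = (s - 3) • a0 + 3 • a0 := by
        rw [← add_nsmul]; congr 1; omega
      have e2 : x = s • a0 + (x - s • a0) := by abel
      rw [e2, ← hw3, e1]
      abel
    rw [e]
    have e4 : s = (s - 3) + 1 + 1 + 1 := by omega
    have : (s - 3) • a0 + (a1 + a0) + (a2 + a0) + (a3 + a0) ∈ It B ((s - 3) + 1 + 1 + 1) := by
      rw [It_succ, It_succ, It_succ]
      exact Finset.add_mem_add (Finset.add_mem_add (Finset.add_mem_add
        (nsmul_mem_It ha0'.1 _) (mem_fib.1 h1).1) (mem_fib.1 h2).1) (mem_fib.1 h3).1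
    rwa [← e4] at this
  have hAper : ∀ l ∈ A, Per A l := by
    intro l hl x hx
    rw [← hAA]
    exact Finset.add_mem_add hx hl
  have hA1 : ∀ l ∈ A, l = 0 := by
    intro l hl
    by_contra hl0
    apply hP.not_per (i := 1) (by omega) hl0
    rw [It_one]
    intro b hb
    have hlker : f l = 0 := by
      have := hAker hl
      rw [mem_cos, sub_zero, AddMonoidHom.mem_ker] at this
      exact this
    have hfb : f b ∈ apS d k := by rw [← hap]; exact Finset.mem_image_of_mem f hb
    rw [mem_apS] at hfb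
    obtain ⟨j, hj1, hj2, hj3⟩ := hfb
    by_cases hjk : j = k
    · have h1 : b - a0 ∈ A := by
        rw [hmemA, sub_add_cancel, mem_fib]
        exact ⟨hb, by rw [← hj3, hjk]⟩
      have h2 := hAper l hl _ h1
      rw [hmemA, mem_fib] at h2
      have e : b - a0 + l + a0 = b + l := by abel
      rw [e] at h2
      exact h2.1
    · by_cases hjk' : j = -k
      · have h1 : -b - a0 ∈ A := by
          rw [hmemA, sub_add_cancel, mem_fib]
          exact ⟨hB.neg b hb, by rw [map_neg, ← hj3, hjk', neg_smul, neg_neg]⟩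
        have hnl : -l ∈ stab A := (stab A).neg_mem (hAper l hl)
        have h2 := hnl _ h1
        rw [hmemA, mem_fib] at h2
        have e : -b - a0 + -l + a0 = -(b + l) := by abel
        rw [e] at h2
        exact (hB.neg_iff _).1 h2.1
      · apply hfull
        exact ⟨j, by omega, by omega, by rw [map_add, hlker, add_zero, hj3]⟩
  have hFone : F.card = 1 := by
    rw [← hAcard]
    rw [Finset.card_eq_one]
    refine ⟨0, ?_⟩
    ext x
    rw [Finset.mem_singleton]
    exact ⟨hA1 x, fun h => by rw [h]; exact hA0⟩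
  have hh2 : od f.ker = 2 := by omega
  have hker : ∀ t : G, f t = 0 → t = 0 ∨ t = z := by
    intro t ht
    have h1 : ({0, z} : Finset G) = cos f.ker 0 := by
      apply Finset.eq_of_subset_of_card_le
      · intro w hw
        simp only [mem_insert, mem_singleton] at hw
        rw [mem_cos, sub_zero, AddMonoidHom.mem_ker]
        rcases hw with rfl | rfl
        · simp
        · exact hfz
      · rw [card_cos, hh2, Finset.card_pair (fun h => hz0 h.symm)]
    have h2 : t ∈ cos f.ker 0 := by rw [mem_cos, sub_zero, AddMonoidHom.mem_ker]; exact ht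
    rw [← h1] at h2
    simpa using h2
  have hGc := card_eq_mul f hf
  rw [hh2] at hGc hBc
  obtain ⟨g, hg⟩ := hf d
  by_cases hcase : Fintype.card Q = 2 * (s * k)
  · left
    have hord : addOrderOf d = 2 * (s * k) := by rw [addOrderOf_of_gen hgenQ, hcase]
    have hgz : (2 * (s * k)) • g = 0 := by
      have h1 : f ((2 * (s * k)) • g) = 0 := by
        rw [map_nsmul, hg, ← hord, addOrderOf_nsmul_eq_zero]
      rcases hker _ h1 with h | h
      · exact h
      · exfalso
        apply hcover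
        intro x hx
        have hsa : s • a0 ∈ It B s := nsmul_mem_It ha0'.1 s
        have h2 : f (x - s • a0) = 0 := by
          rw [map_sub, map_nsmul, ha0'.2, hx, ← natCast_zsmul, smul_smul]
          push_cast; simp
        rcases hker _ h2 with h3 | h3
        · have : x = s • a0 := sub_eq_zero.1 h3
          rw [this]; exact hsa
        · have h4 : f (a0 - k • g) = 0 := by
            rw [map_sub, map_nsmul, ha0'.2, hg, natCast_zsmul, sub_self]
          have h5 : (2 : ℕ) • (a0 - k • g) = 0 := by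
            rcases hker _ h4 with h6 | h6
            · rw [h6]; simp
            · rw [h6, two_nsmul]; exact hzz
          have h6 : (2 * s) • a0 = z := by
            have e : a0 = k • g + (a0 - k • g) := by abel
            rw [e, nsmul_add, mul_comm 2 s, mul_nsmul' (a0 - k • g) s 2, h5, nsmul_zero, add_zero,
              smul_smul, ← h]
            congr 1; ring
          have h7 : x = -(s • a0) := by
            have e : x = s • a0 + (x - s • a0) := by abel
            rw [e, h3, ← neg_eq_of_add hzz, ← h6, mul_nsmul', two_nsmul]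
            abel
          rw [h7]
          exact (hB.It s).neg _ hsa
    have hordg : addOrderOf g = 2 * (s * k) := by
      apply Nat.dvd_antisymm
      · exact addOrderOf_dvd_of_nsmul_eq_zero hgz
      · rw [← hord, ← hg]
        exact addOrderOf_map_dvd f g
    refine ⟨g, k, hk, hordg, ?_, by omega, by omega⟩
    intro m hm
    have h1 : m • d = 0 := by rw [← hg, ← map_zsmul, hm, hfz]
    have h2 : ((addOrderOf d : ℕ) : ℤ) ∣ m := addOrderOf_dvd_iff_zsmul_eq_zero.2 h1
    have h3 : m • g = 0 := by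
      rw [← addOrderOf_dvd_iff_zsmul_eq_zero, hordg, ← hord]
      exact h2
    rw [h3] at hm
    exact hz0 hm.symm
  · right
    have hcase' : Fintype.card Q = 2 * (s * k) + 1 := by omega
    have hord : addOrderOf d = 2 * (s * k) + 1 := by rw [addOrderOf_of_gen hgenQ, hcase']
    obtain ⟨g0, hg0, hg0z⟩ : ∃ g0 : G, f g0 = d ∧ (2 * (s * k) + 1) • g0 = z := by
      have h1 : f ((2 * (s * k) + 1) • g) = 0 := by
        rw [map_nsmul, hg, ← hord, addOrderOf_nsmul_eq_zero]
      rcases hker _ h1 with h | h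
      · refine ⟨g + z, by rw [map_add, hfz, add_zero, hg], ?_⟩
        rw [nsmul_add, h, zero_add, succ_nsmul, mul_comm, mul_nsmul', two_nsmul, hzz, nsmul_zero,
          zero_add]
      · exact ⟨g, hg, h⟩
    refine ⟨g0, k, by omega, by omega, ?_⟩
    intro x
    obtain ⟨j, hj⟩ := hgenQ (f x)
    have h1 : f (x - j • g0) = 0 := by rw [map_sub, map_zsmul, hg0, hj, sub_self]
    rcases hker _ h1 with h | h
    · exact ⟨j, (sub_eq_zero.1 h).symm⟩
    · refine ⟨j + ((2 * (s * k) + 1 : ℕ) : ℤ), ?_⟩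
      rw [add_smul, natCast_zsmul, hg0z, ← h]; abel

end H99.SC
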