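import Pool.Agent.H99.SC.EvenC

/-!
Sets of even cardinality: the final statement.
-/

open Finset
open scoped Pointwise

namespace H99.SC

set_option linter.unusedSectionVars false

variable {G : Type*} [AddCommGroup G] [DecidableEq G] [Fintype G]
variable {Q : Type*} [AddCommGroup Q] [DecidableEq Q] [Fintype Q]

/-- the two exceptional situations -/
def Exc (G : Type*) [AddCommGroup G] [Fintype G] (s b : ℕ) : Prop :=
  (∃ (z g : G) (k : ℕ), z ≠ 0 ∧ z + z = 0 ∧ 1 ≤ k ∧ addOrderOf g = 2 * (s * k) ∧
    (∀ m : ℤ, m • g ≠ z) ∧ Fintype.card G = 4 * (s * k) ∧ b = 4 * k) ∨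
  (∃ (g : G) (k : ℕ), Fintype.card G = 2 * (2 * (s * k) + 1) ∧ b = 4 * k ∧
    ∀ x : G, ∃ m : ℤ, m • g = x)

theorem even_AP {B : Finset G} {s : ℕ} (hs : 3 ≤ s) {z : G} (hz0 : z ≠ 0)
    (hzz : z + z = 0) (hzB : z ∈ B) (f : G →+ Q) (hf : Function.Surjective f) (hfz : f z = 0)
    (hB : Sym B) (hP : Prim B s) (hev : Even B.card) {d : Q} {k : ℕ}
    (hap : B.image f = apS d k) (hcard : (B.image f).card = 2 * k + 1)
    (hgenQ : ∀ x : Q, ∃ j : ℤ, j • d = x) (hfull : It (B.image f) s = univ)
    (hbd : ((Dz B z).image f).card + 2 ≤ (B.image f).card)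
    (hD : It (B.image f) (s - 1) + (Dz B z).image f ≠ univ) :
    (s * B.card + 2 * (s - 2) ≤ Fintype.card G) ∨ Exc G s B.card := by
  have h2 := two_card_le (B := B) hzz f hfz
  have hDs : Sym ((Dz B z).image f) := (Dz_sym hB hzB hzz).image f
  have hDB : (Dz B z).image f ⊆ B.image f := Finset.image_subset_image Dz_subset
  have hDB' : (Dz B z).image f ⊆ apS d k := by rw [← hap]; exact hDB
  obtain ⟨l, hlk, hl, hDl⟩ := exists_l hDs hDB'
  have hcard' : (apS d k).card = 2 * k + 1 := by rw [← hap]; exact hcard
  -- od ≥ 2
  have hh : 2 ≤ od f.ker := by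
    have h1 : ({0, z} : Finset G) ⊆ cos f.ker 0 := by
      intro w hw
      simp only [mem_insert, mem_singleton] at hw
      rw [mem_cos, sub_zero, AddMonoidHom.mem_ker]
      rcases hw with rfl | rfl
      · simp
      · exact hfz
    have h3 := Finset.card_le_card h1
    rw [Finset.card_pair (fun h => hz0 h.symm), card_cos] at h3
    exact h3
  have hk : 1 ≤ k := by
    have : 0 < ((Dz B z).image f).card := Finset.card_pos.2 ⟨0, hDs.zero⟩
    omega
  have hsk : s * k = (s - 1) * k + k := by
    conv_lhs => rw [show s = (s - 1) + 1 by omega]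
    rw [add_mul, one_mul]
  have hsk1 : k ≤ (s - 1) * k := Nat.le_mul_of_pos_left k (by omega)
  have hn1 : 2 * ((s - 1) * k + l) + 1 < Fintype.card Q := by
    by_contra hcon
    push Not at hcon
    apply hD
    have h3 := apS_eq_univ hgenQ hcon
    rw [hap, It_apS]
    apply Finset.eq_univ_of_forall
    intro x
    apply add_superset hDs (by omega) hl
    rw [h3]; exact mem_univ x
  have hn2 : Fintype.card Q ≤ 2 * (s * k) + 1 := by
    rw [hap, It_apS] at hfull
    have := card_apS_le d (s * k)
    rw [hfull, Finset.card_univ] at this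
    exact this
  have hδ : ((Dz B z).image f).card ≤ 2 * l + 1 :=
    (Finset.card_le_card hDl).trans (card_apS_le d l)
  rw [hcard] at h2
  by_cases hl2 : l + 2 ≤ k
  · left
    rw [card_eq_mul f hf]
    exact num_c hs hh (n' := Fintype.card Q) (by omega) hδ hl2 h2
  · have hlk1 : l + 1 = k := by omega
    have hn1' : 2 * (s * k) ≤ Fintype.card Q := by omega
    by_cases hDeq : (Dz B z).image f = apS d (k - 1)
    · -- tight or not
      have hδ2 : ((Dz B z).image f).card ≤ 2 * k - 1 := by omega
      have h3 : 2 * B.card ≤ 4 * (k * od f.ker) := by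
        refine h2.trans ?_
        have : (2 * k + 1 + ((Dz B z).image f).card) * od f.ker ≤ (4 * k) * od f.ker :=
          Nat.mul_le_mul_right _ (by omega)
        refine this.trans (le_of_eq (by ring))
      by_cases hb : B.card + 2 ≤ 2 * (k * od f.ker)
      · left
        rw [card_eq_mul f hf]
        exact num_e hs hn1' hb
      · have hBc : B.card = 2 * (k * od f.ker) := by
          obtain ⟨r, hr⟩ := hev
          omega
        have hδ3 : ((Dz B z).image f).card = 2 * k - 1 := by
          by_contra hcon
          have h4 : (2 * k + 1 + ((Dz B z).image f).card) * od f.ker ≤ (4 * k - 1) * od f.ker :=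
            Nat.mul_le_mul_right _ (by omega)
          have h5 : (4 * k - 1) * od f.ker + od f.ker = 4 * (k * od f.ker) := by
            have : (4 * k - 1) * od f.ker + od f.ker = ((4 * k - 1) + 1) * od f.ker := by ring
            rw [this, Nat.sub_add_cancel (by omega)]; ring
          omega
        have heq : 2 * B.card = ((B.image f).card + ((Dz B z).image f).card) * od f.ker := by
          rw [hcard, hδ3, hBc]
          have : 2 * k + 1 + (2 * k - 1) = 4 * k := by omega
          rw [this]; ring
        have ht := tight hzz f hfz heq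
        have hfib1 : ∀ j : ℤ, -((k : ℤ) - 1) ≤ j → j ≤ k - 1 →
            (fib f B (j • d)).card = od f.ker := by
          intro j hj1 hj2
          have hm : j • d ∈ apS d (k - 1) := mem_apS.2 ⟨j, by omega, by omega, rfl⟩
          have h6 := ht (j • d) (by rw [hap]; exact apS_mono (by omega) hm)
          rw [hDeq, if_pos hm] at h6
          omega
        have hfib2 : 2 * (fib f B ((k : ℤ) • d)).card = od f.ker := by
          have h6 := ht ((k : ℤ) • d) (by rw [hap]; exact mem_apS.2 ⟨k, by omega, by omega, rfl⟩)
          rw [hDeq, if_neg] at h6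
          · exact h6
          · intro hm
            rw [mem_apS] at hm
            obtain ⟨j, hj1, hj2, hj3⟩ := hm
            have := inj_of_card hcard' (i := j) (j := k) ⟨by omega, by omega⟩
              ⟨by omega, by omega⟩ hj3
            omega
        rcases tight_case hs hz0 hzz f hf hfz hB hP hk hap hgenQ hDeq hn1' hn2 hfib1 hfib2 hBc with
          ⟨g, k', h1, h2, h3, h4, h5⟩ | h
        · right; left
          exact ⟨z, g, k', hz0, hzz, h1, h2, h3, h4, h5⟩
        · right; right; exact h
    · -- one more pair is missing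
      left
      have hsub : (Dz B z).image f ⊆ apS d (k - 1) := by
        refine hDl.trans (apS_mono (by omega))
      obtain ⟨x, hx, hxD⟩ : ∃ x ∈ apS d (k - 1), x ∉ (Dz B z).image f := by
        by_contra hcon
        push Not at hcon
        exact hDeq (Finset.Subset.antisymm hsub hcon)
      have hnx : -x ∈ apS d (k - 1) := (sym_apS d (k - 1)).neg x hx
      have hnxD : -x ∉ (Dz B z).image f := fun h => hxD ((hDs.neg_iff x).1 h)
      have hxne : x ≠ -x := by
        intro h
        rw [mem_apS] at hx
        obtain ⟨j, hj1, hj2, rfl⟩ := hx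
        rw [← neg_smul] at h
        have hj := inj_of_card hcard' (i := j) (j := -j) ⟨by omega, by omega⟩
          ⟨by omega, by omega⟩ h
        have : j = 0 := by omega
        apply hxD
        rw [this, zero_smul]
        exact hDs.zero
      have h5 : insert x (insert (-x) ((Dz B z).image f)) ⊆ apS d (k - 1) := by
        intro w hw
        simp only [mem_insert] at hw
        rcases hw with rfl | rfl | hw
        · exact hx
        · exact hnx
        · exact hsub hw
      have h6 := Finset.card_le_card h5
      rw [Finset.card_insert_of_notMem, Finset.card_insert_of_notMem hnxD] at h6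
      · have h7 := card_apS_le d (k - 1)
        have h8 : 2 * B.card + 2 * od f.ker ≤ 4 * (k * od f.ker) := by
          have h9 : (2 * k + 1 + ((Dz B z).image f).card) * od f.ker ≤ (4 * k - 2) * od f.ker :=
            Nat.mul_le_mul_right _ (by omega)
          have h10 : (4 * k - 2) * od f.ker + 2 * od f.ker = 4 * (k * od f.ker) := by
            rw [← add_mul, Nat.sub_add_cancel (by omega)]; ring
          omega
        rw [card_eq_mul f hf]
        exact num_d hs hh hn1' h8
      · intro h
        rw [Finset.mem_insert] at h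
        rcases h with h | h
        · exact hxne h
        · exact hxD h

theorem even_core {B : Finset G} {s : ℕ} (hs : 3 ≤ s) {z : G} (hz0 : z ≠ 0)
    (hzz : z + z = 0) (hzB : z ∈ B) (f : G →+ Q) (hf : Function.Surjective f) (hfz : f z = 0)
    (hB : Sym B) (hgen : AddSubgroup.closure (B : Set G) = ⊤) (hP : Prim B s) (hev : Even B.card)
    (hA : Aper (B.image f)) (hD : It (B.image f) (s - 1) + (Dz B z).image f ≠ univ) :
    (s * B.card + 2 * (s - 2) ≤ Fintype.card G) ∨ Exc G s B.card := by
  have hDs : Sym ((Dz B z).image f) := (Dz_sym hB hzB hzz).image f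
  have hBs : Sym (B.image f) := hB.image f
  have hDB : (Dz B z).image f ⊆ B.image f := Finset.image_subset_image Dz_subset
  have hgenQ := closure_image f hf hgen
  have hfull : It (B.image f) s = univ := by
    apply Finset.eq_univ_of_forall
    intro q
    obtain ⟨x, rfl⟩ := hf q
    have hne : f.ker ≠ ⊥ := by
      intro h
      have : z ∈ f.ker := hfz
      rw [h, AddSubgroup.mem_bot] at this
      exact hz0 this
    obtain ⟨y, hy, hxy⟩ := hP.full _ hne x
    rw [AddMonoidHom.mem_ker, map_sub, sub_eq_zero] at hxy
    rw [hxy, ← image_It]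
    exact Finset.mem_image_of_mem f hy
  have hbd := beta_delta (by omega) hBs hDs hDB hfull hD
  by_cases hAP : AP (B.image f)
  · obtain ⟨d, k, h1, h2⟩ := hAP
    exact even_AP hs hz0 hzz hzB f hf hfz hB hP hev h1 h2
      (fun x => zsmul_of_closure h1 hgenQ x) hfull hbd hD
  · left
    have hh : 2 ≤ od f.ker := by
      have h1 : ({0, z} : Finset G) ⊆ cos f.ker 0 := by
        intro w hw
        simp only [mem_insert, mem_singleton] at hw
        rw [mem_cos, sub_zero, AddMonoidHom.mem_ker]
        rcases hw with rfl | rfl
        · simp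
        · exact hfz
      have h3 := Finset.card_le_card h1
      rw [Finset.card_pair (fun h => hz0 h.symm), card_cos] at h3
      exact h3
    have hevG : Even (Fintype.card G) := by
      have h1 : addOrderOf z = 2 := by
        apply addOrderOf_eq_prime
        · rw [two_nsmul]; exact hzz
        · exact hz0
      have h2 := addOrderOf_dvd_card (x := z)
      rw [h1] at h2
      exact (even_iff_two_dvd).2 h2
    exact even_nonAP hs hzz f hf hfz hh hev hevG hBs hgenQ hA hAP hDs hbd hD

theorem even_case {B : Finset G} {s : ℕ} (hs : 3 ≤ s) (hB : Sym B)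
    (hgen : AddSubgroup.closure (B : Set G) = ⊤) (hP : Prim B s) (hev : Even B.card) :
    (s * B.card + 2 * (s - 2) ≤ Fintype.card G) ∨ Exc G s B.card := by
  classical
  have hpos : 0 < B.card := Finset.card_pos.2 ⟨0, hB.zero⟩
  obtain ⟨z, hzB, _, hz0, hzz⟩ := exists_invol (Y := {0}) hB ⟨by simp, by simp⟩
    (by intro x hx; rw [Finset.mem_singleton] at hx; rw [hx]; exact hB.zero) (by
      rw [Finset.card_singleton]
      obtain ⟨r, hr⟩ := hev
      exact ⟨r - 1, by omega⟩)
  set E := It B (s - 1) + Dz B z with hE
  have hEsub : E ⊆ It B s := by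
    have e : s = (s - 1) + 1 := by omega
    rw [hE]
    conv_rhs => rw [e]
    rw [It_succ]
    exact Finset.add_subset_add_left Dz_subset
  have hEper : Per E z := by
    rw [hE, add_comm]
    exact (Dz_per hzz).add_set _
  obtain ⟨x0, hx0⟩ := exists_not_mem_of_ne_univ hP.ne
  have hx0E : x0 ∉ E := fun h => hx0 (hEsub h)
  -- the family of subgroups
  let S : Set (AddSubgroup G) := {H | z ∈ H ∧ ∃ x, ∀ y ∈ E, x - y ∉ H}
  have hSne : S.Nonempty := by
    refine ⟨stab E, hEper, x0, ?_⟩
    intro y hy hxy
    apply hx0E
    have := hxy y hy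
    simpa using this
  obtain ⟨H, hH⟩ := (Set.toFinite S).exists_maximal hSne
  have hHS : H ∈ S := hH.prop
  obtain ⟨hzH, x1, hx1⟩ := hHS
  let i1 : DecidableEq (G ⧸ H) := Classical.decEq _
  let i2 : Fintype (G ⧸ H) := Fintype.ofFinite _
  let f : G →+ G ⧸ H := QuotientAddGroup.mk' H
  have hf : Function.Surjective f := QuotientAddGroup.mk'_surjective H
  have hfker : ∀ x, f x = 0 ↔ x ∈ H := fun x => QuotientAddGroup.eq_zero_iff x
  have hfz : f z = 0 := (hfker z).2 hzH
  have hEimg : E.image f = It (B.image f) (s - 1) + (Dz B z).image f := by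
    rw [hE, Finset.image_add, image_It]
  have hD : It (B.image f) (s - 1) + (Dz B z).image f ≠ univ := by
    intro h
    rw [← hEimg] at h
    have h1 : f x1 ∈ E.image f := by rw [h]; exact mem_univ _
    rw [Finset.mem_image] at h1
    obtain ⟨y, hy, hxy⟩ := h1
    apply hx1 y hy
    rw [← hfker, map_sub, hxy, sub_self]
  have hA : Aper (B.image f) := by
    intro g hg hper
    rw [← It_two] at hper
    have h1 : Per (It (B.image f) (s - 1) + (Dz B z).image f) g :=
      (It_per (by omega : 2 ≤ s - 1) hper).add_set _
    rw [← hEimg] at h1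
    have hmem : (stab (E.image f)).comap f ∈ S := by
      refine ⟨?_, ?_⟩
      · rw [AddSubgroup.mem_comap, hfz]; exact (stab (E.image f)).zero_mem
      · obtain ⟨q, hq⟩ := exists_not_mem_of_ne_univ hD
        rw [← hEimg] at hq
        obtain ⟨x, rfl⟩ := hf q
        refine ⟨x, ?_⟩
        intro y hy hxy
        rw [AddSubgroup.mem_comap, map_sub] at hxy
        apply hq
        have := hxy (f y) (Finset.mem_image_of_mem f hy)
        simpa using this
    have hle : H ≤ (stab (E.image f)).comap f := by
      intro x hx
      rw [AddSubgroup.mem_comap, (hfker x).2 hx]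
      exact (stab (E.image f)).zero_mem
    have h2 := hH.le_of_ge hmem hle
    obtain ⟨x, rfl⟩ := hf g
    apply hg
    rw [hfker]
    apply h2
    rw [AddSubgroup.mem_comap]
    exact h1
  exact even_core hs hz0 hzz hzB f hf hfz hB hgen hP hev hA hD

/-- in a cyclic group the first exceptional situation is impossible -/
theorem even_cyclic {B : Finset G} {s : ℕ} (hs : 3 ≤ s) (hB : Sym B)
    (hgen : AddSubgroup.closure (B : Set G) = ⊤) (hP : Prim B s) (hev : Even B.card)
    (hc : IsAddCyclic G) : s * B.card < Fintype.card G := by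
  rcases even_case hs hB hgen hP hev with h | h | h
  · omega
  · exfalso
    obtain ⟨z, g, k, hz0, hzz, hk, hord, hzg, hn, hb⟩ := h
    have h1 := IsAddCyclic.card_nsmul_eq_zero_le (α := G) (n := 2) (by norm_num)
    have hskpos : 1 ≤ s * k := Nat.mul_pos (by omega) hk
    have h2 : ({0, z, (s * k) • g} : Finset G) ⊆ univ.filter (fun a : G => 2 • a = 0) := by
      intro w hw
      simp only [mem_insert, mem_singleton] at hw
      rw [Finset.mem_filter]
      refine ⟨mem_univ _, ?_⟩
      rcases hw with rfl | rfl | rfl
      · simp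
      · rw [two_nsmul]; exact hzz
      · rw [smul_smul, ← hord]; exact addOrderOf_nsmul_eq_zero g
    have h3 := Finset.card_le_card h2
    have h4 : ({0, z, (s * k) • g} : Finset G).card = 3 := by
      rw [Finset.card_eq_three]
      refine ⟨0, z, (s * k) • g, fun h => hz0 h.symm, ?_, ?_, rfl⟩
      · intro h
        have := addOrderOf_dvd_of_nsmul_eq_zero h.symm
        rw [hord] at this
        have := Nat.le_of_dvd (by omega) this
        omega
      · intro h
        exact hzg ((s * k : ℕ) : ℤ) (by rw [natCast_zsmul]; exact h.symm)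
    omega
  · obtain ⟨g, k, hn, hb, _⟩ := h
    rw [hn, hb]
    have : s * (4 * k) = 4 * (s * k) := by ring
    omega

end H99.SC
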