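import Pool.Agent.H99.SC.Kappa

/-!
Growth of the iterated sumsets of a primitive set which is not an arithmetic progression.
-/

open Finset
open scoped Pointwise

namespace H99.SC

set_option linter.unusedSectionVars false

variable {G : Type*} [AddCommGroup G] [DecidableEq G] [Fintype G]

/-- primitive sets: `sB` is not everything, but `sB + P` is, for every nonzero subgroup `P` -/
structure Prim (B : Finset G) (s : ℕ) : Prop where
  ne : It B s ≠ univ
  full : ∀ P : AddSubgroup G, P ≠ ⊥ → ∀ x, ∃ y ∈ It B s, x - y ∈ P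

theorem Prim.not_per {B : Finset G} {s : ℕ} (h : Prim B s) {i : ℕ} (hi : i ≤ s) {g : G}
    (hg : g ≠ 0) : ¬ Per (It B i) g := by
  intro hper
  have h1 := It_per hi hper
  have h2 : stab (It B s) ≠ ⊥ := by
    intro hb
    have : g ∈ stab (It B s) := h1
    rw [hb, AddSubgroup.mem_bot] at this
    exact hg this
  apply h.ne
  apply Finset.eq_univ_of_forall
  intro x
  obtain ⟨y, hy, hxy⟩ := h.full _ h2 x
  have := hxy y hy
  simpa using this

theorem Prim.aper {B : Finset G} {s : ℕ} (h : Prim B s) (hs : 2 ≤ s) : Aper B := by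
  intro g hg
  rw [← It_two]
  exact h.not_per hs hg

theorem card_It_add_card_It {B : Finset G} {s : ℕ} (h : It B s ≠ univ) {i j : ℕ}
    (hij : i + j ≤ s) (h0 : (0 : G) ∈ B) :
    (It B i).card + (It B j).card ≤ Fintype.card G := by
  obtain ⟨x, hx⟩ := exists_not_mem_of_ne_univ h
  apply card_add_card_le (x := x)
  intro hc
  apply hx
  rw [← It_add] at hc
  exact It_mono h0 hij hc

theorem two_le_card_of_not_AP {B : Finset G} (hB : Sym B) (hnAP : ¬ AP B) : 2 ≤ B.card := by
  by_contra hcon
  apply hnAP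
  have h1 : B.card = 1 := by
    have : 0 < B.card := Finset.card_pos.2 ⟨0, hB.zero⟩
    omega
  obtain ⟨a, ha⟩ := Finset.card_eq_one.1 h1
  have h0 := hB.zero
  rw [ha, Finset.mem_singleton] at h0
  refine ⟨0, 0, ?_, ?_⟩
  · rw [ha, ← h0]; simp
  · rw [h1]

theorem card_le_It {B : Finset G} (h0 : (0 : G) ∈ B) {j : ℕ} (hj : 1 ≤ j) :
    B.card ≤ (It B j).card := by
  have := It_mono h0 hj
  rw [It_one] at this
  exact Finset.card_le_card this

/-- the basic growth step -/
theorem growth_step {B : Finset G} {s : ℕ} (hB : Sym B)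
    (hgen : AddSubgroup.closure (B : Set G) = ⊤) (hA : Aper B) (hne : It B s ≠ univ)
    (hnAP : ¬ AP B) {j : ℕ} (hj : 1 ≤ j) (hjs : j + 2 ≤ s) :
    (It B j).card + B.card ≤ (It B (j + 1)).card := by
  have h2 := two_le_card_of_not_AP hB hnAP
  have h3 := card_le_It hB.zero hj
  have h4 := card_It_add_card_It hne (i := j + 1) (j := 1) (by omega) hB.zero
  rw [It_one] at h4
  rw [It_succ] at h4 ⊢
  exact vosper hB hgen hA hnAP (by omega) (by omega)

theorem growth {B : Finset G} {s : ℕ} (hB : Sym B)
    (hgen : AddSubgroup.closure (B : Set G) = ⊤) (hA : Aper B) (hne : It B s ≠ univ)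
    (hnAP : ¬ AP B) {j : ℕ} (hj : 1 ≤ j) (hjs : j + 1 ≤ s) :
    j * B.card ≤ (It B j).card := by
  induction j, hj using Nat.le_induction with
  | base => simp
  | succ j hj ih =>
    have h1 := ih (by omega)
    have h2 := growth_step hB hgen hA hne hnAP hj (by omega)
    rw [add_mul, one_mul]
    omega

theorem nonAP_bound {B : Finset G} {s : ℕ} (hs : 2 ≤ s) (hB : Sym B)
    (hgen : AddSubgroup.closure (B : Set G) = ⊤) (hA : Aper B) (hne : It B s ≠ univ)
    (hnAP : ¬ AP B) : s * B.card ≤ Fintype.card G := by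
  have h1 := growth hB hgen hA hne hnAP (j := s - 1) (by omega) (by omega)
  have h2 := card_It_add_card_It hne (i := s - 1) (j := 1) (by omega) hB.zero
  rw [It_one] at h2
  have h3 : s * B.card = (s - 1) * B.card + B.card := by
    conv_lhs => rw [show s = (s - 1) + 1 by omega]
    rw [add_mul, one_mul]
  omega

theorem even_card_of_invol {α : Type*} [DecidableEq α] (t : Finset α) (g : α → α)
    (hmem : ∀ a ∈ t, g a ∈ t) (hne : ∀ a ∈ t, g a ≠ a) (hinv : ∀ a ∈ t, g (g a) = a) :
    Even t.card := by
  have h1 : ∑ _x ∈ t, (1 : ZMod 2) = 0 := by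
    apply Finset.sum_involution (fun a _ => g a)
    · intro a _; decide
    · intro a ha _; exact hne a ha
    · intro a ha; exact hmem a ha
    · intro a ha; exact hinv a ha
  rw [Finset.sum_const, nsmul_eq_mul, mul_one] at h1
  rwa [ZMod.natCast_eq_zero_iff_even] at h1

theorem exists_invol {X Y : Finset G} (hX : Sym X) (hY : Sym Y) (hYX : Y ⊆ X)
    (hodd : Odd (X.card - Y.card)) : ∃ a ∈ X, a ∉ Y ∧ a ≠ 0 ∧ a + a = 0 := by
  by_contra hcon
  push Not at hcon
  have h1 : Even (X \ Y).card := by
    apply even_card_of_invol _ (fun x => -x)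
    · intro a ha
      rw [Finset.mem_sdiff] at ha ⊢
      exact ⟨hX.neg a ha.1, fun h => ha.2 ((hY.neg_iff a).1 h)⟩
    · intro a ha h
      rw [Finset.mem_sdiff] at ha
      have ha0 : a ≠ 0 := by
        rintro rfl
        exact ha.2 hY.zero
      apply hcon a ha.1 ha.2 ha0
      have h2 : -a = a := h
      calc a + a = -a + a := by rw [h2]
        _ = 0 := by simp
    · intro a _; simp
  rw [Finset.card_sdiff_of_subset hYX] at h1
  exact (Nat.not_even_iff_odd.2 hodd) h1

theorem even_of_per {X : Finset G} {a : G} (ha : a ≠ 0) (haa : a + a = 0) (h : Per X a) :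
    Even X.card := by
  apply even_card_of_invol _ (fun x => x + a)
  · exact h
  · intro x _ hx; exact ha (by simpa using hx)
  · intro x _; rw [add_assoc, haa, add_zero]

theorem odd_step {B : Finset G} {s : ℕ} (hB : Sym B)
    (hgen : AddSubgroup.closure (B : Set G) = ⊤) (hA : Aper B) (hne : It B s ≠ univ)
    (hnAP : ¬ AP B) (hodd : Odd B.card) {j : ℕ} (hj : 1 ≤ j) (hjs : j + 2 ≤ s)
    (hhalf : 2 * (It B (j + 1)).card ≤ Fintype.card G) :
    (It B j).card + B.card + 1 ≤ (It B (j + 1)).card := by
  have hstep := growth_step hB hgen hA hne hnAP hj hjs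
  by_contra hcon
  have heq : (It B (j + 1)).card = (It B j).card + B.card := by omega
  obtain ⟨a, haX, haY, ha0, haa⟩ := exists_invol (hB.It (j + 1)) (hB.It j)
    (It_subset_succ hB.zero j) (by rw [heq, Nat.add_sub_cancel_left]; exact hodd)
  set X := It B j with hXdef
  have hXsym : Sym X := hB.It j
  have hBX : B ⊆ X := by
    have := It_mono hB.zero hj
    rwa [It_one] at this
  rw [It_succ, ← hXdef] at haX heq hhalf
  have hneg : -a = a := by
    rw [neg_eq_iff_add_eq_zero]; exact haa
  have hperI : Per (X ∩ tr a X) a := by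
    intro x hx
    rw [Finset.mem_inter, mem_tr] at hx ⊢
    refine ⟨?_, by simpa using hx.1⟩
    have : x + a = x - a := by rw [sub_eq_add_neg, hneg]
    rw [this]; exact hx.2
  rw [Finset.mem_add] at haX
  obtain ⟨x', hx', b, hb, hab⟩ := haX
  have hbI : b ∈ X ∩ tr a X := by
    rw [Finset.mem_inter, mem_tr]
    refine ⟨hBX hb, ?_⟩
    have : b - a = -x' := by rw [← hab]; abel
    rw [this]
    exact hXsym.neg x' hx'
  have hI2 : 2 ≤ (X ∩ tr a X).card := by
    have h1 : ({b, b + a} : Finset G) ⊆ X ∩ tr a X := by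
      intro z hz
      simp only [mem_insert, mem_singleton] at hz
      rcases hz with rfl | rfl
      · exact hbI
      · exact hperI b hbI
    have h2 := Finset.card_le_card h1
    rw [Finset.card_pair (fun h => ha0 (by simpa using h))] at h2
    exact h2
  have hB2 := two_le_card_of_not_AP hB hnAP
  have h4 := card_It_add_card_It hne (i := j + 1) (j := 1) (by omega) hB.zero
  rw [It_one, It_succ, ← hXdef] at h4
  have hIsub : ((X ∩ tr a X) + B).card ≤ (X + B).card :=
    Finset.card_le_card (Finset.add_subset_add_right Finset.inter_subset_left)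
  have hIle : (X ∩ tr a X).card ≤ ((X ∩ tr a X) + B).card := card_le_add hB.zero
  have hsub := submod B X (tr a X)
  rw [tr_add, card_tr] at hsub
  have hcu := Finset.card_union_add_card_inter X (tr a X)
  rw [card_tr] at hcu
  have v1 := vosper (X := X ∩ tr a X) hB hgen hA hnAP hI2 (by omega)
  have v2 := vosper (X := X ∪ tr a X) hB hgen hA hnAP (by omega) (by omega)
  have hevI := even_of_per ha0 haa hperI
  have hevIB := even_of_per ha0 haa (hperI.add_set B)
  have heq2 : ((X ∩ tr a X) + B).card = (X ∩ tr a X).card + B.card := by omega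
  rw [heq2] at hevIB
  rw [Nat.even_add] at hevIB
  exact (Nat.not_even_iff_odd.2 hodd) (hevIB.1 hevI)

theorem odd_growth {B : Finset G} {s : ℕ} (hB : Sym B)
    (hgen : AddSubgroup.closure (B : Set G) = ⊤) (hA : Aper B) (hne : It B s ≠ univ)
    (hnAP : ¬ AP B) (hodd : Odd B.card) {j : ℕ} (hj : 1 ≤ j) (hjs : 2 * j ≤ s) :
    j * B.card + j ≤ (It B j).card + 1 := by
  induction j, hj using Nat.le_induction with
  | base => simp
  | succ j hj ih =>
    have h1 := ih (by omega)
    have h4 := card_It_add_card_It hne (i := j + 1) (j := j + 1) (by omega) hB.zero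
    have h2 := odd_step hB hgen hA hne hnAP hodd hj (by omega) (by omega)
    rw [add_mul, one_mul]
    omega

theorem odd_bound {B : Finset G} {s : ℕ} (hs : 3 ≤ s) (hB : Sym B)
    (hgen : AddSubgroup.closure (B : Set G) = ⊤) (hA : Aper B) (hne : It B s ≠ univ)
    (hnAP : ¬ AP B) (hodd : Odd B.card) : s * B.card + s ≤ Fintype.card G + 3 := by
  obtain ⟨m, hm | hm⟩ := Nat.even_or_odd' s
  · have h1 := odd_growth hB hgen hA hne hnAP hodd (j := m) (by omega) (by omega)
    have h2 := card_It_add_card_It hne (i := m) (j := m) (by omega) hB.zero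
    have h3 : s * B.card = m * B.card + m * B.card := by rw [hm]; ring
    omega
  · have h1 := odd_growth hB hgen hA hne hnAP hodd (j := m) (by omega) (by omega)
    have h2 := card_It_add_card_It hne (i := m + 1) (j := m) (by omega) hB.zero
    have h4 := growth_step hB hgen hA hne hnAP (j := m) (by omega) (by omega)
    have h3 : s * B.card = m * B.card + m * B.card + B.card := by rw [hm]; ring
    omega

theorem odd_card_of_odd {X : Finset G} (hX : Sym X) (hn : Odd (Fintype.card G)) :
    Odd X.card := by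
  by_contra hcon
  rw [Nat.not_odd_iff_even] at hcon
  have hpos : 0 < X.card := Finset.card_pos.2 ⟨0, hX.zero⟩
  obtain ⟨a, _, _, ha0, haa⟩ := exists_invol (Y := {0}) hX ⟨by simp, by simp⟩
    (by intro x hx; rw [Finset.mem_singleton] at hx; rw [hx]; exact hX.zero) (by
      rw [Finset.card_singleton]
      obtain ⟨r, hr⟩ := hcon
      exact ⟨r - 1, by omega⟩)
  have h1 : addOrderOf a = 2 := by
    apply addOrderOf_eq_prime
    · rw [two_nsmul]; exact haa
    · exact ha0
  have h2 := addOrderOf_dvd_card (x := a)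
  rw [h1] at h2
  rcases hn with ⟨r, hr⟩
  omega

theorem nodd_growth {B : Finset G} {s : ℕ} (hB : Sym B)
    (hgen : AddSubgroup.closure (B : Set G) = ⊤) (hA : Aper B) (hne : It B s ≠ univ)
    (hnAP : ¬ AP B) (hn : Odd (Fintype.card G)) {j : ℕ} (hj : 1 ≤ j) (hjs : j + 1 ≤ s) :
    j * B.card + j ≤ (It B j).card + 1 := by
  induction j, hj using Nat.le_induction with
  | base => simp
  | succ j hj ih =>
    have h1 := ih (by omega)
    have h2 := growth_step hB hgen hA hne hnAP hj (by omega)
    have o1 := odd_card_of_odd (hB.It j) hn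
    have o2 := odd_card_of_odd (hB.It (j + 1)) hn
    have o3 := odd_card_of_odd hB hn
    rw [add_mul, one_mul]
    rcases o1 with ⟨r1, hr1⟩
    rcases o2 with ⟨r2, hr2⟩
    rcases o3 with ⟨r3, hr3⟩
    omega

theorem nodd_bound {B : Finset G} {s : ℕ} (hs : 3 ≤ s) (hB : Sym B)
    (hgen : AddSubgroup.closure (B : Set G) = ⊤) (hA : Aper B) (hne : It B s ≠ univ)
    (hnAP : ¬ AP B) (hn : Odd (Fintype.card G)) : s * B.card + s ≤ Fintype.card G + 1 := by
  have h1 := nodd_growth hB hgen hA hne hnAP hn (j := s - 1) (by omega) (by omega)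
  have h2 := card_It_add_card_It hne (i := s - 1) (j := 1) (by omega) hB.zero
  rw [It_one] at h2
  have o1 := odd_card_of_odd (hB.It (s - 1)) hn
  have o3 := odd_card_of_odd hB hn
  have h3 : s * B.card = (s - 1) * B.card + B.card := by
    conv_lhs => rw [show s = (s - 1) + 1 by omega]
    rw [add_mul, one_mul]
  rcases o1 with ⟨r1, hr1⟩
  rcases o3 with ⟨r3, hr3⟩
  rcases hn with ⟨r, hr⟩
  omega

end H99.SC
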