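import Pool.Agent.H99.SC.Atoms

/-!
The holes lemma: a symmetric set `B` with few holes in `B + H` has `H`-periodic `B + B`.
-/

open Finset
open scoped Pointwise

namespace H99.SC

set_option linter.unusedSectionVars false

variable {G : Type*} [AddCommGroup G] [DecidableEq G] [Fintype G]

open Classical in
/-- the coset of `x` as a finset -/
noncomputable def cos (H : AddSubgroup G) (x : G) : Finset G := univ.filter (fun y => y - x ∈ H)

theorem mem_cos {H : AddSubgroup G} {x y : G} : y ∈ cos H x ↔ y - x ∈ H := by
  unfold cos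
  simp

/-- the order of the subgroup -/
noncomputable def od (H : AddSubgroup G) : ℕ := (cos H 0).card

theorem card_cos (H : AddSubgroup G) (x : G) : (cos H x).card = od H := by
  have : cos H x = tr x (cos H 0) := by
    ext y
    rw [mem_cos, mem_tr, mem_cos, sub_zero]
  rw [this, card_tr]
  rfl

theorem self_mem_cos (H : AddSubgroup G) (x : G) : x ∈ cos H x := by
  rw [mem_cos, sub_self]; exact H.zero_mem

theorem od_pos (H : AddSubgroup G) : 0 < od H :=
  Finset.card_pos.2 ⟨0, self_mem_cos H 0⟩


theorem pigeon {H : AddSubgroup G} {x y t : G} {X Y : Finset G} (hX : X ⊆ cos H x)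
    (hY : Y ⊆ cos H y) (hcard : od H < X.card + Y.card) (ht : t - x - y ∈ H) : t ∈ X + Y := by
  have h1 : rf t X ⊆ cos H y := by
    intro z hz
    rw [mem_rf] at hz
    have := hX hz
    rw [mem_cos] at this ⊢
    have h2 : z - y = (t - x - y) - (t - z - x) := by abel
    rw [h2]
    exact H.sub_mem ht this
  have h2 : ¬ Disjoint (rf t X) Y := by
    intro hd
    have h3 := Finset.card_le_card (Finset.union_subset h1 hY)
    rw [Finset.card_union_of_disjoint hd, card_rf, card_cos] at h3
    omega
  rw [Finset.not_disjoint_iff] at h2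
  obtain ⟨z, hz, hzY⟩ := h2
  rw [mem_rf] at hz
  rw [Finset.mem_add]
  exact ⟨t - z, hz, z, hzY, by simp⟩

theorem cos_subset_add {H : AddSubgroup G} {B : Finset G} {x : G} (hx : x ∈ B) :
    cos H x ⊆ B + cos H 0 := by
  intro y hy
  rw [mem_cos] at hy
  rw [Finset.mem_add]
  exact ⟨x, hx, y - x, by rw [mem_cos, sub_zero]; exact hy, by simp⟩

theorem two_cosets {H : AddSubgroup G} {B : Finset G} {x y : G} (hx : x ∈ B) (hy : y ∈ B)
    (hxy : x - y ∉ H) (hh : (B + cos H 0).card + 1 ≤ B.card + od H) :
    od H + 1 ≤ (B ∩ cos H x).card + (B ∩ cos H y).card := by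
  have hd : Disjoint (cos H x \ B) (cos H y \ B) := by
    rw [Finset.disjoint_left]
    intro z hz hz'
    rw [Finset.mem_sdiff, mem_cos] at hz hz'
    apply hxy
    have : x - y = (z - y) - (z - x) := by abel
    rw [this]
    exact H.sub_mem hz'.1 hz.1
  have hsub : (cos H x \ B) ∪ (cos H y \ B) ⊆ (B + cos H 0) \ B := by
    intro z hz
    rw [Finset.mem_union, Finset.mem_sdiff, Finset.mem_sdiff] at hz
    rw [Finset.mem_sdiff]
    rcases hz with hz | hz
    · exact ⟨cos_subset_add hx hz.1, hz.2⟩
    · exact ⟨cos_subset_add hy hz.1, hz.2⟩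
  have h1 := Finset.card_le_card hsub
  rw [Finset.card_union_of_disjoint hd] at h1
  have h0 : B ⊆ B + cos H 0 := subset_add_right' (self_mem_cos H 0)
  have h2 := Finset.card_sdiff_add_card_eq_card h0
  have h3 : ∀ w, (cos H w \ B).card + (B ∩ cos H w).card = od H := by
    intro w
    rw [Finset.inter_comm, Finset.card_sdiff_add_card_inter, card_cos]
  have h4 := h3 x
  have h5 := h3 y
  omega

theorem card_inter_neg {H : AddSubgroup G} {B : Finset G} (hB : Sym B) (x : G) :
    (B ∩ cos H (-x)).card = (B ∩ cos H x).card := by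
  have : B ∩ cos H (-x) = rf 0 (B ∩ cos H x) := by
    ext z
    rw [mem_rf, Finset.mem_inter, Finset.mem_inter, mem_cos, mem_cos, zero_sub, hB.neg_iff]
    have : -z - x = -(z - -x) := by abel
    rw [this, H.neg_mem_iff]
  rw [this, card_rf]

theorem holes {H : AddSubgroup G} {B : Finset G} (hB : Sym B) (hnot : ∃ b ∈ B, b ∉ H)
    (hh : (B + cos H 0).card + 1 ≤ B.card + od H) : ∀ h ∈ H, Per (B + B) h := by
  intro h hhH s hs
  rw [Finset.mem_add] at hs
  obtain ⟨x, hx, y, hy, rfl⟩ := hs
  have hsub : ∀ w, B ∩ cos H w ⊆ cos H w := fun w => Finset.inter_subset_right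
  have hin : ∀ v w, (B ∩ cos H v) + (B ∩ cos H w) ⊆ B + B := fun v w =>
    Finset.add_subset_add Finset.inter_subset_left Finset.inter_subset_left
  by_cases hxy : x - y ∈ H
  · by_cases hbig : od H < 2 * (B ∩ cos H x).card
    · apply hin x x
      apply pigeon (hsub x) (hsub x) (by omega)
      have : x + y + h - x - x = h - (x - y) := by abel
      rw [this]
      exact H.sub_mem hhH hxy
    · push Not at hbig
      have h2x : x - -x ∈ H := by
        by_contra hcon
        have := two_cosets hx (hB.neg x hx) hcon hh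
        rw [card_inter_neg hB] at this
        omega
      obtain ⟨w, hw, hwx⟩ : ∃ w ∈ B, x - w ∉ H := by
        obtain ⟨b, hb, hbH⟩ := hnot
        by_cases hxH : x ∈ H
        · refine ⟨b, hb, fun hc => hbH ?_⟩
          have : b = x - (x - b) := by abel
          rw [this]; exact H.sub_mem hxH hc
        · exact ⟨0, hB.zero, by simpa using hxH⟩
      have hc := two_cosets hx hw hwx hh
      have hbig2 : od H < (B ∩ cos H w).card + (B ∩ cos H (-w)).card := by
        rw [card_inter_neg hB]; omega
      apply hin w (-w)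
      apply pigeon (hsub w) (hsub (-w)) hbig2
      have : x + y + h - w - -w = (x - -x) - (x - y) + h := by abel
      rw [this]
      exact H.add_mem (H.sub_mem h2x hxy) hhH
  · have hc := two_cosets hx hy hxy hh
    apply hin x y
    apply pigeon (hsub x) (hsub y) (by omega)
    have : x + y + h - x - y = h := by abel
    rw [this]
    exact hhH

end H99.SC
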