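import Pool.Agent.H99.SC.Holes

/-!
The addition theorem for a symmetric generating set `B` with aperiodic `B + B`.
-/

open Finset
open scoped Pointwise

namespace H99.SC

set_option linter.unusedSectionVars false

variable {G : Type*} [AddCommGroup G] [DecidableEq G] [Fintype G]

/-- `B + B` has no nonzero period -/
def Aper (B : Finset G) : Prop := ∀ g, g ≠ 0 → ¬ Per (B + B) g

/-- symmetric arithmetic progressions -/
def AP (B : Finset G) : Prop :=
  ∃ (d : G) (k : ℕ), B = (Finset.Icc (-(k : ℤ)) k).image (fun j => j • d) ∧ B.card = 2 * k + 1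

theorem coset_eq {C : Finset G} (h : ∀ x ∈ C, ∀ y ∈ C, Per C (x - y)) {c : G} (hc : c ∈ C) :
    C = cos (stab C) c := by
  ext x
  rw [mem_cos]
  exact coset_of_per h hc x

theorem card_cos_add (H : AddSubgroup G) (c : G) (B : Finset G) :
    (cos H c + B).card = (B + cos H 0).card := by
  have : cos H c = tr c (cos H 0) := by
    ext y
    rw [mem_cos, mem_tr, mem_cos, sub_zero]
  rw [this, tr_add, card_tr, add_comm]

theorem cos_top (c : G) : cos (⊤ : AddSubgroup G) c = univ := by
  ext x; simp [mem_cos]

theorem od_bot : od (⊥ : AddSubgroup G) = 1 := by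
  unfold od
  have : cos (⊥ : AddSubgroup G) 0 = {0} := by
    ext x; simp [mem_cos]
  rw [this]; simp

/-- common part of both addition theorems -/
theorem coset_case {B C : Finset G} (hB : Sym B)
    (hgen : AddSubgroup.closure (B : Set G) = ⊤) (hA : Aper B)
    (hper : ∀ x ∈ C, ∀ y ∈ C, Per C (x - y)) (hne : C.Nonempty)
    (hlt : (C + B).card < Fintype.card G)
    (hcard : (C + B).card + 1 ≤ C.card + B.card) : C.card = 1 := by
  obtain ⟨c, hc⟩ := hne
  have hC := coset_eq hper hc
  set H := stab C with hH
  have h1 : C.card = od H := by rw [hC]; exact card_cos H c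
  have h2 : (C + B).card = (B + cos H 0).card := by rw [hC]; exact card_cos_add H c B
  by_cases hbot : H = ⊥
  · rw [h1, hbot, od_bot]
  · exfalso
    obtain ⟨h, hhH, hh0⟩ : ∃ h : G, h ∈ H ∧ h ≠ 0 := by
      by_contra hcon
      push Not at hcon
      exact hbot ((AddSubgroup.eq_bot_iff_forall H).2 hcon)
    have hnot : ∃ b ∈ B, b ∉ H := by
      by_contra hcon
      push Not at hcon
      have hle : AddSubgroup.closure (B : Set G) ≤ H := by
        rw [AddSubgroup.closure_le]
        intro b hb
        exact hcon b (by exact_mod_cast hb)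
      rw [hgen, top_le_iff] at hle
      rw [hle, cos_top] at hC
      have h0 : C ⊆ C + B := subset_add_right' hB.zero
      have h3 := Finset.card_le_card h0
      have h4 : C.card = Fintype.card G := by rw [hC]; exact Finset.card_univ
      omega
    exact hA h hh0 (holes hB hnot (by rw [h1, h2] at hcard; omega) h hhH)

theorem mann {B X : Finset G} (hB : Sym B) (hgen : AddSubgroup.closure (B : Set G) = ⊤)
    (hA : Aper B) (hX : X.Nonempty) (hXB : (X + B).card < Fintype.card G) :
    X.card + B.card ≤ (X + B).card + 1 := by
  by_contra hcon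
  push Not at hcon
  have hs : Sep B 1 X := ⟨Finset.card_pos.2 hX, hXB⟩
  obtain ⟨C, hC⟩ := exists_atom hB.zero hs
  have hmin := hC.min X hs
  have hCne : C.Nonempty := Finset.card_pos.1 hC.sep.big
  have h1 := coset_case hB hgen hA (atom_one hB hC) hCne (by have := hC.sep.small; omega)
    (by omega)
  have h2 : B.card ≤ (C + B).card := by
    obtain ⟨c, hc⟩ := hCne
    have : tr c B ⊆ C + B := by
      intro x hx
      rw [mem_tr] at hx
      rw [Finset.mem_add]
      exact ⟨c, hc, x - c, hx, by simp⟩
    have := Finset.card_le_card this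
    rwa [card_tr] at this
  omega

/-- the inverse part: `|B + {0, d}| ≤ |B| + 1` -/
theorem ap_of_card {B : Finset G} (hB : Sym B) {d : G}
    (hcard : (B ∪ tr d B).card ≤ B.card + 1) (hper : ¬ Per (B + B) d) : AP B := by
  -- the end point
  have h1 : (tr d B \ B).card ≤ 1 := by
    have h2 := Finset.card_union_of_disjoint (Finset.disjoint_sdiff (s := B) (t := tr d B))
    rw [Finset.union_sdiff_self_eq_union] at h2
    omega
  rw [Finset.card_le_one] at h1
  unfold Per at hper
  push Not at hper
  obtain ⟨s, hs, hsd⟩ := hper
  rw [Finset.mem_add] at hs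
  obtain ⟨e, he, y, hy, rfl⟩ := hs
  have hed : e + d ∉ B := by
    intro h
    apply hsd
    rw [Finset.mem_add]
    exact ⟨e + d, h, y, hy, by abel⟩
  have hyd : y + d ∉ B := by
    intro h
    apply hsd
    rw [Finset.mem_add]
    exact ⟨e, he, y + d, h, by abel⟩
  have huniq : ∀ b ∈ B, b + d ∉ B → b = e := by
    intro b hb hbd
    have := h1 (b + d) (by rw [Finset.mem_sdiff, mem_tr]; exact ⟨by simpa using hb, hbd⟩)
      (e + d) (by rw [Finset.mem_sdiff, mem_tr]; exact ⟨by simpa using he, hed⟩)
    simpa using this
  have hye : y = e := huniq y hy hyd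
  subst hye
  rename_i y
  -- now `y = e`
  have hup : ∀ b ∈ B, b ≠ y → b + d ∈ B := by
    intro b hb hne
    by_contra h
    exact hne (huniq b hb h)
  have hdown : ∀ b ∈ B, b ≠ -y → b - d ∈ B := by
    intro b hb hne
    have h2 := hup (-b) (hB.neg b hb) (fun h => hne (by rw [← h]; simp))
    have h3 := hB.neg _ h2
    have h4 : -(-b + d) = b - d := by abel
    rwa [h4] at h3
  have hlow : -y - d ∉ B := by
    intro h
    have := hB.neg _ h
    have h4 : -(-y - d) = y + d := by abel
    rw [h4] at this
    exact hyd this
  -- the string from `y` down reaches `-y`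
  have hex : ∃ m : ℕ, y - m • d = -y := by
    by_contra hcon
    push Not at hcon
    have hall : ∀ m : ℕ, y - m • d ∈ B := by
      intro m
      induction m with
      | zero => simpa using hy
      | succ m ih =>
        have := hdown _ ih (hcon m)
        rw [succ_nsmul]
        have h4 : y - (m • d + d) = y - m • d - d := by abel
        rwa [h4]
    have hN : 0 < addOrderOf d := addOrderOf_pos d
    have h5 := hall (addOrderOf d - 1)
    have h6 : (addOrderOf d - 1) • d + d = 0 := by
      rw [← succ_nsmul, Nat.sub_add_cancel hN, addOrderOf_nsmul_eq_zero]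
    have h7 : y - (addOrderOf d - 1) • d = y + d := by
      rw [eq_neg_of_add_eq_zero_left h6]; abel
    rw [h7] at h5
    exact hyd h5
  classical
  obtain ⟨m, hm, hmin⟩ : ∃ m : ℕ, y - m • d = -y ∧ ∀ m' < m, y - m' • d ≠ -y :=
    ⟨Nat.find hex, Nat.find_spec hex, fun m' hm' => Nat.find_min hex hm'⟩
  have hstr : ∀ i ≤ m, y - i • d ∈ B := by
    intro i
    induction i with
    | zero => intro _; simpa using hy
    | succ i ih =>
      intro hi
      have := hdown _ (ih (by omega)) (hmin i (by omega))
      rw [succ_nsmul]
      have h4 : y - (i • d + d) = y - i • d - d := by abel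
      rwa [h4]
  have h2y : y + y = m • d := by
    have h8 : y + y = m • d + (y - m • d + y) := by abel
    rw [h8, hm]; abel
  -- every element is in the string
  have hin : ∀ b ∈ B, ∃ i ≤ m, b = y - i • d := by
    intro b hb
    have hex2 : ∃ i : ℕ, b + i • d = y := by
      by_contra hcon
      push Not at hcon
      have hall : ∀ i : ℕ, b + i • d ∈ B := by
        intro i
        induction i with
        | zero => simpa using hb
        | succ i ih =>
          have := hup _ ih (hcon i)
          rw [succ_nsmul, ← add_assoc]
          exact this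
      apply hsd
      rw [Finset.mem_add]
      refine ⟨b + (m + 1) • d, hall _, -b, hB.neg b hb, ?_⟩
      rw [h2y, succ_nsmul]; abel
    obtain ⟨i, hi, himin⟩ : ∃ i : ℕ, b + i • d = y ∧ ∀ i' < i, b + i' • d ≠ y :=
      ⟨Nat.find hex2, Nat.find_spec hex2, fun m' hm' => Nat.find_min hex2 hm'⟩
    have hall : ∀ j ≤ i, b + j • d ∈ B := by
      intro j
      induction j with
      | zero => intro _; simpa using hb
      | succ j ih =>
        intro hj
        have := hup _ (ih (by omega)) (himin j (by omega))
        rw [succ_nsmul, ← add_assoc]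
        exact this
    have hbi : b = y - i • d := by rw [← hi]; abel
    refine ⟨i, ?_, hbi⟩
    by_contra hcon
    push Not at hcon
    have h9 := hall (i - (m + 1)) (by omega)
    have h10 : b + (i - (m + 1)) • d = -y - d := by
      have h11 : i = (i - (m + 1)) + (m + 1) := by omega
      have h12 : i • d = (i - (m + 1)) • d + (m • d + d) := by
        conv_lhs => rw [h11]
        rw [add_nsmul, succ_nsmul]
      rw [hbi, h12, ← h2y]; abel
    rw [h10] at h9
    exact hlow h9
  obtain ⟨i, him, hi0⟩ := hin 0 hB.zero
  have hyi : y = i • d := by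
    have : y = (y - i • d) + i • d := by abel
    rw [← hi0, zero_add] at this; exact this
  have hm2 : m = 2 * i := by
    have ha : m ≤ 2 * i := by
      by_contra hcon
      push Not at hcon
      apply hmin (2 * i) hcon
      rw [two_mul, add_nsmul, ← hyi]; abel
    have hb : m ≤ 2 * (m - i) := by
      by_contra hcon
      push Not at hcon
      apply hmin (2 * (m - i)) hcon
      have h13 : (m - i) • d = y := by
        have h14 : m • d = (m - i) • d + i • d := by
          rw [← add_nsmul, Nat.sub_add_cancel him]
        rw [← h2y, ← hyi] at h14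
        exact (add_right_cancel h14).symm
      rw [two_mul, add_nsmul, h13]; abel
    omega
  have hinj : ∀ a ≤ m, ∀ b ≤ m, a < b → y - a • d ≠ y - b • d := by
    intro a ha b hb hab heq
    have h15 : a • d = b • d := by simpa using heq
    apply hmin (m - (b - a)) (by omega)
    have h16 : (b - a) • d = 0 := by
      have : b • d = (b - a) • d + a • d := by
        rw [← add_nsmul, Nat.sub_add_cancel hab.le]
      rw [h15] at this
      exact (left_eq_add.1 (by rw [add_comm] at this; exact this))
    have h17 : m • d = (m - (b - a)) • d + (b - a) • d := by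
      rw [← add_nsmul, Nat.sub_add_cancel (by omega)]
    rw [h16, add_zero] at h17
    rw [← h17, ← h2y]; abel
  refine ⟨d, i, ?_, ?_⟩
  · ext b
    rw [Finset.mem_image]
    constructor
    · intro hb
      obtain ⟨j, hj, rfl⟩ := hin b hb
      refine ⟨(i : ℤ) - j, ?_, ?_⟩
      · rw [Finset.mem_Icc]; constructor <;> omega
      · rw [sub_smul, natCast_zsmul, natCast_zsmul, ← hyi]
    · rintro ⟨j, hj, rfl⟩
      rw [Finset.mem_Icc] at hj
      obtain ⟨l, hl⟩ : ∃ l : ℕ, (l : ℤ) = (i : ℤ) - j := ⟨((i : ℤ) - j).toNat, by omega⟩
      have : j • d = y - l • d := by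
        have hj' : j = (i : ℤ) - l := by omega
        rw [hj', sub_smul, natCast_zsmul, natCast_zsmul, ← hyi]
      show j • d ∈ B
      rw [this]
      exact hstr l (by omega)
  · have : B = (Finset.range (m + 1)).image (fun j : ℕ => y - j • d) := by
      ext b
      rw [Finset.mem_image]
      constructor
      · intro hb
        obtain ⟨j, hj, rfl⟩ := hin b hb
        exact ⟨j, by rw [Finset.mem_range]; omega, rfl⟩
      · rintro ⟨j, hj, rfl⟩
        rw [Finset.mem_range] at hj
        exact hstr j (by omega)
    rw [this, Finset.card_image_of_injOn, Finset.card_range]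
    · omega
    · intro a ha b hb hab
      have ha' : a ≤ m := by have := Finset.mem_range.1 (Finset.mem_coe.1 ha); omega
      have hb' : b ≤ m := by have := Finset.mem_range.1 (Finset.mem_coe.1 hb); omega
      rcases lt_trichotomy a b with h | h | h
      · exact absurd hab (hinj a ha' b hb' h)
      · exact h
      · exact absurd hab.symm (hinj b hb' a ha' h)

theorem vosper {B X : Finset G} (hB : Sym B) (hgen : AddSubgroup.closure (B : Set G) = ⊤)
    (hA : Aper B) (hnAP : ¬ AP B) (hX : 2 ≤ X.card) (hXB : (X + B).card + 2 ≤ Fintype.card G) :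
    X.card + B.card ≤ (X + B).card := by
  by_contra hcon
  push Not at hcon
  have hs : Sep B 2 X := ⟨hX, hXB⟩
  obtain ⟨C, hC⟩ := exists_atom hB.zero hs
  have hmin := hC.min X hs
  have hCne : C.Nonempty := Finset.card_pos.1 (by have := hC.sep.big; omega)
  rcases atom_two hB hC with ⟨x, d, hd, rfl⟩ | hper
  · apply hnAP
    have hc : ({x, x + d} : Finset G).card = 2 := by
      apply Finset.card_pair
      intro h
      exact hd (by simpa using h)
    have he : ({x, x + d} : Finset G) + B = tr x (B ∪ tr d B) := by
      ext z
      rw [Finset.mem_add, mem_tr, Finset.mem_union, mem_tr]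
      constructor
      · rintro ⟨a, ha, b, hb, rfl⟩
        simp only [mem_insert, mem_singleton] at ha
        rcases ha with rfl | rfl
        · left; simpa using hb
        · right
          have : x + d + b - x - d = b := by abel
          rwa [this]
      · rintro (h | h)
        · exact ⟨x, by simp, z - x, h, by simp⟩
        · exact ⟨x + d, by simp, z - x - d, h, by abel⟩
    apply ap_of_card hB (d := d) _ (hA d hd)
    rw [he, card_tr] at hmin
    omega
  · have := coset_case hB hgen hA hper hCne (by have := hC.sep.small; omega) (by omega)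
    have := hC.sep.big
    omega

end H99.SC
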