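import Mathlib

/-!
A finite abelian group of exponent `e` maps onto `ZMod d` for every divisor `d` of `e`.
-/

namespace H99.SC

theorem exists_surj_zmod_exponent (G : Type*) [AddCommGroup G] [Finite G] :
    ∃ f : G →+ ZMod (AddMonoid.exponent G), Function.Surjective f := by
  have he0 : Monoid.exponent (Multiplicative G) ≠ 0 := Monoid.exponent_ne_zero_of_finite
  have : NeZero (Monoid.exponent (Multiplicative G)) := ⟨he0⟩
  obtain ⟨E⟩ := CommGroup.monoidHom_mulEquiv_of_hasEnoughRootsOfUnity (Multiplicative G) ℂ
  have : Finite (Multiplicative G →* ℂˣ) := Finite.of_equiv _ E.symm.toEquiv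
  have hexp : Monoid.exponent (Multiplicative G →* ℂˣ) = Monoid.exponent (Multiplicative G) :=
    Monoid.exponent_eq_of_mulEquiv E
  obtain ⟨φ, hφ⟩ := Monoid.exists_orderOf_eq_exponent
    (G := Multiplicative G →* ℂˣ) (Monoid.exponent_ne_zero.1 (by rw [hexp]; exact he0))
  rw [hexp] at hφ
  have : Finite φ.range := Finite.of_surjective φ.rangeRestrict φ.rangeRestrict_surjective
  have : IsCyclic φ.range := isCyclic_subgroup_units φ.range
  have hcard : Nat.card φ.range = Monoid.exponent (Multiplicative G) := by
    rw [← IsCyclic.exponent_eq_card, ← hφ]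
    apply Nat.dvd_antisymm
    · apply Monoid.exponent_dvd_of_forall_pow_eq_one
      rintro ⟨_, g, rfl⟩
      apply Subtype.ext
      have h1 : (φ ^ orderOf φ) g = 1 := by rw [pow_orderOf_eq_one]; rfl
      rw [MonoidHom.pow_apply] at h1
      exact h1
    · apply orderOf_dvd_of_pow_eq_one
      apply MonoidHom.ext
      intro g
      have h1 : (⟨φ g, g, rfl⟩ : φ.range) ^ Monoid.exponent φ.range = 1 :=
        Monoid.pow_exponent_eq_one _
      have h2 := congrArg (fun x : φ.range => (x : ℂˣ)) h1
      rw [MonoidHom.pow_apply]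
      exact h2
  have hM : Monoid.exponent (Multiplicative G) = AddMonoid.exponent G :=
    Monoid.exponent_multiplicative
  rw [hM] at hcard
  -- map to ZMod
  have key : ∃ f : G →+ ZMod (Nat.card φ.range), Function.Surjective f := by
    let ψ : Multiplicative (ZMod (Nat.card φ.range)) ≃* φ.range := zmodCyclicMulEquiv inferInstance
    let χ : Multiplicative G →* Multiplicative (ZMod (Nat.card φ.range)) :=
      ψ.symm.toMonoidHom.comp φ.rangeRestrict
    have hχ : Function.Surjective χ :=
      ψ.symm.surjective.comp φ.rangeRestrict_surjective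
    exact ⟨AddMonoidHom.toMultiplicative.symm χ, hχ⟩
  rwa [hcard] at key

theorem exists_surj_zmod (G : Type*) [AddCommGroup G] [Finite G] {d : ℕ}
    (hd : d ∣ AddMonoid.exponent G) : ∃ f : G →+ ZMod d, Function.Surjective f := by
  obtain ⟨f, hf⟩ := exists_surj_zmod_exponent G
  refine ⟨(ZMod.castHom hd (ZMod d)).toAddMonoidHom.comp f, ?_⟩
  have h := ZMod.castHom_surjective hd
  exact h.comp hf

end H99.SC
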