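import Pool.Agent.H99.SC.Reduce
import Pool.Agent.H99.SC.Surj

/-!
Constructions.
-/

open Finset
open scoped Pointwise

namespace H99.SC

set_option linter.unusedSectionVars false

/-- `B` is an admissible set: symmetric, generating, and `sB` is not everything -/
structure Adm {G : Type*} [AddCommGroup G] [DecidableEq G] [Fintype G] (s : ℕ) (B : Finset G) :
    Prop where
  sym : Sym B
  gen : AddSubgroup.closure (B : Set G) = ⊤
  ne : It B s ≠ univ

variable {G : Type*} [AddCommGroup G] [DecidableEq G] [Fintype G]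
variable {Q : Type*} [AddCommGroup Q] [DecidableEq Q] [Fintype Q]

theorem lift_adm (f : G →+ Q) (hf : Function.Surjective f) {s : ℕ} {B' : Finset Q}
    (h : Adm s B') : ∃ B : Finset G, Adm s B ∧
      B.card * Fintype.card Q = B'.card * Fintype.card G := by
  classical
  refine ⟨univ.filter (fun x => f x ∈ B'), ⟨⟨?_, ?_⟩, ?_, ?_⟩, ?_⟩
  · rw [Finset.mem_filter]; exact ⟨mem_univ _, by rw [map_zero]; exact h.sym.zero⟩
  · intro x hx
    rw [Finset.mem_filter] at hx ⊢
    exact ⟨mem_univ _, by rw [map_neg]; exact h.sym.neg _ hx.2⟩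
  · rw [eq_top_iff]
    intro x _
    have hmap : (AddSubgroup.closure
        ((univ.filter (fun x => f x ∈ B') : Finset G) : Set G)).map f = ⊤ := by
      rw [eq_top_iff, ← h.gen, AddSubgroup.closure_le]
      intro q hq
      obtain ⟨y, rfl⟩ := hf q
      refine ⟨y, AddSubgroup.subset_closure ?_, rfl⟩
      rw [Finset.mem_coe, Finset.mem_filter]
      exact ⟨mem_univ _, hq⟩
    have h1 : f x ∈ (AddSubgroup.closure
        ((univ.filter (fun x => f x ∈ B') : Finset G) : Set G)).map f := by
      rw [hmap]; trivial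
    obtain ⟨y, hy, hxy⟩ := h1
    have h2 : x - y ∈ AddSubgroup.closure
        ((univ.filter (fun x => f x ∈ B') : Finset G) : Set G) := by
      apply AddSubgroup.subset_closure
      rw [Finset.mem_coe, Finset.mem_filter]
      refine ⟨mem_univ _, ?_⟩
      rw [map_sub, hxy, sub_self]
      exact h.sym.zero
    have h3 : x = (x - y) + y := by abel
    rw [h3]
    exact AddSubgroup.add_mem _ h2 hy
  · intro hu
    apply h.ne
    have hsub : (univ.filter (fun x => f x ∈ B')).image f ⊆ B' := by
      intro q hq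
      rw [Finset.mem_image] at hq
      obtain ⟨x, hx, rfl⟩ := hq
      exact (Finset.mem_filter.1 hx).2
    have h1 := It_mono_set hsub s
    rw [← image_It, hu, Finset.image_univ_of_surjective hf] at h1
    exact Finset.univ_subset_iff.1 h1
  · have h1 : (univ.filter (fun x => f x ∈ B')).card = B'.card * od f.ker := by
      have h2 : ∀ x ∈ univ.filter (fun x => f x ∈ B'), f x ∈ B' := by
        intro x hx
        exact (Finset.mem_filter.1 hx).2
      rw [Finset.card_eq_sum_card_fiberwise h2]
      have h3 : ∀ q ∈ B', ((univ.filter (fun x => f x ∈ B')).filter (fun x => f x = q)).card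
          = od f.ker := by
        intro q hq
        obtain ⟨x, rfl⟩ := hf q
        rw [← card_cos f.ker x]
        congr 1
        ext y
        rw [Finset.mem_filter, Finset.mem_filter, mem_cos, AddMonoidHom.mem_ker, map_sub,
          sub_eq_zero]
        constructor
        · rintro ⟨_, h⟩; exact h
        · intro h; exact ⟨⟨mem_univ _, by rw [h]; exact hq⟩, h⟩
      rw [Finset.sum_congr rfl h3, Finset.sum_const, smul_eq_mul]
    rw [h1, card_eq_mul f hf]
    ring

theorem zsmul_one_zmod (M : ℕ) (j : ℤ) : j • (1 : ZMod M) = (j : ZMod M) := by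
  rw [zsmul_eq_mul, mul_one]

theorem card_apS_zmod {M k : ℕ} (h : 2 * k + 1 ≤ M) : (apS (1 : ZMod M) k).card = 2 * k + 1 := by
  have : NeZero M := ⟨by omega⟩
  unfold apS
  rw [Finset.card_image_of_injOn, Int.card_Icc]
  · omega
  · intro a ha b hb hab
    have ha' := Finset.mem_Icc.1 (Finset.mem_coe.1 ha)
    have hb' := Finset.mem_Icc.1 (Finset.mem_coe.1 hb)
    simp only [zsmul_one_zmod] at hab
    rw [ZMod.intCast_eq_intCast_iff_dvd_sub] at hab
    obtain ⟨c, hc⟩ := hab
    have hc0 : c = 0 := by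
      by_contra hne
      rcases lt_or_gt_of_ne hne with h0 | h0
      · have : (M : ℤ) * c ≤ (M : ℤ) * (-1) := mul_le_mul_of_nonneg_left (by omega) (by omega)
        omega
      · have : (M : ℤ) * 1 ≤ (M : ℤ) * c := mul_le_mul_of_nonneg_left (by omega) (by omega)
        omega
    rw [hc0, mul_zero] at hc
    omega

theorem adm_interval {s d k : ℕ} [NeZero d] (hk : 1 ≤ k) (hd : 2 * (s * k) + 2 ≤ d) :
    Adm s (apS (1 : ZMod d) k) := by
  refine ⟨sym_apS _ _, ?_, ?_⟩
  · rw [eq_top_iff]
    intro x _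
    obtain ⟨m, rfl⟩ := ZMod.intCast_surjective x
    have h1 : (1 : ZMod d) ∈ AddSubgroup.closure ((apS (1 : ZMod d) k : Finset _) : Set (ZMod d)) := by
      apply AddSubgroup.subset_closure
      rw [Finset.mem_coe, mem_apS]
      exact ⟨1, by omega, by omega, by simp⟩
    have h2 := AddSubgroup.zsmul_mem _ h1 m
    rwa [zsmul_one_zmod] at h2
  · intro h
    rw [It_apS] at h
    have h1 := card_apS_le (1 : ZMod d) (s * k)
    rw [h, Finset.card_univ, ZMod.card] at h1
    omega

/-- the lower bound coming from cyclic quotients -/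
theorem lower_cyc {s d : ℕ} (hs : 1 ≤ s) (hd : d ∣ AddMonoid.exponent G) (hds : 2 * s + 2 ≤ d) :
    ∃ B : Finset G, Adm s B ∧
      B.card = (2 * ((d - 2) / (2 * s)) + 1) * (Fintype.card G / d) := by
  obtain ⟨f, hf⟩ := exists_surj_zmod G hd
  have : NeZero d := ⟨by omega⟩
  set k := (d - 2) / (2 * s) with hk
  have h1 : k * (2 * s) ≤ d - 2 := Nat.div_mul_le_self _ _
  have h2 : k * (2 * s) = 2 * (s * k) := by ring
  have hk1 : 1 ≤ k := by
    rw [hk, Nat.le_div_iff_mul_le (by omega)]
    omega
  obtain ⟨B, hB, hcard⟩ := lift_adm f hf (adm_interval (s := s) (d := d) hk1 (by omega))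
  refine ⟨B, hB, ?_⟩
  have h3 : 2 * k + 1 ≤ d := by
    have : k ≤ s * k := Nat.le_mul_of_pos_left k hs
    omega
  rw [card_apS_zmod h3, ZMod.card] at hcard
  have h4 := card_eq_mul f hf
  rw [ZMod.card] at h4
  have h5 : Fintype.card G / d = od f.ker := by
    rw [h4, Nat.mul_div_cancel_left _ (by omega)]
  rw [h5]
  rw [h4] at hcard
  have h6 : B.card * d = ((2 * k + 1) * od f.ker) * d := by rw [hcard]; ring
  exact Nat.eq_of_mul_eq_mul_right (by omega) h6

/-- the second family -/
noncomputable def fam (p M k : ℕ) [NeZero p] [NeZero M] : Finset (ZMod p × ZMod M) :=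
  (univ ×ˢ apS (1 : ZMod M) (k - 1)) ∪ ({0} ×ˢ apS (1 : ZMod M) k)

theorem mem_fam {p M k : ℕ} [NeZero p] [NeZero M] {x : ZMod p × ZMod M} :
    x ∈ fam p M k ↔ x.2 ∈ apS (1 : ZMod M) (k - 1) ∨ (x.1 = 0 ∧ x.2 ∈ apS (1 : ZMod M) k) := by
  unfold fam
  rw [Finset.mem_union, Finset.mem_product, Finset.mem_product]
  simp

theorem card_fam {p M k : ℕ} [NeZero p] [NeZero M] (hk : 1 ≤ k) (hM : 2 * k + 1 ≤ M) :
    (fam p M k).card = p * (2 * k - 1) + 2 := by
  have h1 := Finset.card_union_add_card_inter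
    ((univ : Finset (ZMod p)) ×ˢ apS (1 : ZMod M) (k - 1)) ({0} ×ˢ apS (1 : ZMod M) k)
  have h2 : ((univ : Finset (ZMod p)) ×ˢ apS (1 : ZMod M) (k - 1)) ∩ ({0} ×ˢ apS (1 : ZMod M) k)
      = {0} ×ˢ apS (1 : ZMod M) (k - 1) := by
    ext x
    simp only [Finset.mem_inter, Finset.mem_product, Finset.mem_univ, Finset.mem_singleton,
      true_and]
    constructor
    · rintro ⟨h, h', _⟩; exact ⟨h', h⟩
    · rintro ⟨h, h'⟩; exact ⟨h', h, apS_mono (by omega) h'⟩
  rw [h2, Finset.card_product, Finset.card_product, Finset.card_product, Finset.card_univ,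
    ZMod.card, Finset.card_singleton, card_apS_zmod (by omega : 2 * (k - 1) + 1 ≤ M),
    card_apS_zmod hM] at h1
  unfold fam
  have h3 : 2 * (k - 1) + 1 = 2 * k - 1 := by omega
  rw [h3] at h1
  omega

theorem adm_fam {s p M k : ℕ} [NeZero p] [NeZero M] (hs : 1 ≤ s) (hp : 2 ≤ p) (hk : 1 ≤ k)
    (hM : M = 2 * (s * k) ∨ M = 2 * (s * k) + 1) : Adm s (fam p M k) := by
  have hkk : k ≤ s * k := Nat.le_mul_of_pos_left k hs
  refine ⟨⟨?_, ?_⟩, ?_, ?_⟩
  · rw [mem_fam]; left; exact (sym_apS _ _).zero
  · intro x hx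
    rw [mem_fam] at hx ⊢
    rcases hx with h | ⟨h, h'⟩
    · left; exact (sym_apS _ _).neg _ h
    · right
      refine ⟨?_, (sym_apS _ _).neg _ h'⟩
      rw [Prod.fst_neg, h, neg_zero]
  · rw [eq_top_iff]
    rintro ⟨a, b⟩ _
    obtain ⟨m, rfl⟩ := ZMod.intCast_surjective b
    have h1 : ((a, 0) : ZMod p × ZMod M) ∈ AddSubgroup.closure ((fam p M k : Finset _) : Set _) := by
      apply AddSubgroup.subset_closure
      rw [Finset.mem_coe, mem_fam]
      left; exact (sym_apS _ _).zero
    have h2 : ((0, 1) : ZMod p × ZMod M) ∈ AddSubgroup.closure ((fam p M k : Finset _) : Set _) := by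
      apply AddSubgroup.subset_closure
      rw [Finset.mem_coe, mem_fam]
      right
      refine ⟨rfl, ?_⟩
      rw [mem_apS]
      exact ⟨1, by omega, by omega, by simp⟩
    have h3 := AddSubgroup.add_mem _ h1 (AddSubgroup.zsmul_mem _ h2 m)
    have h4 : ((a, 0) : ZMod p × ZMod M) + m • (0, 1) = (a, (m : ZMod M)) := by
      ext <;> simp
    rwa [h4] at h3
  · -- invariant
    have hinv : ∀ m : ℕ, ∀ x ∈ It (fam p M k) m, ∃ j : ℤ, -((m * k : ℕ) : ℤ) ≤ j ∧
        j ≤ ((m * k : ℕ) : ℤ) ∧ x.2 = (j : ZMod M) ∧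
        ((j = ((m * k : ℕ) : ℤ) ∨ j = -((m * k : ℕ) : ℤ)) → x.1 = 0) := by
      intro m
      induction m with
      | zero =>
        intro x hx
        rw [It_zero, Finset.mem_singleton] at hx
        subst hx
        exact ⟨0, by simp, by simp, by simp, fun _ => rfl⟩
      | succ m ih =>
        intro x hx
        rw [It_succ, Finset.mem_add] at hx
        obtain ⟨y, hy, w, hw, rfl⟩ := hx
        obtain ⟨j, hj1, hj2, hj3, hj4⟩ := ih y hy
        have hmk : (m + 1) * k = m * k + k := by ring
        rw [mem_fam] at hw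
        rcases hw with h | ⟨h, h'⟩
        · rw [mem_apS] at h
          obtain ⟨i, hi1, hi2, hi3⟩ := h
          rw [zsmul_one_zmod] at hi3
          refine ⟨j + i, by rw [hmk]; push_cast at *; omega, by rw [hmk]; push_cast at *; omega, ?_, ?_⟩
          · rw [Prod.snd_add, hj3, ← hi3]; push_cast; ring
          · rintro (h5 | h5)
            · exfalso; rw [hmk] at h5; push_cast at *; omega
            · exfalso; rw [hmk] at h5; push_cast at *; omega
        · rw [mem_apS] at h'
          obtain ⟨i, hi1, hi2, hi3⟩ := h'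
          rw [zsmul_one_zmod] at hi3
          refine ⟨j + i, by rw [hmk]; push_cast at *; omega, by rw [hmk]; push_cast at *; omega, ?_, ?_⟩
          · rw [Prod.snd_add, hj3, ← hi3]; push_cast; ring
          · rintro (h5 | h5)
            · rw [Prod.fst_add, h, add_zero]
              apply hj4
              left; rw [hmk] at h5; push_cast at *; omega
            · rw [Prod.fst_add, h, add_zero]
              apply hj4
              right; rw [hmk] at h5; push_cast at *; omega
    intro hu
    have h1 : ((1, ((s * k : ℕ) : ℤ)) : ZMod p × ZMod M) ∈ It (fam p M k) s := by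
      rw [hu]; exact mem_univ _
    obtain ⟨j, hj1, hj2, hj3, hj4⟩ := hinv s _ h1
    have h2 : (((s * k : ℕ) : ℤ) : ZMod M) = (j : ZMod M) := hj3
    rw [ZMod.intCast_eq_intCast_iff_dvd_sub] at h2
    obtain ⟨c, hc⟩ := h2
    have h3 : j = ((s * k : ℕ) : ℤ) ∨ j = -((s * k : ℕ) : ℤ) := by
      by_cases hc0 : c = 0
      · left; rw [hc0, mul_zero] at hc; omega
      · right
        rcases lt_or_gt_of_ne hc0 with h0 | h0
        · have h4 : (M : ℤ) * c ≤ (M : ℤ) * (-1) := mul_le_mul_of_nonneg_left (by omega) (by omega)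
          rcases hM with hM | hM <;> rw [hM] at h4 hc <;> push_cast at h4 hc hj1 hj2 ⊢ <;> omega
        · have h4 : (M : ℤ) * 1 ≤ (M : ℤ) * c := mul_le_mul_of_nonneg_left (by omega) (by omega)
          omega
    have h5 := hj4 h3
    have h6 : (1 : ZMod p) = 0 := h5
    have : Fact (1 < p) := ⟨hp⟩
    exact one_ne_zero h6

end H99.SC
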