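import Pool.Agent.H99.SC.Chi

/-!
The critical number: final statements.
-/

open Finset
open scoped Pointwise

namespace H99.SC

set_option linter.unusedSectionVars false

universe u

theorem chi_gen_le {G : Type u} [AddCommGroup G] [Fintype G] {s : ℕ} (hs : 3 ≤ s) :
    chi G s ≤ max (vv (Fintype.card G) (AddMonoid.exponent G) s) (Fintype.card G / s) + 1 := by
  classical
  apply chi_le
  intro B hB
  rcases upper_gen hs hB.sym hB.gen hB.ne with h | ⟨h, _⟩
  · exact le_max_of_le_left h
  · apply le_max_of_le_right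
    rw [Nat.le_div_iff_mul_le (by omega), mul_comm]
    exact h

theorem chi_gen_le' {G : Type u} [AddCommGroup G] [Fintype G] {s : ℕ} (hs : 3 ≤ s)
    (hno : ¬ ∃ b : ℕ, 1 ≤ b ∧ ∃ φ : G →+ ZMod 2 × ZMod (2 * (s * b)), Function.Surjective φ) :
    chi G s ≤ max (vv (Fintype.card G) (AddMonoid.exponent G) s)
      ((Fintype.card G + 3 - s) / s) + 1 := by
  classical
  apply chi_le
  intro B hB
  rcases upper_gen hs hB.sym hB.gen hB.ne with h | ⟨_, h | h⟩
  · exact le_max_of_le_left h
  · apply le_max_of_le_right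
    rw [Nat.le_div_iff_mul_le (by omega), mul_comm]
    omega
  · exact absurd h hno

theorem chi_ge {G : Type u} [AddCommGroup G] [Fintype G] {s : ℕ} (hs : 1 ≤ s) :
    vv (Fintype.card G) (AddMonoid.exponent G) s + 1 ≤ chi G s := by
  classical
  exact vv_lt_chi hs

theorem chi_of_surj {G : Type u} [AddCommGroup G] [Fintype G] {s b : ℕ} (hs : 3 ≤ s)
    (hb : 1 ≤ b) (φ : G →+ ZMod 2 × ZMod (2 * (s * b))) (hφ : Function.Surjective φ) :
    chi G s = max (vv (Fintype.card G) (AddMonoid.exponent G) s) (Fintype.card G / s) + 1 := by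
  classical
  apply le_antisymm (chi_gen_le hs)
  have h1 := vv_lt_chi (G := G) (s := s) (by omega)
  have hsb : 1 ≤ s * b := Nat.mul_pos (by omega) hb
  have : NeZero (2 * (s * b)) := ⟨by omega⟩
  have hbs : b ≤ s * b := Nat.le_mul_of_pos_left b (by omega)
  obtain ⟨B, hB, hcard⟩ := lift_adm φ hφ
    (adm_fam (s := s) (p := 2) (M := 2 * (s * b)) (k := b) (by omega) le_rfl hb (Or.inl rfl))
  have hs3 : 3 * b ≤ s * b := Nat.mul_le_mul_right b hs
  rw [card_fam hb (by omega), Fintype.card_prod, ZMod.card, ZMod.card] at hcard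
  have h2 := lt_chi hB
  have h3 : Fintype.card G / s = B.card := by
    have h4 : 2 * (2 * b - 1) + 2 = 4 * b := by omega
    rw [h4] at hcard
    have h5 : 4 * b * (s * B.card) = 4 * b * Fintype.card G := by
      rw [← hcard]; ring
    have h6 : s * B.card = Fintype.card G := Nat.eq_of_mul_eq_mul_left (by omega) h5
    rw [← h6, Nat.mul_div_cancel_left _ (by omega)]
  rw [h3]
  omega

theorem chi_of_divisor {G : Type u} [AddCommGroup G] [Fintype G] {s d : ℕ} (hs : 3 ≤ s)
    (hd : d ∣ AddMonoid.exponent G) (hds : 2 * s + 2 ≤ d) (h2 : 2 ≤ d % (2 * s))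
    (h3 : d % (2 * s) ≤ s) :
    chi G s = vv (Fintype.card G) (AddMonoid.exponent G) s + 1 := by
  apply le_antisymm _ (chi_ge (by omega))
  refine (chi_gen_le hs).trans ?_
  have he : AddMonoid.exponent G ≠ 0 := AddMonoid.exponent_ne_zero_of_finite
  have h4 := le_vv (n := Fintype.card G) (s := s) he hd hds
  have hdn : d ∣ Fintype.card G := by
    refine hd.trans ?_
    have := AddGroup.exponent_dvd_nat_card (G := G)
    rwa [Nat.card_eq_fintype_card] at this
  obtain ⟨h, hh⟩ := hdn
  have h5 : Fintype.card G / s ≤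
      (2 * ((d - 2) / (2 * s)) + 1) * (Fintype.card G / d) := by
    rw [hh, Nat.mul_div_cancel_left _ (by omega)]
    apply Nat.div_le_of_le_mul
    have h6 : d ≤ s * (2 * ((d - 2) / (2 * s)) + 1) := by
      have h7 := Nat.div_add_mod d (2 * s)
      have h8 : d / (2 * s) ≤ (d - 2) / (2 * s) := by
        rw [Nat.le_div_iff_mul_le (by omega)]
        have : d / (2 * s) * (2 * s) = 2 * s * (d / (2 * s)) := by ring
        omega
      have h9 := Nat.mul_le_mul_left (2 * s) h8
      have h10 : s * (2 * ((d - 2) / (2 * s)) + 1) = 2 * s * ((d - 2) / (2 * s)) + s := by ring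
      omega
    calc d * h ≤ (s * (2 * ((d - 2) / (2 * s)) + 1)) * h := Nat.mul_le_mul_right h h6
      _ = s * ((2 * ((d - 2) / (2 * s)) + 1) * h) := by ring
  omega

theorem exponent_prod_zmod {p M : ℕ} [NeZero p] [NeZero M] (h : p ∣ M) :
    AddMonoid.exponent (ZMod p × ZMod M) = M := by
  apply Nat.dvd_antisymm
  · apply AddMonoid.exponent_dvd_of_forall_nsmul_eq_zero
    rintro ⟨a, b⟩
    ext
    · obtain ⟨c, rfl⟩ := h
      simp
    · simp
  · have h1 := AddMonoid.addOrder_dvd_exponent (((0 : ZMod p), (1 : ZMod M)))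
    have h2 : addOrderOf (((0 : ZMod p), (1 : ZMod M))) = M := by
      rw [Prod.addOrderOf_mk, addOrderOf_zero, ZMod.addOrderOf_one, Nat.lcm_one_left]
    rwa [h2] at h1

theorem gen_prod_zmod {p M : ℕ} (x : ZMod p × ZMod M) :
    ∃ i j : ℤ, x = i • ((1 : ZMod p), (0 : ZMod M)) + j • ((0 : ZMod p), (1 : ZMod M)) := by
  obtain ⟨a, b⟩ := x
  obtain ⟨i, rfl⟩ := ZMod.intCast_surjective a
  obtain ⟨j, rfl⟩ := ZMod.intCast_surjective b
  refine ⟨i, j, ?_⟩
  ext <;> simp

theorem chi_two {M s : ℕ} (hs : 3 ≤ s) (hM0 : 0 < M) (hM : 2 ∣ M) :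
    chi (ZMod 2 × ZMod M) s =
      max (vv (2 * M) M s) (if 2 * s ∣ M then 2 * M / s else 0) + 1 := by
  have : NeZero M := ⟨by omega⟩
  have hcard : Fintype.card (ZMod 2 × ZMod M) = 2 * M := by
    rw [Fintype.card_prod, ZMod.card, ZMod.card]
  have hexp : AddMonoid.exponent (ZMod 2 × ZMod M) = M := exponent_prod_zmod hM
  apply le_antisymm
  · apply chi_le
    intro B hB
    have h := upper_two hs hB.sym hB.gen hB.ne (u := ((1 : ZMod 2), (0 : ZMod M)))
      (g := ((0 : ZMod 2), (1 : ZMod M))) gen_prod_zmod (by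
        ext
        · show 2 • (1 : ZMod 2) = 0
          decide
        · simp)
    rw [hcard, hexp] at h
    rcases h with h | ⟨h, h'⟩
    · exact le_max_of_le_left h
    · apply le_max_of_le_right
      rw [if_pos h, Nat.le_div_iff_mul_le (by omega), mul_comm]
      exact h'
  · have h1 := vv_lt_chi (G := ZMod 2 × ZMod M) (s := s) (by omega)
    rw [hcard, hexp] at h1
    have h0 := one_le_chi (G := ZMod 2 × ZMod M) s
    split_ifs with hd
    · obtain ⟨b, hb⟩ := hd
      have hb1 : 1 ≤ b := by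
        rcases Nat.eq_zero_or_pos b with h | h
        · rw [h] at hb; omega
        · exact h
      have hb' : M = 2 * (s * b) := by rw [hb]; ring
      have h2 := chi_of_surj (G := ZMod 2 × ZMod M) (s := s) (b := b) hs hb1
        (by rw [← hb']; exact AddMonoidHom.id _) (by
          subst hb'
          exact Function.surjective_id)
      rw [h2, hcard, hexp]
    · omega

theorem chi_three {M s : ℕ} (hs : 3 ≤ s) (hM0 : 0 < M) (hM : 3 ∣ M) :
    chi (ZMod 3 × ZMod M) s =
      max (vv (3 * M) M s)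
        ((M.divisors.filter (fun D => 2 * s ≤ D ∧ (D % (2 * s) = 0 ∨ D % (2 * s) = 1))).sup
          (fun D => (6 * (D / (2 * s)) - 1) * (M / D))) + 1 := by
  have : NeZero M := ⟨by omega⟩
  have hcard : Fintype.card (ZMod 3 × ZMod M) = 3 * M := by
    rw [Fintype.card_prod, ZMod.card, ZMod.card]
  have hexp : AddMonoid.exponent (ZMod 3 × ZMod M) = M := exponent_prod_zmod hM
  apply le_antisymm
  · apply chi_le
    intro B hB
    have h := upper_three hs hB.sym hB.gen hB.ne (u := ((1 : ZMod 3), (0 : ZMod M)))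
      (g := ((0 : ZMod 3), (1 : ZMod M))) gen_prod_zmod (by
        ext
        · show 3 • (1 : ZMod 3) = 0
          decide
        · simp)
    rw [hcard, hexp] at h
    rcases h with h | ⟨D, hD, h1, h2, h3⟩
    · exact le_max_of_le_left h
    · apply le_max_of_le_right
      refine h3.trans ?_
      have h4 : 3 * M / (3 * D) = M / D := Nat.mul_div_mul_left _ _ (by norm_num)
      rw [h4]
      apply Finset.le_sup (f := fun D => (6 * (D / (2 * s)) - 1) * (M / D))
      rw [Finset.mem_filter, Nat.mem_divisors]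
      exact ⟨⟨hD, by omega⟩, h1, h2⟩
  · have h1 := vv_lt_chi (G := ZMod 3 × ZMod M) (s := s) (by omega)
    rw [hcard, hexp] at h1
    have h0 := one_le_chi (G := ZMod 3 × ZMod M) s
    have h2 : (M.divisors.filter (fun D => 2 * s ≤ D ∧ (D % (2 * s) = 0 ∨ D % (2 * s) = 1))).sup
          (fun D => (6 * (D / (2 * s)) - 1) * (M / D)) ≤ chi (ZMod 3 × ZMod M) s - 1 := by
      apply Finset.sup_le
      intro D hD
      rw [Finset.mem_filter, Nat.mem_divisors] at hD
      obtain ⟨⟨hDM, _⟩, hDs, hDr⟩ := hD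
      set k := D / (2 * s) with hk
      have hDk := Nat.div_add_mod D (2 * s)
      rw [← hk] at hDk
      have h2s : 2 * s * k = 2 * (s * k) := by ring
      have hDeq : D = 2 * (s * k) ∨ D = 2 * (s * k) + 1 := by omega
      have hk1 : 1 ≤ k := by
        rw [hk, Nat.le_div_iff_mul_le (by omega)]; omega
      have : NeZero D := ⟨by omega⟩
      have hs3 : 3 * k ≤ s * k := Nat.mul_le_mul_right k hs
      let φ : ZMod 3 × ZMod M →+ ZMod 3 × ZMod D :=
        AddMonoidHom.prodMap (AddMonoidHom.id _) (ZMod.castHom hDM (ZMod D)).toAddMonoidHom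
      have hφ : Function.Surjective φ := by
        rintro ⟨a, b⟩
        obtain ⟨c, hc⟩ := ZMod.castHom_surjective hDM b
        exact ⟨(a, c), by simp [φ, ← hc]⟩
      obtain ⟨B, hB, hBc⟩ := lift_adm φ hφ
        (adm_fam (s := s) (p := 3) (M := D) (k := k) (by omega) (by norm_num) hk1 hDeq)
      rw [card_fam hk1 (by omega), Fintype.card_prod, ZMod.card, ZMod.card, hcard] at hBc
      have h3 := lt_chi hB
      obtain ⟨c, hc⟩ := hDM
      have h4 : M / D = c := by rw [hc, Nat.mul_div_cancel_left _ (by omega)]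
      rw [h4]
      have h5 : 3 * (2 * k - 1) + 2 = 6 * k - 1 := by omega
      rw [h5] at hBc
      have h6 : (3 * D) * B.card = (3 * D) * ((6 * k - 1) * c) := by
        have h8 : (6 * k - 1) * (3 * M) = (6 * k - 1) * (3 * (D * c)) :=
          congrArg (fun t => (6 * k - 1) * (3 * t)) hc
        rw [mul_comm, hBc, h8]; ring
      have h7 : B.card = (6 * k - 1) * c := Nat.eq_of_mul_eq_mul_left (by omega) h6
      omega
    omega

end H99.SC
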