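import Pool.Agent.H99.SC.Growth

/-!
Symmetric arithmetic progressions, fibres of homomorphisms.
-/

open Finset
open scoped Pointwise

namespace H99.SC

set_option linter.unusedSectionVars false

variable {G : Type*} [AddCommGroup G] [DecidableEq G]

/-- `{j • d : |j| ≤ k}` -/
noncomputable def apS (d : G) (k : ℕ) : Finset G := (Finset.Icc (-(k : ℤ)) k).image (fun j => j • d)

theorem mem_apS {d x : G} {k : ℕ} :
    x ∈ apS d k ↔ ∃ j : ℤ, -(k : ℤ) ≤ j ∧ j ≤ k ∧ j • d = x := by
  unfold apS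
  rw [Finset.mem_image]
  constructor
  · rintro ⟨j, hj, h⟩
    rw [Finset.mem_Icc] at hj
    exact ⟨j, hj.1, hj.2, h⟩
  · rintro ⟨j, h1, h2, h⟩
    exact ⟨j, Finset.mem_Icc.2 ⟨h1, h2⟩, h⟩

theorem AP_iff {B : Finset G} : AP B ↔ ∃ (d : G) (k : ℕ), B = apS d k ∧ B.card = 2 * k + 1 :=
  Iff.rfl

theorem apS_mono {d : G} {k l : ℕ} (h : k ≤ l) : apS d k ⊆ apS d l := by
  intro x hx
  rw [mem_apS] at hx ⊢
  obtain ⟨j, h1, h2, h3⟩ := hx
  exact ⟨j, by omega, by omega, h3⟩

theorem card_apS_le (d : G) (k : ℕ) : (apS d k).card ≤ 2 * k + 1 := by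
  unfold apS
  refine Finset.card_image_le.trans ?_
  rw [Int.card_Icc]
  omega

theorem sym_apS (d : G) (k : ℕ) : Sym (apS d k) := by
  refine ⟨?_, ?_⟩
  · rw [mem_apS]; exact ⟨0, by omega, by omega, by simp⟩
  · intro x hx
    rw [mem_apS] at hx ⊢
    obtain ⟨j, h1, h2, h3⟩ := hx
    exact ⟨-j, by omega, by omega, by rw [neg_smul, h3]⟩

theorem apS_add (d : G) (k l : ℕ) : apS d k + apS d l = apS d (k + l) := by
  ext x
  rw [Finset.mem_add, mem_apS]
  constructor
  · rintro ⟨a, ha, b, hb, rfl⟩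
    rw [mem_apS] at ha hb
    obtain ⟨i, hi1, hi2, rfl⟩ := ha
    obtain ⟨j, hj1, hj2, rfl⟩ := hb
    exact ⟨i + j, by push_cast; omega, by push_cast; omega, by rw [add_smul]⟩
  · rintro ⟨j, h1, h2, rfl⟩
    push_cast at h1 h2
    refine ⟨(j - max (-(l : ℤ)) (min j l)) • d, ?_, (max (-(l : ℤ)) (min j l)) • d, ?_, ?_⟩
    · rw [mem_apS]; exact ⟨_, by omega, by omega, rfl⟩
    · rw [mem_apS]; exact ⟨_, by omega, by omega, rfl⟩
    · rw [← add_smul]; simp

theorem It_apS (d : G) (k m : ℕ) : It (apS d k) m = apS d (m * k) := by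
  induction m with
  | zero =>
    rw [It_zero]
    ext x
    rw [mem_apS, Finset.mem_singleton]
    constructor
    · rintro rfl; exact ⟨0, by simp, by simp, by simp⟩
    · rintro ⟨j, h1, h2, rfl⟩
      have : j = 0 := by push_cast at h1 h2; simp at h1 h2; omega
      rw [this]; simp
  | succ m ih => rw [It_succ, ih, apS_add, add_mul, one_mul]

theorem zsmul_of_closure {B : Finset G} {d : G} {k : ℕ} (h : B = apS d k)
    (hgen : AddSubgroup.closure (B : Set G) = ⊤) (x : G) : ∃ j : ℤ, j • d = x := by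
  have hle : AddSubgroup.closure (B : Set G) ≤ AddSubgroup.zmultiples d := by
    rw [AddSubgroup.closure_le]
    intro b hb
    rw [Finset.mem_coe, h, mem_apS] at hb
    obtain ⟨j, _, _, rfl⟩ := hb
    exact AddSubgroup.zsmul_mem_zmultiples d j
  rw [hgen, top_le_iff] at hle
  have : x ∈ AddSubgroup.zmultiples d := by rw [hle]; trivial
  exact AddSubgroup.mem_zmultiples_iff.1 this

theorem addOrderOf_of_gen [Fintype G] {d : G} (hgen : ∀ x : G, ∃ j : ℤ, j • d = x) :
    addOrderOf d = Fintype.card G := by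
  rw [← Nat.card_zmultiples, ← Nat.card_eq_fintype_card]
  apply Nat.card_eq_of_bijective (fun x : AddSubgroup.zmultiples d => (x : G))
  constructor
  · intro a b h; exact Subtype.ext h
  · intro x
    obtain ⟨j, hj⟩ := hgen x
    exact ⟨⟨x, AddSubgroup.mem_zmultiples_iff.2 ⟨j, hj⟩⟩, rfl⟩

theorem exists_balanced [Fintype G] {d : G} (hgen : ∀ x : G, ∃ j : ℤ, j • d = x) {M : ℕ}
    (hM : Fintype.card G ≤ 2 * M + 1) (x : G) : ∃ j : ℤ, -(M : ℤ) ≤ j ∧ j ≤ M ∧ j • d = x := by
  obtain ⟨j, hj⟩ := hgen x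
  have hn : 0 < Fintype.card G := Fintype.card_pos
  have hz : ((Fintype.card G : ℕ) : ℤ) • d = 0 := by
    rw [natCast_zsmul, ← addOrderOf_of_gen hgen, addOrderOf_nsmul_eq_zero]
  set n : ℕ := Fintype.card G with hndef
  have h1 := Int.emod_nonneg j (b := (n : ℤ)) (by omega)
  have h2 := Int.emod_lt_of_pos j (b := (n : ℤ)) (by omega)
  have h3 : (j % (n : ℤ)) • d = x := by
    have h4 := Int.emod_add_mul_ediv j (n : ℤ)
    rw [← hj]
    conv_rhs => rw [← h4]
    rw [add_smul, mul_comm, mul_smul, hz, smul_zero, add_zero]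
  by_cases h5 : j % (n : ℤ) ≤ M
  · exact ⟨_, by omega, h5, h3⟩
  · refine ⟨j % (n : ℤ) - n, by omega, by omega, ?_⟩
    rw [sub_smul, h3, hz, sub_zero]

theorem apS_eq_univ [Fintype G] {d : G} (hgen : ∀ x : G, ∃ j : ℤ, j • d = x) {M : ℕ}
    (hM : Fintype.card G ≤ 2 * M + 1) : apS d M = univ := by
  apply Finset.eq_univ_of_forall
  intro x
  rw [mem_apS]
  exact exists_balanced hgen hM x

/-! fibres -/

variable {Q : Type*} [AddCommGroup Q] [DecidableEq Q] [Fintype Q] [Fintype G]

def fib (f : G →+ Q) (B : Finset G) (q : Q) : Finset G := B.filter (fun x => f x = q)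

theorem mem_fib {f : G →+ Q} {B : Finset G} {q : Q} {x : G} :
    x ∈ fib f B q ↔ x ∈ B ∧ f x = q := by
  unfold fib
  rw [Finset.mem_filter]

theorem fib_subset_cos {f : G →+ Q} {B : Finset G} {q : Q} {x : G} (hx : f x = q) :
    fib f B q ⊆ cos f.ker x := by
  intro y hy
  rw [mem_fib] at hy
  rw [mem_cos, AddMonoidHom.mem_ker, map_sub, hy.2, hx, sub_self]

theorem card_fib_le (f : G →+ Q) (B : Finset G) (q : Q) : (fib f B q).card ≤ od f.ker := by
  rcases Finset.eq_empty_or_nonempty (fib f B q) with h | ⟨x, hx⟩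
  · rw [h]; simp
  · rw [← card_cos f.ker x]
    exact Finset.card_le_card (fib_subset_cos (mem_fib.1 hx).2)

theorem card_eq_sum_fib (f : G →+ Q) (B : Finset G) :
    B.card = ∑ q ∈ B.image f, (fib f B q).card := by
  unfold fib
  exact Finset.card_eq_sum_card_image f B

theorem card_le_fib (f : G →+ Q) (B : Finset G) : B.card ≤ (B.image f).card * od f.ker := by
  rw [card_eq_sum_fib f B]
  calc _ ≤ ∑ _q ∈ B.image f, od f.ker := Finset.sum_le_sum (fun q _ => card_fib_le f B q)
    _ = _ := by rw [Finset.sum_const, smul_eq_mul]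

theorem fib_univ {f : G →+ Q} {x : G} : fib f univ (f x) = cos f.ker x := by
  ext y
  rw [mem_fib, mem_cos, AddMonoidHom.mem_ker, map_sub, sub_eq_zero]
  simp

theorem card_eq_mul (f : G →+ Q) (hf : Function.Surjective f) :
    Fintype.card G = Fintype.card Q * od f.ker := by
  have h1 := card_eq_sum_fib f (univ : Finset G)
  have h2 : (univ : Finset G).image f = univ := Finset.image_univ_of_surjective hf
  rw [h2] at h1
  rw [← Finset.card_univ (α := G), h1]
  have : ∀ q ∈ (univ : Finset Q), (fib f univ q).card = od f.ker := by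
    intro q _
    obtain ⟨x, rfl⟩ := hf q
    rw [fib_univ, card_cos]
  rw [Finset.sum_congr rfl this, Finset.sum_const, smul_eq_mul, Finset.card_univ]

theorem closure_image (f : G →+ Q) (hf : Function.Surjective f) {B : Finset G}
    (hgen : AddSubgroup.closure (B : Set G) = ⊤) :
    AddSubgroup.closure ((B.image f : Finset Q) : Set Q) = ⊤ := by
  rw [Finset.coe_image, ← AddMonoidHom.map_closure, hgen]
  exact AddSubgroup.map_top_of_surjective f hf

end H99.SC
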