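import Pool.Agent.H99.SC.EvenD
import Pool.Agent.H99.SC.Defs

/-!
Reduction to primitive sets and the general upper bound.
-/

open Finset
open scoped Pointwise

namespace H99.SC

set_option linter.unusedSectionVars false

universe u

theorem exists_prim {G : Type u} [AddCommGroup G] [DecidableEq G] [Fintype G] {B : Finset G}
    {s : ℕ} (hne : It B s ≠ univ) :
    ∃ (Q : Type u) (_ : AddCommGroup Q) (_ : DecidableEq Q) (_ : Fintype Q) (f : G →+ Q),
      Function.Surjective f ∧ Prim (B.image f) s := by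
  classical
  obtain ⟨x0, hx0⟩ := exists_not_mem_of_ne_univ hne
  let S : Set (AddSubgroup G) := {H | ∃ x, ∀ y ∈ It B s, x - y ∉ H}
  have hSne : S.Nonempty := by
    refine ⟨⊥, x0, ?_⟩
    intro y hy hxy
    rw [AddSubgroup.mem_bot, sub_eq_zero] at hxy
    exact hx0 (by rw [hxy]; exact hy)
  obtain ⟨H, hH⟩ := (Set.toFinite S).exists_maximal hSne
  obtain ⟨x1, hx1⟩ := hH.prop
  let i1 : DecidableEq (G ⧸ H) := Classical.decEq _
  let i2 : Fintype (G ⧸ H) := Fintype.ofFinite _
  let f : G →+ G ⧸ H := QuotientAddGroup.mk' H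
  have hf : Function.Surjective f := QuotientAddGroup.mk'_surjective H
  have hfker : ∀ x, f x = 0 ↔ x ∈ H := fun x => QuotientAddGroup.eq_zero_iff x
  refine ⟨G ⧸ H, inferInstance, i1, i2, f, hf, ?_, ?_⟩
  · intro h
    rw [← image_It] at h
    have h1 : f x1 ∈ (It B s).image f := by rw [h]; exact mem_univ _
    rw [Finset.mem_image] at h1
    obtain ⟨y, hy, hxy⟩ := h1
    apply hx1 y hy
    rw [← hfker, map_sub, hxy, sub_self]
  · intro P hP q
    by_contra hcon
    push Not at hcon
    have hmem : P.comap f ∈ S := by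
      obtain ⟨x, rfl⟩ := hf q
      refine ⟨x, ?_⟩
      intro y hy hxy
      rw [AddSubgroup.mem_comap, map_sub] at hxy
      refine hcon (f y) ?_ hxy
      rw [← image_It]
      exact Finset.mem_image_of_mem f hy
    have hle : H ≤ P.comap f := by
      intro x hx
      rw [AddSubgroup.mem_comap, (hfker x).2 hx]
      exact P.zero_mem
    have h2 := hH.le_of_ge hmem hle
    apply hP
    rw [AddSubgroup.eq_bot_iff_forall]
    intro p hp
    obtain ⟨x, rfl⟩ := hf p
    rw [hfker]
    exact h2 hp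

theorem le_vv {n e s d : ℕ} (he : e ≠ 0) (hd : d ∣ e) (hds : 2 * s + 2 ≤ d) :
    (2 * ((d - 2) / (2 * s)) + 1) * (n / d) ≤ vv n e s := by
  unfold vv
  apply Finset.le_sup (f := fun d => (2 * ((d - 2) / (2 * s)) + 1) * (n / d))
  rw [Finset.mem_filter, Nat.mem_divisors]
  exact ⟨⟨hd, he⟩, hds⟩

variable {G : Type*} [AddCommGroup G] [DecidableEq G] [Fintype G]
variable {Q : Type*} [AddCommGroup Q] [DecidableEq Q] [Fintype Q]

theorem exponent_dvd_of_surj (f : G →+ Q) (hf : Function.Surjective f) :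
    AddMonoid.exponent Q ∣ AddMonoid.exponent G := by
  apply AddMonoid.exponent_dvd_of_forall_nsmul_eq_zero
  intro q
  obtain ⟨x, rfl⟩ := hf q
  rw [← map_nsmul, AddMonoid.exponent_nsmul_eq_zero, map_zero]

theorem card_dvd_exponent {d : Q} (hgen : ∀ x : Q, ∃ j : ℤ, j • d = x) :
    Fintype.card Q ∣ AddMonoid.exponent Q := by
  rw [← addOrderOf_of_gen hgen]
  exact AddMonoid.addOrder_dvd_exponent d

theorem isAddCyclic_of_gen {d : Q} (hgen : ∀ x : Q, ∃ j : ℤ, j • d = x) : IsAddCyclic Q :=
  ⟨d, fun x => hgen x⟩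

theorem exists_gen (h : IsAddCyclic Q) : ∃ d : Q, ∀ x : Q, ∃ j : ℤ, j • d = x := by
  obtain ⟨d, hd⟩ := h
  exact ⟨d, fun x => hd x⟩

theorem zero_only {B : Finset Q} {s : ℕ} (hB : Sym B)
    (hgen : AddSubgroup.closure (B : Set Q) = ⊤) (hP : Prim B s) : 2 ≤ B.card := by
  by_contra hcon
  have h1 : B.card = 1 := by
    have : 0 < B.card := Finset.card_pos.2 ⟨0, hB.zero⟩
    omega
  obtain ⟨a, ha⟩ := Finset.card_eq_one.1 h1
  have h0 := hB.zero
  rw [ha, Finset.mem_singleton] at h0
  subst h0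
  apply hP.ne
  apply eq_univ_of_add hB hgen ⟨0, zero_mem_It hB.zero s⟩
  rw [ha, add_zero_set]

/-- cyclic groups: the theorem of Klopsch and Lev -/
theorem cyc_bound {B : Finset Q} {s : ℕ} (hs : 3 ≤ s) (hB : Sym B)
    (hgen : AddSubgroup.closure (B : Set Q) = ⊤) (hP : Prim B s) (hc : IsAddCyclic Q) :
    2 * s + 2 ≤ Fintype.card Q ∧ B.card ≤ 2 * ((Fintype.card Q - 2) / (2 * s)) + 1 := by
  have hb2 := zero_only hB hgen hP
  by_cases hAP : AP B
  · obtain ⟨d, k, h1, h2⟩ := hAP
    have hgd := zsmul_of_closure h1 hgen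
    have h3 : It B s ≠ univ := hP.ne
    have h1' : B = apS d k := h1
    rw [h1', It_apS] at h3
    have h4 : 2 * (s * k) + 1 < Fintype.card Q := by
      by_contra hcon
      push Not at hcon
      exact h3 (apS_eq_univ hgd hcon)
    have hk : 1 ≤ k := by omega
    have h5 : s ≤ s * k := Nat.le_mul_of_pos_right s hk
    refine ⟨by omega, ?_⟩
    have h6 : k ≤ (Fintype.card Q - 2) / (2 * s) := by
      rw [Nat.le_div_iff_mul_le (by omega)]
      have : k * (2 * s) = 2 * (s * k) := by ring
      omega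
    omega
  · have hA := hP.aper (by omega)
    have h1 := nonAP_bound (by omega) hB hgen hA hP.ne hAP
    set n := Fintype.card Q with hn
    set b := B.card with hb
    set q := (n - 2) / (2 * s) with hq
    have h2 : n - 2 < 2 * s * (q + 1) := by
      have := Nat.lt_mul_div_succ (n - 2) (show 0 < 2 * s by omega)
      exact this
    have h2' : n - 2 < 2 * (s * q) + 2 * s := by
      have : 2 * s * (q + 1) = 2 * (s * q) + 2 * s := by ring
      omega
    rcases Nat.even_or_odd b with hev | hodd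
    · have h3 := even_cyclic hs hB hgen hP hev hc
      rw [← hb, ← hn] at h3
      have hnodd : ¬ Odd n := by
        intro h
        have := odd_card_of_odd hB h
        exact (Nat.not_even_iff_odd.2 this) hev
      have hneven : Even n := Nat.not_odd_iff_even.1 hnodd
      constructor
      · have : 2 * s ≤ s * b := by
          have := Nat.mul_le_mul_left s hb2
          omega
        obtain ⟨r, hr⟩ := hneven
        omega
      · by_contra hcon
        push Not at hcon
        have h4 : 2 * q + 2 ≤ b := hcon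
        have h5 := Nat.mul_le_mul_left s h4
        have h6 : s * (2 * q + 2) = 2 * (s * q) + 2 * s := by ring
        obtain ⟨r, hr⟩ := hneven
        omega
    · constructor
      · have h3 : 3 ≤ b := by
          rcases hodd with ⟨r, hr⟩
          omega
        have := Nat.mul_le_mul_left s h3
        omega
      · by_contra hcon
        push Not at hcon
        have h4 : 2 * q + 3 ≤ b := by
          rcases hodd with ⟨r, hr⟩
          omega
        have h5 := Nat.mul_le_mul_left s h4
        have h6 : s * (2 * q + 3) = 2 * (s * q) + 3 * s := by ring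
        omega

theorem AP_cyclic {B : Finset Q} (hgen : AddSubgroup.closure (B : Set Q) = ⊤) (hAP : AP B) :
    IsAddCyclic Q := by
  obtain ⟨d, k, h1, _⟩ := hAP
  exact isAddCyclic_of_gen (zsmul_of_closure h1 hgen)

/-- first exceptional situation -/
def Exc1 (Q : Type*) [AddCommGroup Q] [Fintype Q] (s : ℕ) : Prop :=
  ∃ (z g : Q) (k : ℕ), z ≠ 0 ∧ z + z = 0 ∧ 1 ≤ k ∧ addOrderOf g = 2 * (s * k) ∧
    (∀ m : ℤ, m • g ≠ z) ∧ Fintype.card Q = 4 * (s * k)

/-- noncyclic groups -/
theorem noncyc_bound {B : Finset Q} {s : ℕ} (hs : 3 ≤ s) (hB : Sym B)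
    (hgen : AddSubgroup.closure (B : Set Q) = ⊤) (hP : Prim B s) (hc : ¬ IsAddCyclic Q) :
    s * B.card ≤ Fintype.card Q ∧
    (Odd B.card → s * B.card + s ≤ Fintype.card Q + 3) ∧
    (Odd (Fintype.card Q) → s * B.card + s ≤ Fintype.card Q + 1 ∧ Odd B.card) ∧
    (Even B.card → s * B.card + 2 * (s - 2) ≤ Fintype.card Q ∨ Exc1 Q s) := by
  have hAP : ¬ AP B := fun h => hc (AP_cyclic hgen h)
  have hA := hP.aper (by omega)
  refine ⟨nonAP_bound (by omega) hB hgen hA hP.ne hAP,
    odd_bound hs hB hgen hA hP.ne hAP,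
    fun h => ⟨nodd_bound hs hB hgen hA hP.ne hAP h, odd_card_of_odd hB h⟩, ?_⟩
  intro hev
  rcases even_case hs hB hgen hP hev with h | h | h
  · left; exact h
  · right
    obtain ⟨z, g, k, h1, h2, h3, h4, h5, h6, _⟩ := h
    exact ⟨z, g, k, h1, h2, h3, h4, h5, h6⟩
  · exfalso
    obtain ⟨g, k, _, _, h⟩ := h
    exact hc (isAddCyclic_of_gen h)

/-- transfer of the cyclic bound -/
theorem card_le_vv_of_cyc {B : Finset G} {s : ℕ} (hs : 3 ≤ s) (hB : Sym B)
    (hgen : AddSubgroup.closure (B : Set G) = ⊤) (f : G →+ Q) (hf : Function.Surjective f)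
    (hP : Prim (B.image f) s) (hc : IsAddCyclic Q) :
    B.card ≤ vv (Fintype.card G) (AddMonoid.exponent G) s := by
  obtain ⟨h1, h2⟩ := cyc_bound hs (hB.image f) (closure_image f hf hgen) hP hc
  obtain ⟨d, hd⟩ := exists_gen hc
  have he : AddMonoid.exponent G ≠ 0 := AddMonoid.exponent_ne_zero_of_finite
  have h3 := le_vv (n := Fintype.card G) (s := s) he
    ((card_dvd_exponent hd).trans (exponent_dvd_of_surj f hf)) h1
  have h4 := card_le_fib f B
  have h5 : Fintype.card G / Fintype.card Q = od f.ker := by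
    rw [card_eq_mul f hf, Nat.mul_div_cancel_left _ (by omega)]
  rw [h5] at h3
  exact h4.trans ((Nat.mul_le_mul_right _ h2).trans h3)

/-- the surjection onto `Z_2 × Z_{2sk}` in the exceptional situation -/
theorem exc_surj {s : ℕ} (h : Exc1 Q s) :
    ∃ b : ℕ, 1 ≤ b ∧ ∃ φ : Q →+ ZMod 2 × ZMod (2 * (s * b)), Function.Surjective φ := by
  obtain ⟨z, g, k, hz0, hzz, hk, hord, hzg, hcard⟩ := h
  refine ⟨k, hk, ?_⟩
  let α : ZMod 2 →+ Q := ZMod.lift 2 ⟨(zmultiplesHom Q) z, by
    simp only [zmultiplesHom_apply]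
    rw [natCast_zsmul, two_nsmul, hzz]⟩
  let β : ZMod (2 * (s * k)) →+ Q := ZMod.lift (2 * (s * k)) ⟨(zmultiplesHom Q) g, by
    simp only [zmultiplesHom_apply]
    rw [natCast_zsmul, ← hord, addOrderOf_nsmul_eq_zero]⟩
  let ψ : ZMod 2 × ZMod (2 * (s * k)) →+ Q := AddMonoidHom.coprod α β
  have hα : ∀ m : ℤ, α (m : ZMod 2) = m • z := by
    intro m
    simp only [α, ZMod.lift_coe, zmultiplesHom_apply]
  have hβ : ∀ m : ℤ, β (m : ZMod (2 * (s * k))) = m • g := by
    intro m
    simp only [β, ZMod.lift_coe, zmultiplesHom_apply]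
  have hinj : Function.Injective ψ := by
    rw [injective_iff_map_eq_zero]
    rintro ⟨a, b⟩ hab
    obtain ⟨m, rfl⟩ := ZMod.intCast_surjective a
    obtain ⟨m', rfl⟩ := ZMod.intCast_surjective b
    have h1 : m • z + m' • g = 0 := by
      have : ψ ((m : ZMod 2), (m' : ZMod (2 * (s * k)))) = α (m : ZMod 2) + β (m' : ZMod _) := by
        simp [ψ]
      rw [← hα, ← hβ, ← this]
      exact hab
    have hm : Even m := by
      by_contra hodd
      rw [Int.not_even_iff_odd] at hodd
      obtain ⟨r, hr⟩ := hodd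
      have h2 : m • z = z := by
        rw [hr, add_smul, one_smul, mul_comm, mul_smul, two_smul, hzz, smul_zero, zero_add]
      rw [h2] at h1
      apply hzg (-m')
      rw [neg_smul]
      exact (eq_neg_of_add_eq_zero_left h1).symm
    obtain ⟨r, hr⟩ := hm
    have h2 : m • z = 0 := by
      rw [hr, add_smul, ← smul_add, hzz, smul_zero]
    rw [h2, zero_add] at h1
    have h3 : ((2 * (s * k) : ℕ) : ℤ) ∣ m' := by
      rw [← hord]; exact addOrderOf_dvd_iff_zsmul_eq_zero.2 h1
    have e1 : (m : ZMod 2) = 0 := by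
      have := (ZMod.intCast_zmod_eq_zero_iff_dvd m 2).2 ⟨r, by push_cast; omega⟩
      exact this
    have e2 : (m' : ZMod (2 * (s * k))) = 0 := (ZMod.intCast_zmod_eq_zero_iff_dvd m' _).2 h3
    rw [e1, e2]; rfl
  have hskpos : 1 ≤ s * k := by
    rcases Nat.eq_zero_or_pos (s * k) with h0 | h0
    · rw [h0] at hcard
      have : 0 < Fintype.card Q := Fintype.card_pos
      omega
    · exact h0
  have : NeZero (2 * (s * k)) := ⟨by omega⟩
  have hbij : Function.Bijective ψ := by
    rw [Fintype.bijective_iff_injective_and_card]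
    refine ⟨hinj, ?_⟩
    rw [Fintype.card_prod, ZMod.card, ZMod.card, hcard]
    ring
  let E := AddEquiv.ofBijective ψ hbij
  exact ⟨E.symm.toAddMonoidHom, E.symm.surjective⟩

end H99.SC
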