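import Pool.Agent.H99.SC.Reduce

/-!
Upper bounds: general groups, and groups generated by two elements one of which has order 2 or 3.
-/

open Finset
open scoped Pointwise

namespace H99.SC

set_option linter.unusedSectionVars false

universe u

/-- general upper bound -/
theorem upper_gen {G : Type u} [AddCommGroup G] [DecidableEq G] [Fintype G] {B : Finset G}
    {s : ℕ} (hs : 3 ≤ s) (hB : Sym B) (hgen : AddSubgroup.closure (B : Set G) = ⊤)
    (hne : It B s ≠ univ) :
    B.card ≤ vv (Fintype.card G) (AddMonoid.exponent G) s ∨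
    (s * B.card ≤ Fintype.card G ∧ (s * B.card + s ≤ Fintype.card G + 3 ∨
      ∃ b : ℕ, 1 ≤ b ∧ ∃ φ : G →+ ZMod 2 × ZMod (2 * (s * b)), Function.Surjective φ)) := by
  obtain ⟨Q, _, _, _, f, hf, hP⟩ := exists_prim hne
  by_cases hc : IsAddCyclic Q
  · left
    exact card_le_vv_of_cyc hs hB hgen f hf hP hc
  · right
    obtain ⟨h1, h2, h3, h4⟩ := noncyc_bound hs (hB.image f) (closure_image f hf hgen) hP hc
    have h5 := card_le_fib f B
    have h6 := card_eq_mul f hf
    have hod := od_pos f.ker
    have h7 : s * B.card ≤ s * (B.image f).card * od f.ker := by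
      rw [mul_assoc]; exact Nat.mul_le_mul_left s h5
    refine ⟨?_, ?_⟩
    · rw [h6]
      exact h7.trans (Nat.mul_le_mul_right _ h1)
    · have key : s * (B.image f).card + s ≤ Fintype.card Q + 3 →
          s * B.card + s ≤ Fintype.card G + 3 := by
        intro h
        have h8 : s * (B.image f).card + (s - 3) ≤ Fintype.card Q := by omega
        have h9 := Nat.mul_le_mul_right (od f.ker) h8
        rw [← h6, add_mul] at h9
        have h10 : s - 3 ≤ (s - 3) * od f.ker := Nat.le_mul_of_pos_right _ hod
        omega
      rcases Nat.even_or_odd (B.image f).card with hev | hodd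
      · rcases h4 hev with h | h
        · left
          apply key
          omega
        · right
          obtain ⟨b, hb, φ, hφ⟩ := exc_surj h
          exact ⟨b, hb, φ.comp f, hφ.comp hf⟩
      · left
        exact key (h2 hodd)

variable {Q : Type*} [AddCommGroup Q] [DecidableEq Q] [Fintype Q]

theorem cyclic_of_le_zmultiples {B : Finset Q} (hgen : AddSubgroup.closure (B : Set Q) = ⊤)
    {z : Q} (h : ∀ b ∈ B, b ∈ AddSubgroup.zmultiples z) : IsAddCyclic Q := by
  have hle : AddSubgroup.closure (B : Set Q) ≤ AddSubgroup.zmultiples z := by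
    rw [AddSubgroup.closure_le]
    intro b hb
    exact h b hb
  rw [hgen, top_le_iff] at hle
  apply isAddCyclic_of_gen (d := z)
  intro x
  have : x ∈ AddSubgroup.zmultiples z := by rw [hle]; trivial
  exact AddSubgroup.mem_zmultiples_iff.1 this

theorem four_le {B : Finset Q} {s : ℕ} (hs : 3 ≤ s) (hB : Sym B)
    (hgen : AddSubgroup.closure (B : Set Q) = ⊤) (hP : Prim B s) (hc : ¬ IsAddCyclic Q) :
    4 ≤ B.card := by
  have hAP : ¬ AP B := fun h => hc (AP_cyclic hgen h)
  apply four_le_of_not_AP hB hgen _ hAP
  · by_contra hcon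
    have h2 := zero_only hB hgen hP
    have hc2 : (B.erase 0).card = 1 := by
      rw [Finset.card_erase_of_mem hB.zero]; omega
    obtain ⟨z, hz⟩ := Finset.card_eq_one.1 hc2
    apply hc
    apply cyclic_of_le_zmultiples hgen (z := z)
    intro b hb
    by_cases hb0 : b = 0
    · rw [hb0]; exact (AddSubgroup.zmultiples z).zero_mem
    · have : b ∈ B.erase 0 := Finset.mem_erase.2 ⟨hb0, hb⟩
      rw [hz, Finset.mem_singleton] at this
      rw [this]; exact AddSubgroup.mem_zmultiples z
  · intro h
    apply hP.ne
    apply Finset.eq_univ_of_forall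
    intro w
    have : w ∈ It B 2 := by rw [h]; exact mem_univ w
    exact It_mono hB.zero (by omega) this

theorem od_eq_nat_card (H : AddSubgroup Q) : od H = Nat.card H := by
  unfold od
  symm
  exact Nat.subtype_card (p := fun x => x ∈ H) (cos H 0) (fun x => by rw [mem_cos, sub_zero])

theorem od_zmultiples (g : Q) : od (AddSubgroup.zmultiples g) = addOrderOf g := by
  rw [od_eq_nat_card, Nat.card_zmultiples]

/-- two generators, one of them an involution -/
theorem card_two_gen {u g : Q} (hgen : ∀ x : Q, ∃ i j : ℤ, x = i • u + j • g) (huu : 2 • u = 0)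
    (hc : ¬ IsAddCyclic Q) : Fintype.card Q = 2 * addOrderOf g ∧ Even (addOrderOf g) := by
  have hu : u ∉ AddSubgroup.zmultiples g := by
    intro hu
    obtain ⟨m, hm⟩ := AddSubgroup.mem_zmultiples_iff.1 hu
    apply hc
    apply isAddCyclic_of_gen (d := g)
    intro x
    obtain ⟨i, j, rfl⟩ := hgen x
    refine ⟨i * m + j, ?_⟩
    rw [add_smul, mul_smul, hm]
  have hiu : ∀ i : ℤ, i • u = 0 ∨ i • u = u := by
    intro i
    rcases Int.even_or_odd' i with ⟨r, hr | hr⟩
    · left
      have : i • u = r • ((2 : ℕ) • u) := by
        rw [hr, mul_comm, mul_smul, two_smul, two_nsmul]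
      rw [this, huu, smul_zero]
    · right
      have : i • u = r • ((2 : ℕ) • u) + u := by
        rw [hr, add_smul, mul_comm, mul_smul, two_smul, two_nsmul, one_smul]
      rw [this, huu, smul_zero, zero_add]
  constructor
  · have hd : Disjoint (cos (AddSubgroup.zmultiples g) 0) (cos (AddSubgroup.zmultiples g) u) := by
      rw [Finset.disjoint_left]
      intro x hx hx'
      rw [mem_cos] at hx hx'
      apply hu
      have : u = (x - 0) - (x - u) := by abel
      rw [this]
      exact (AddSubgroup.zmultiples g).sub_mem hx hx'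
    have hU : cos (AddSubgroup.zmultiples g) 0 ∪ cos (AddSubgroup.zmultiples g) u = univ := by
      apply Finset.eq_univ_of_forall
      intro x
      obtain ⟨i, j, rfl⟩ := hgen x
      rw [Finset.mem_union, mem_cos, mem_cos]
      rcases hiu i with h | h
      · left
        rw [h, zero_add, sub_zero]
        exact AddSubgroup.zsmul_mem_zmultiples g j
      · right
        rw [h, add_sub_cancel_left]
        exact AddSubgroup.zsmul_mem_zmultiples g j
    rw [← Finset.card_univ, ← hU, Finset.card_union_of_disjoint hd, card_cos, card_cos,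
      od_zmultiples]
    ring
  · by_contra hodd
    rw [Nat.not_even_iff_odd] at hodd
    obtain ⟨r, hr⟩ := hodd
    apply hc
    have h1 : ((addOrderOf g : ℕ) : ℤ) • (g + u) = u := by
      rw [smul_add, natCast_zsmul, addOrderOf_nsmul_eq_zero, zero_add, natCast_zsmul, hr,
        add_nsmul, mul_comm, mul_nsmul', huu, nsmul_zero, zero_add, one_nsmul]
    apply isAddCyclic_of_gen (d := g + u)
    intro x
    obtain ⟨i, j, rfl⟩ := hgen x
    refine ⟨(i - j) * (addOrderOf g : ℕ) + j, ?_⟩
    rw [add_smul, mul_smul, h1, sub_smul, smul_add]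
    abel

/-- two generators, one of them of order three -/
theorem card_three_gen {u g : Q} (hgen : ∀ x : Q, ∃ i j : ℤ, x = i • u + j • g)
    (huu : 3 • u = 0) (hc : ¬ IsAddCyclic Q) :
    Fintype.card Q = 3 * addOrderOf g ∧ 3 ∣ addOrderOf g ∧
      u ∉ AddSubgroup.zmultiples g := by
  have hu : u ∉ AddSubgroup.zmultiples g := by
    intro hu
    obtain ⟨m, hm⟩ := AddSubgroup.mem_zmultiples_iff.1 hu
    apply hc
    apply isAddCyclic_of_gen (d := g)
    intro x
    obtain ⟨i, j, rfl⟩ := hgen x
    refine ⟨i * m + j, ?_⟩
    rw [add_smul, mul_smul, hm]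
  have hu2 : -u ∉ AddSubgroup.zmultiples g := fun h =>
    hu ((AddSubgroup.neg_mem_iff _).1 h)
  have h3u : (3 : ℤ) • u = 0 := by
    have : (3 : ℤ) • u = (3 : ℕ) • u := by
      rw [← natCast_zsmul]; norm_num
    rw [this, huu]
  have hiu : ∀ i : ℤ, i • u = 0 ∨ i • u = u ∨ i • u = -u := by
    intro i
    have h1 : i = 3 * (i / 3) + i % 3 := by omega
    have h2 : i • u = (i % 3) • u := by
      conv_lhs => rw [h1]
      rw [add_smul, mul_comm, mul_smul, h3u, smul_zero, zero_add]
    have h3 : i % 3 = 0 ∨ i % 3 = 1 ∨ i % 3 = 2 := by omega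
    rcases h3 with h | h | h
    · left; rw [h2, h, zero_smul]
    · right; left; rw [h2, h, one_smul]
    · right; right
      rw [h2, h]
      have : (2 : ℤ) • u = (3 : ℤ) • u - u := by
        have : (3 : ℤ) = 2 + 1 := by norm_num
        rw [this, add_smul, one_smul, add_sub_cancel_right]
      rw [this, h3u, zero_sub]
  refine ⟨?_, ?_, hu⟩
  · set H := AddSubgroup.zmultiples g with hH
    have hd1 : Disjoint (cos H 0) (cos H u) := by
      rw [Finset.disjoint_left]
      intro x hx hx'
      rw [mem_cos] at hx hx'
      apply hu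
      have : u = (x - 0) - (x - u) := by abel
      rw [this]
      exact H.sub_mem hx hx'
    have hd2 : Disjoint (cos H 0 ∪ cos H u) (cos H (-u)) := by
      rw [Finset.disjoint_left]
      intro x hx hx'
      rw [Finset.mem_union, mem_cos, mem_cos] at hx
      rw [mem_cos] at hx'
      rcases hx with hx | hx
      · apply hu2
        have : -u = (x - 0) - (x - -u) := by abel
        rw [this]
        exact H.sub_mem hx hx'
      · apply hu2
        have h4 : (x - -u) - (x - u) = u + u := by abel
        have h5 : u + u = -u := by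
          have : u + u = (3 : ℤ) • u - u := by
            have : (3 : ℤ) = 1 + 1 + 1 := by norm_num
            rw [this, add_smul, add_smul, one_smul, add_sub_cancel_right]
          rw [this, h3u, zero_sub]
        rw [← h5, ← h4]
        exact H.sub_mem hx' hx
    have hU : (cos H 0 ∪ cos H u) ∪ cos H (-u) = univ := by
      apply Finset.eq_univ_of_forall
      intro x
      obtain ⟨i, j, rfl⟩ := hgen x
      rw [Finset.mem_union, Finset.mem_union, mem_cos, mem_cos, mem_cos]
      rcases hiu i with h | h | h
      · left; left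
        rw [h, zero_add, sub_zero]
        exact AddSubgroup.zsmul_mem_zmultiples g j
      · left; right
        rw [h, add_sub_cancel_left]
        exact AddSubgroup.zsmul_mem_zmultiples g j
      · right
        rw [h, add_sub_cancel_left]
        exact AddSubgroup.zsmul_mem_zmultiples g j
    rw [← Finset.card_univ, ← hU, Finset.card_union_of_disjoint hd2,
      Finset.card_union_of_disjoint hd1, card_cos, card_cos, card_cos, hH, od_zmultiples]
    ring
  · by_contra hnd
    apply hc
    -- u is a multiple of g + u
    have hmul : u ∈ AddSubgroup.zmultiples (g + u) := by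
      have h1 : ((addOrderOf g : ℕ) : ℤ) • (g + u) = ((addOrderOf g : ℕ) : ℤ) • u := by
        rw [smul_add, natCast_zsmul, addOrderOf_nsmul_eq_zero, zero_add, natCast_zsmul]
      have h2 : ((addOrderOf g : ℕ) : ℤ) • u ∈ AddSubgroup.zmultiples (g + u) := by
        rw [← h1]; exact AddSubgroup.zsmul_mem_zmultiples _ _
      have h3 : (((addOrderOf g : ℕ) : ℤ)) • u = u ∨ (((addOrderOf g : ℕ) : ℤ)) • u = -u := by
        have h5 : (addOrderOf g : ℤ) % 3 = 1 ∨ (addOrderOf g : ℤ) % 3 = 2 := by omega
        have h6 : (addOrderOf g : ℤ) • u = ((addOrderOf g : ℤ) % 3) • u := by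
          have h7 : (addOrderOf g : ℤ) = 3 * ((addOrderOf g : ℤ) / 3) + (addOrderOf g : ℤ) % 3 := by
            omega
          conv_lhs => rw [h7]
          rw [add_smul, mul_comm, mul_smul, h3u, smul_zero, zero_add]
        rcases h5 with h | h
        · left; rw [h6, h, one_smul]
        · right
          rw [h6, h]
          have : (2 : ℤ) • u = (3 : ℤ) • u - u := by
            have : (3 : ℤ) = 2 + 1 := by norm_num
            rw [this, add_smul, one_smul, add_sub_cancel_right]
          rw [this, h3u, zero_sub]
      rcases h3 with h | h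
      · rw [h] at h2; exact h2
      · rw [h] at h2; exact (AddSubgroup.neg_mem_iff _).1 h2
    have hg : g ∈ AddSubgroup.zmultiples (g + u) := by
      have h8 := AddSubgroup.sub_mem _ (AddSubgroup.mem_zmultiples (g + u)) hmul
      rwa [add_sub_cancel_right] at h8
    apply isAddCyclic_of_gen (d := g + u)
    intro x
    obtain ⟨i, j, rfl⟩ := hgen x
    exact AddSubgroup.mem_zmultiples_iff.1
      (AddSubgroup.add_mem _ (AddSubgroup.zsmul_mem _ hmul i) (AddSubgroup.zsmul_mem _ hg j))

/-- the property used for the prime three -/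
theorem rank_three {u g : Q} (huu : 3 • u = 0) (hu : u ∉ AddSubgroup.zmultiples g)
    (h3 : 3 ∣ addOrderOf g) (x : Q) : ∃ t : Q, 2 • t ∉ AddSubgroup.zmultiples x := by
  by_contra hcon
  push Not at hcon
  obtain ⟨r, hr⟩ := h3
  have hgpos : 0 < addOrderOf g := addOrderOf_pos g
  have hrpos : 0 < r := by
    rcases Nat.eq_zero_or_pos r with h | h
    · rw [h] at hr; omega
    · exact h
  set v := r • g with hv
  have hv3 : 3 • v = 0 := by
    rw [hv, smul_smul, ← hr, addOrderOf_nsmul_eq_zero]
  have hv0 : v ≠ 0 := by
    intro h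
    have := addOrderOf_dvd_of_nsmul_eq_zero h
    have := Nat.le_of_dvd hrpos this
    omega
  have hvg : v ∈ AddSubgroup.zmultiples g := AddSubgroup.nsmul_mem_zmultiples g r
  have hmem : ∀ t : Q, 3 • t = 0 → t ∈ AddSubgroup.zmultiples x := by
    intro t ht
    have h1 := hcon t
    have h2 : t = 3 • t - 2 • t := by
      have : 3 • t = 2 • t + t := by rw [← succ_nsmul]
      rw [this]; abel
    rw [h2, ht, zero_sub]
    exact (AddSubgroup.neg_mem_iff _).2 h1
  have hnu : 3 • (-u) = 0 := by rw [smul_neg, huu, neg_zero]
  have hcyc : IsAddCyclic (AddSubgroup.zmultiples x) := inferInstance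
  have hcard := IsAddCyclic.card_nsmul_eq_zero_le (α := AddSubgroup.zmultiples x) (n := 3)
    (by norm_num)
  let U : AddSubgroup.zmultiples x := ⟨u, hmem u huu⟩
  let V : AddSubgroup.zmultiples x := ⟨v, hmem v hv3⟩
  let W : AddSubgroup.zmultiples x := ⟨-u, hmem (-u) hnu⟩
  have hu0 : u ≠ 0 := by
    intro h; apply hu; rw [h]; exact AddSubgroup.zero_mem _
  have hsub : ({0, U, V, W} : Finset (AddSubgroup.zmultiples x)) ⊆
      univ.filter (fun a => 3 • a = 0) := by
    intro w hw
    simp only [mem_insert, mem_singleton] at hw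
    rw [Finset.mem_filter]
    refine ⟨mem_univ _, ?_⟩
    apply Subtype.ext
    rcases hw with rfl | rfl | rfl | rfl
    · simp
    · exact huu
    · exact hv3
    · exact hnu
  have h4 : ({0, U, V, W} : Finset (AddSubgroup.zmultiples x)).card = 4 := by
    have e1 : (0 : AddSubgroup.zmultiples x) ∉ ({U, V, W} : Finset _) := by
      simp only [mem_insert, mem_singleton]
      rintro (h | h | h)
      · exact hu0 (congrArg Subtype.val h).symm
      · exact hv0 (congrArg Subtype.val h).symm
      · have : (0 : Q) = -u := congrArg Subtype.val h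
        exact hu0 (by rw [← neg_neg u, ← this, neg_zero])
    have e2 : U ∉ ({V, W} : Finset _) := by
      simp only [mem_insert, mem_singleton]
      rintro (h | h)
      · have : u = v := congrArg Subtype.val h
        exact hu (by rw [this]; exact hvg)
      · have h5 : u = -u := congrArg Subtype.val h
        have h6 : u + u = 0 := by nth_rewrite 2 [h5]; simp
        apply hu0
        have h7 : 3 • u = 2 • u + u := by rw [← succ_nsmul]
        rw [huu, two_nsmul, h6, zero_add] at h7
        exact h7.symm
    have e3 : V ∉ ({W} : Finset _) := by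
      simp only [mem_singleton]
      intro h
      have h5 : v = -u := congrArg Subtype.val h
      apply hu
      rw [← AddSubgroup.neg_mem_iff, ← h5]
      exact hvg
    rw [Finset.card_insert_of_notMem e1, Finset.card_insert_of_notMem e2,
      Finset.card_insert_of_notMem e3, Finset.card_singleton]
  have := Finset.card_le_card hsub
  omega

end H99.SC
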